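import Pool.Agent.Helper21.AX.H4b

/-!
Project AX (MP_4a5e7e_lc): few strings are heavy.
-/

namespace Pool.Agent.Helper21.AX

open Pool.Agent.Helper5.SX

variable {τ : ℕ → Task}

private theorem B1a_asked (i : ℕ) (O : Set Str) (z : Str) (Y : Finset Str)
    (h : ∀ y ∈ Y, Asks τ i O z y) : Y.card ≤ (τ i).k := by
  classical
  have hsub : Y ⊆ (Finset.range (τ i).k).image fun j => (qa τ i O z j).getD [] := by
    intro y hy
    obtain ⟨j, hj⟩ := h y hy
    refine Finset.mem_image.2 ⟨j, ?_, by rw [hj]; rfl⟩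
    rw [Finset.mem_range]
    by_contra hlt
    unfold qa at hj
    rw [Option.bind_eq_some_iff] at hj
    obtain ⟨s', -, hs'⟩ := hj
    rw [if_neg hlt] at hs'
    exact absurd hs' (by simp)
  exact (Finset.card_le_card hsub).trans (Finset.card_image_le.trans (by rw [Finset.card_range]))

private theorem B1a_strings (N : ℕ) : ∃ L : Finset Str, (∀ v, v ∈ L ↔ v.length = N) ∧
    L.card ≤ 2 ^ N := by
  classical
  refine ⟨Finset.univ.image fun f : Fin N → Bool => List.ofFn f, fun v => ?_, ?_⟩
  · rw [Finset.mem_image]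
    constructor
    · rintro ⟨f, -, rfl⟩
      exact List.length_ofFn
    · rintro rfl
      exact ⟨v.get, Finset.mem_univ _, List.ofFn_get v⟩
  · refine Finset.card_image_le.trans ?_
    simp

/-- Proof: double counting of the pairs `(y, v)`, `y ∈ Y`, `v.length = m t`, `Asks τ i O (zz i v) y`.
For each `y` there are at least `2 ^ m t / 2` of them, for each `v` at most `(τ i).k` (the string `y` is
`qa τ i O (zz i v) j` for some `j < (τ i).k`). -/
theorem heavy_card (i t : ℕ) (O : Set Str) (Y : Finset Str) (h : ∀ y ∈ Y, Heavy τ i t O y) :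
    Y.card ≤ 2 * (τ i).k := by
  classical
  obtain ⟨L, hL, hc⟩ := B1a_strings (m t)
  have h1 : ∀ y ∈ Y, 2 ^ m t ≤ 2 * (L.filter fun v => Asks τ i O (zz i v) y).card := by
    intro y hy
    have e : {v : Str | v.length = m t ∧ Asks τ i O (zz i v) y} =
        ((L.filter fun v => Asks τ i O (zz i v) y : Finset Str) : Set Str) := by
      ext v
      simp [hL]
    have h2 := h y hy
    unfold Heavy at h2
    rwa [e, Set.ncard_coe_finset] at h2
  have h2 : ∑ y ∈ Y, (L.filter fun v => Asks τ i O (zz i v) y).card =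
      ∑ v ∈ L, (Y.filter fun y => Asks τ i O (zz i v) y).card := by
    simp only [Finset.card_filter]
    exact Finset.sum_comm
  have h3 : ∑ v ∈ L, (Y.filter fun y => Asks τ i O (zz i v) y).card ≤ 2 ^ m t * (τ i).k := by
    refine (Finset.sum_le_card_nsmul L _ (τ i).k fun v _ => ?_).trans ?_
    · exact B1a_asked i O (zz i v) _ fun y hy => (Finset.mem_filter.1 hy).2
    · rw [smul_eq_mul]
      exact Nat.mul_le_mul_right _ hc
  have h4 : Y.card * 2 ^ m t ≤ ∑ y ∈ Y, 2 * (L.filter fun v => Asks τ i O (zz i v) y).card := by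
    rw [← smul_eq_mul]
    exact Finset.card_nsmul_le_sum Y _ _ h1
  rw [← Finset.mul_sum, h2] at h4
  have h5 : 2 ^ m t * Y.card ≤ 2 ^ m t * (2 * (τ i).k) := by
    calc 2 ^ m t * Y.card = Y.card * 2 ^ m t := Nat.mul_comm _ _
      _ ≤ 2 * ∑ v ∈ L, (Y.filter fun y => Asks τ i O (zz i v) y).card := h4
      _ ≤ 2 * (2 ^ m t * (τ i).k) := Nat.mul_le_mul_left _ h3
      _ = 2 ^ m t * (2 * (τ i).k) := by ring
  exact Nat.le_of_mul_le_mul_left h5 (by positivity)

end Pool.Agent.Helper21.AX
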