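import Pool.Agent.Helper21.AX.B1a

/-!
Project AX (MP_4a5e7e_lc): special strings are rare.
-/

namespace Pool.Agent.Helper21.AX

open Pool.Agent.Helper5.SX

variable {τ : ℕ → Task}

/-- Proof: all the test instances of level `t` ask `y` (`Special`, `Free`), so `light` gives `Heavy`. -/
theorem special_heavy (hτ : Small τ) {W : Cfg} {i t : ℕ} {y : Str}
    (h : Special τ (xx τ) i (OO τ W) y) (ht : TestLev i (lev y.length) t) :
    Heavy τ i t (OO τ W) y := by
  by_contra hn
  have h1 : U i ≤ lev y.length := h.1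
  have h2 := ht.1
  obtain ⟨l, hl, hl'⟩ := light hτ (by omega) W (lev_le_iff.1 (by omega)) hn
  exact h.2 t l ⟨ht, hl, hl'⟩

/-- Proof: `special_heavy` for `t = a + E i + D i`, and `heavy_card`. -/
theorem special_card (hτ : Small τ) {W : Cfg} {i a : ℕ} (Y : Finset Str)
    (h : ∀ y ∈ Y, Special τ (xx τ) i (OO τ W) y ∧ a ≤ lev y.length ∧ lev y.length ≤ a + E i) :
    Y.card ≤ 2 * i := by
  have h1 := heavy_card i (a + E i + D i) (OO τ W) Y (fun y hy => by
    obtain ⟨hs, h1, h2⟩ := h y hy
    exact special_heavy hτ hs ⟨by omega, by omega⟩)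
  have h2 := (hτ i).2.2
  omega

end Pool.Agent.Helper21.AX
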