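import Pool.Agent.Helper21.AX.B1b

/-!
Project AX (MP_4a5e7e_lc): special strings have different short instances.
-/

namespace Pool.Agent.Helper21.AX

open Pool.Agent.Helper5.SX

variable {τ : ℕ → Task}

private theorem B1c_lt {i : ℕ} {O : Set Str} {z y : Str} {j : ℕ} (h : qa τ i O z j = some y) :
    j < (τ i).k := by
  by_contra hj
  unfold qa at h
  rcases hz : out O (τ i).g z (z.length ^ (τ i).r + (τ i).r) with _ | s'
  · rw [hz] at h
    simp at h
  · rw [hz] at h
    simp [hj] at h

/-- Proof: `special_heavy` for `t = lev y.length + D i` and `heavy` give `l` and `j` with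
`qa ... (zz i (R l)) j = some y`, and `j < (τ i).k` (otherwise `qa` is `none`). The number
`e = l * (k + 1) + j` satisfies `RefAt`; then `Nat.find_spec`. -/
theorem refAt_eidx (hτ : Small τ) {W : Cfg} {i : ℕ} {y : Str}
    (h : Special τ (xx τ) i (OO τ W) y) :
    RefAt τ (xx τ) i (OO τ W) y (eidx τ (xx τ) i (OO τ W) y) := by
  obtain ⟨s, hs⟩ : ∃ s, s = lev y.length := ⟨_, rfl⟩
  have hU : U i ≤ s := hs ▸ h.1
  have H := special_heavy hτ h (t := s + D i) ⟨by omega, by omega⟩
  have hy : y.length ≤ m (s + D i - D i) := by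
    rw [Nat.add_sub_cancel, hs]
    exact le_m_lev _
  obtain ⟨l, hl, j, hj⟩ := heavy hτ (by omega) W hy H
  have hjk := B1c_lt hj
  have hex : ∃ e, RefAt τ (xx τ) i (OO τ W) y e := by
    refine ⟨j + ((τ i).k + 1) * l, ?_, ?_⟩
    · rw [← hs]
      calc j + ((τ i).k + 1) * l < ((τ i).k + 1) + ((τ i).k + 1) * l := by omega
        _ = (l + 1) * ((τ i).k + 1) := by ring
        _ ≤ Lp i (s + D i) * ((τ i).k + 1) := Nat.mul_le_mul_right _ hl
    · rw [← hs, Nat.add_mul_div_left _ _ (Nat.succ_pos _), Nat.add_mul_mod_self_left,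
        Nat.div_eq_of_lt (by omega), Nat.mod_eq_of_lt (by omega), Nat.zero_add]
      exact hj
  unfold eidx
  rw [dif_pos hex]
  classical
  exact Nat.find_spec hex

/-- The short instances of special strings are different. Proof: `hs_inj` with `pair_lt`,
`short_len`; `Nat.pair_eq_pair`; the lengths are equal, hence the levels, and the numbers `eidx` are equal,
so `refAt_eidx` twice gives `some y = some y'`. -/
theorem hh_inj (hτ : Small τ) {W : Cfg} {i i' : ℕ} {y y' : Str}
    (h : Special τ (xx τ) i (OO τ W) y) (h' : Special τ (xx τ) i' (OO τ W) y')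
    (e : hh τ (xx τ) i (OO τ W) y = hh τ (xx τ) i' (OO τ W) y') : i = i' ∧ y = y' := by
  have r := refAt_eidx hτ h
  have r' := refAt_eidx hτ h'
  obtain ⟨h1, -, h3⟩ := hs_inj (short_len h.1) (short_len h'.1)
    (pair_lt (hτ i).2.2 h.1 (le_m_lev _) r.1) (pair_lt (hτ i').2.2 h'.1 (le_m_lev _) r'.1) e
  subst h1
  obtain ⟨h4, h5⟩ := Nat.pair_eq_pair.1 h3
  refine ⟨rfl, ?_⟩
  have r2 := r.2
  have r2' := r'.2
  rw [h4, h5, r2'] at r2
  exact (Option.some.inj r2).symm

/-- Proof: `hs_length`, `short_len`. -/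
theorem hh_length {i : ℕ} {O : Set Str} {y : Str} (X : ℕ → ℕ → PR) (h : Act i y) :
    (hh τ X i O y).length = m (lev y.length - D i) := by
  unfold hh
  exact hs_length _ (short_len h)

end Pool.Agent.Helper21.AX
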