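import Pool.Agent.Helper21.AX.N1

/-!
Project AX (MP_4a5e7e_lc): levels in windows.
-/

namespace Pool.Agent.Helper21.AX

/-- Levels in `Ev i` below `4 σ`. Proof: cover `[0, 4 σ)` by the windows
`[b (E i + 1), b (E i + 1) + E i]`, `b ≤ 4 σ / (E i + 1)`; each contains at most `2 i` elements of `S`
(`Finset.card_biUnion_le` or a fiberwise sum over `s / (E i + 1)`). -/
theorem window_card {Ev : Set ℕ} {i σ : ℕ}
    (hE : ∀ (a : ℕ) (S : Finset ℕ), (∀ s ∈ S, s ∈ Ev ∧ a ≤ s ∧ s ≤ a + E i) → S.card ≤ 2 * i)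
    (S : Finset ℕ) (hS : ∀ s ∈ S, s ∈ Ev ∧ s < 4 * σ) :
    S.card ≤ 2 * i * (4 * σ / (E i + 1) + 1) := by
  have h1 : ∀ s ∈ S, s / (E i + 1) ∈ Finset.range (4 * σ / (E i + 1) + 1) := by
    intro s hs
    rw [Finset.mem_range, Nat.lt_succ_iff]
    exact Nat.div_le_div_right (hS s hs).2.le
  have h2 := Finset.card_le_mul_card_image_of_maps_to (s := S) h1 (2 * i) ?_
  · rwa [Finset.card_range] at h2
  · intro b _
    refine hE (b * (E i + 1)) _ fun s hs => ?_
    obtain ⟨h3, h4⟩ := Finset.mem_filter.1 hs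
    refine ⟨(hS s h3).1, ?_, ?_⟩
    · rw [← h4]
      exact Nat.div_mul_le_self s (E i + 1)
    · have h5 := Nat.lt_div_mul_add (a := s) (b := E i + 1) (Nat.succ_pos _)
      rw [h4] at h5
      omega

end Pool.Agent.Helper21.AX
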