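import Pool.Agent.Helper21.AX.N1

/-!
Project AX (MP_4a5e7e_lc): the number of the bad cuts.
-/

namespace Pool.Agent.Helper21.AX

/-- Proof: `K i * (4 σ / (E i + 1)) ≤ 4 σ / 2 ^ (i + 6)` (as `E i = 2 ^ (i + 6) * K i`), the sum over
`i < n` of `4 σ / 2 ^ (i + 6)` is at most `σ / 8`, and if `n ≥ 1` the hypothesis with `i = n - 1` and
`sumK_le_U` give `8 ∑ K i ≤ U (n - 1) < 4 σ`. So the total is at most `σ / 8 + σ / 2 < σ`. (For `n = 0` the sum
is `0 < σ`.) -/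
theorem bad_lt {σ n : ℕ} (hσ : 8 ≤ σ) (hn : ∀ i < n, U i < 4 * σ) :
    ∑ i ∈ Finset.range n, K i * (4 * σ / (E i + 1) + 1) < σ := by
  have h1 : ∀ i, K i * (4 * σ / (E i + 1)) * 2 ^ (i + 6) ≤ 4 * σ := by
    intro i
    have e1 : K i * (4 * σ / (E i + 1)) * 2 ^ (i + 6) = (4 * σ / (E i + 1)) * E i := by
      unfold E
      ring
    rw [e1]
    calc 4 * σ / (E i + 1) * E i ≤ 4 * σ / (E i + 1) * (E i + 1) :=
          Nat.mul_le_mul_left _ (Nat.le_succ _)
      _ ≤ 4 * σ := Nat.div_mul_le_self _ _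
  have h2 : ∀ k, 8 * 2 ^ k * (∑ i ∈ Finset.range k, K i * (4 * σ / (E i + 1))) + σ ≤ σ * 2 ^ k := by
    intro k
    induction k with
    | zero => simp
    | succ k ih =>
      rw [Finset.sum_range_succ]
      have h3 := h1 k
      generalize (∑ i ∈ Finset.range k, K i * (4 * σ / (E i + 1))) = S at ih ⊢
      generalize K k * (4 * σ / (E k + 1)) = a at h3 ⊢
      have e2 : (2 : ℕ) ^ (k + 6) = 64 * 2 ^ k := by ring
      have e3 : (2 : ℕ) ^ (k + 1) = 2 * 2 ^ k := by ring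
      rw [e2] at h3
      rw [e3]
      generalize (2 : ℕ) ^ k = q at *
      nlinarith
  have h3 : 8 * (∑ i ∈ Finset.range n, K i * (4 * σ / (E i + 1))) ≤ σ := by
    have h4 := h2 n
    have h5 : 0 < 2 ^ n := Nat.two_pow_pos n
    have h6 : 2 ^ n * (8 * (∑ i ∈ Finset.range n, K i * (4 * σ / (E i + 1)))) ≤ 2 ^ n * σ := by
      nlinarith
    exact Nat.le_of_mul_le_mul_left h6 h5
  have h4 : 8 * (∑ i ∈ Finset.range n, K i) ≤ 4 * σ := by
    rcases Nat.eq_zero_or_pos n with h5 | h5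
    · rw [h5]
      simp
    · obtain ⟨k, rfl⟩ : ∃ k, n = k + 1 := ⟨n - 1, by omega⟩
      exact (sumK_le_U k).trans (hn k (Nat.lt_succ_self k)).le
  have h5 : ∑ i ∈ Finset.range n, K i * (4 * σ / (E i + 1) + 1) =
      ∑ i ∈ Finset.range n, K i * (4 * σ / (E i + 1)) + ∑ i ∈ Finset.range n, K i := by
    rw [← Finset.sum_add_distrib]
    exact Finset.sum_congr rfl fun i _ => by ring
  rw [h5]
  omega

end Pool.Agent.Helper21.AX
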