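import Pool.Agent.Helper21.AX.B2a
import Pool.Agent.Helper21.AX.B2b

/-!
Project AX (MP_4a5e7e_lc): clean cuts.
-/

namespace Pool.Agent.Helper21.AX

/-- Clean cuts. Proof: let `n` be the number of the `i` with `U i < 4 σ` (`U` is increasing and
`i < U i`, so these are the `i < n`; for example `n = (Finset.range (4 σ)).filter (U · < 4 σ)`.card, or
`n` minimal with `4 σ ≤ U n`, by `Nat.find`). Let `S i` be the set of the `s ∈ Ev i` with `s < 4 σ`, and
let the bad set be the union over `i < n`, `s ∈ S i` of `Finset.Ioc (s - D i) (s + D i)`, each with at most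
`2 D i` elements. Since `2 D i * 2 i ≤ K i`, `window_card` and `bad_lt` show that the bad set has less than `σ`
elements, so some `σ'` in `Finset.Ioc σ (2 σ)` is not bad. For `s ∈ Ev i`, `s < 4 σ` we have `U i < 4 σ`. -/
theorem exists_cut (Ev : ℕ → Set ℕ) {σ : ℕ} (hσ : 8 ≤ σ) (hU : ∀ i, ∀ s ∈ Ev i, U i ≤ s)
    (hE : ∀ (i a : ℕ) (S : Finset ℕ), (∀ s ∈ S, s ∈ Ev i ∧ a ≤ s ∧ s ≤ a + E i) →
      S.card ≤ 2 * i) :
    ∃ σ', σ < σ' ∧ σ' ≤ 2 * σ ∧
      ∀ i, ∀ s ∈ Ev i, s < 4 * σ → σ' + D i ≤ s ∨ s + D i < σ' := by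
  classical
  have hmono : ∀ {a b : ℕ}, a ≤ b → U a ≤ U b := fun {a b} h =>
    Nat.pow_le_pow_right (by norm_num) (by omega)
  have hbig : ∃ n, 4 * σ ≤ U n := by
    refine ⟨4 * σ, ?_⟩
    have h1 : 4 * σ < 2 ^ (4 * σ) := Nat.lt_two_pow_self
    exact h1.le.trans (Nat.pow_le_pow_right (by norm_num) (by omega))
  obtain ⟨n, hn1, hn2⟩ : ∃ n, (∀ i < n, U i < 4 * σ) ∧ ∀ i, U i < 4 * σ → i < n := by
    refine ⟨Nat.find hbig, fun i hi => not_le.1 (Nat.find_min hbig hi), fun i hi => ?_⟩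
    by_contra h
    have h1 := Nat.find_spec hbig
    have h2 := hmono (not_lt.1 h)
    omega
  obtain ⟨S, hS⟩ : ∃ S : ℕ → Finset ℕ, ∀ i s, s ∈ S i ↔ s ∈ Ev i ∧ s < 4 * σ :=
    ⟨fun i => (Finset.range (4 * σ)).filter fun s => s ∈ Ev i, fun i s => by
      rw [Finset.mem_filter, Finset.mem_range, and_comm]⟩
  obtain ⟨B, hB⟩ : ∃ B : Finset ℕ, B = (Finset.range n).biUnion fun i =>
    (S i).biUnion fun s => Finset.Ioc (s - D i) (s + D i) := ⟨_, rfl⟩
  have hc : B.card < σ := by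
    refine lt_of_le_of_lt ?_ (bad_lt hσ hn1)
    rw [hB]
    refine Finset.card_biUnion_le.trans (Finset.sum_le_sum fun i _ => ?_)
    have h1 : ((S i).biUnion fun s => Finset.Ioc (s - D i) (s + D i)).card ≤
        (S i).card * (2 * D i) := by
      refine Finset.card_biUnion_le_card_mul _ _ _ fun s _ => ?_
      rw [Nat.card_Ioc]
      omega
    have h2 := window_card (σ := σ) (hE i) (S i) fun s hs => (hS i s).1 hs
    refine h1.trans ((Nat.mul_le_mul_right _ h2).trans ?_)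
    have h3 : 2 * i * (2 * D i) ≤ K i := by
      unfold D K
      nlinarith
    calc 2 * i * (4 * σ / (E i + 1) + 1) * (2 * D i)
        = 2 * i * (2 * D i) * (4 * σ / (E i + 1) + 1) := by ring
      _ ≤ K i * (4 * σ / (E i + 1) + 1) := Nat.mul_le_mul_right _ h3
  have hc2 : B.card < (Finset.Ioc σ (2 * σ)).card := by
    rw [Nat.card_Ioc]
    omega
  obtain ⟨σ', h1, h2⟩ := Finset.exists_mem_notMem_of_card_lt_card hc2
  rw [Finset.mem_Ioc] at h1
  refine ⟨σ', h1.1, h1.2, fun i s hs hs4 => ?_⟩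
  by_contra hcon
  rw [not_or, not_le, not_lt] at hcon
  apply h2
  rw [hB]
  refine Finset.mem_biUnion.2 ⟨i, Finset.mem_range.2 (hn2 i ?_), Finset.mem_biUnion.2
    ⟨s, (hS i s).2 ⟨hs, hs4⟩, Finset.mem_Ioc.2 ⟨?_, hcon.2⟩⟩⟩
  · exact lt_of_le_of_lt (hU i s hs) hs4
  · omega

end Pool.Agent.Helper21.AX
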