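import Pool.Agent.Helper21.AX.Defs

/-!
Project AX (MP_4a5e7e_lc): switching codes on.
-/

namespace Pool.Agent.Helper21.AX

open Pool.Agent.Helper5.SX

/-- A string of length `2 ^ l` outside of a small set of pairs. Proof: the strings of length `2 ^ l` are
`2 ^ 2 ^ l` many (`card_len` in `Pool.Agent.Helper5.SX.Stage`, or `Fintype.card (List.Vector Bool n)`); the
map `w ↦ (h, w)` is injective. -/
theorem exists_fresh (h : Str) (l : ℕ) (F : Finset (Str × Str)) (hF : F.card < 2 ^ 2 ^ l) :
    ∃ w : Str, w.length = 2 ^ l ∧ (h, w) ∉ F := by
  by_contra hc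
  push Not at hc
  let f : List.Vector Bool (2 ^ l) → {x : Str × Str // x ∈ F} := fun v =>
    ⟨(h, v.1), hc v.1 v.2⟩
  have hf : Function.Injective f := by
    intro v v' hv
    have h1 : (h, v.1) = (h, v'.1) := congrArg Subtype.val hv
    have h2 : v.1 = v'.1 := (Prod.ext_iff.1 h1).2
    exact Subtype.ext h2
  have h3 := Fintype.card_le_of_injective f hf
  have h4 : Fintype.card (List.Vector Bool (2 ^ l)) = 2 ^ 2 ^ l := by
    simp
  have h5 : Fintype.card {x : Str × Str // x ∈ F} = F.card := by
    simp
  omega

/-- The greedy lemma.

Proof. Claim: for each `n ≤ S.card` either the conclusion holds or there are `Y ⊆ S` with `Y.card = n`, a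
configuration `W'` and a finite set `F` of pairs with `F.card ≤ n * B` such that: `W' x = W x` for `x` not
of the form `h p`, `p ∈ Y`; for `p ∈ Y` there is `w` with `w.length = 2 ^ (h p).length` and
`W' (h p) = some w`; and for `p ∈ Y` each configuration `W''` that agrees with `W'` on `F` satisfies
`P p W''`. Induction on `n`. For `n = 0` take `Y = ∅`, `W' = W`, `F = ∅`. Step: if no `p ∈ S \ Y` satisfies
`P p W'` then `W'` is as required (for `p ∈ S \ Y` we have `W' (h p) = W (h p) = none` by `hinj`).
Otherwise take such a `p`, the set `F₁` of `hP`, `F' = F ∪ F₁`, a fresh `w` for `h p` and `F'`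
(`exists_fresh`, `(n + 1) * B ≤ S.card * B`), and `W'' = Function.update W' (h p) (some w)`. It agrees with
`W'` on `F'`: for pairs `(h p, w')` in `F'` both sides are false because `W' (h p) = none` and `w' ≠ w`.
At `n = S.card` we have `Y = S` and the conclusion holds as well. -/
theorem greedy {ι : Type} [DecidableEq ι] (S : Finset ι) (h : ι → Str)
    (hinj : ∀ p ∈ S, ∀ p' ∈ S, h p = h p' → p = p') (P : ι → Cfg → Prop) (B : ℕ)
    (hP : ∀ p ∈ S, ∀ W : Cfg, P p W → ∃ F : Finset (Str × Str), F.card ≤ B ∧
      ∀ W' : Cfg, (∀ x ∈ F, (W' x.1 = some x.2 ↔ W x.1 = some x.2)) → P p W')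
    (hB : ∀ p ∈ S, S.card * B < 2 ^ 2 ^ (h p).length) (W : Cfg)
    (hW : ∀ p ∈ S, W (h p) = none) :
    ∃ W' : Cfg, (∀ x, (∀ p ∈ S, h p ≠ x) → W' x = W x) ∧
      (∀ p ∈ S, ∀ w, W' (h p) = some w → w.length = 2 ^ (h p).length) ∧
      ∀ p ∈ S, ((∃ w, W' (h p) = some w) ↔ P p W') := by
  classical
  have key : ∀ n : ℕ, n ≤ S.card →
      (∃ W' : Cfg, (∀ x, (∀ p ∈ S, h p ≠ x) → W' x = W x) ∧
        (∀ p ∈ S, ∀ w, W' (h p) = some w → w.length = 2 ^ (h p).length) ∧
        ∀ p ∈ S, ((∃ w, W' (h p) = some w) ↔ P p W')) ∨
      ∃ (Y : Finset ι) (W' : Cfg) (F : Finset (Str × Str)), Y ⊆ S ∧ Y.card = n ∧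
        F.card ≤ n * B ∧ (∀ x, (∀ p ∈ Y, h p ≠ x) → W' x = W x) ∧
        (∀ p ∈ Y, ∃ w : Str, w.length = 2 ^ (h p).length ∧ W' (h p) = some w) ∧
        ∀ p ∈ Y, ∀ W'' : Cfg, (∀ x ∈ F, (W'' x.1 = some x.2 ↔ W' x.1 = some x.2)) → P p W'' := by
    intro n
    induction n with
    | zero =>
      intro _
      right
      refine ⟨∅, W, ∅, Finset.empty_subset _, Finset.card_empty, by simp, fun x _ => rfl, ?_, ?_⟩
      · intro p hp
        exact absurd hp (Finset.notMem_empty p)
      · intro p hp
        exact absurd hp (Finset.notMem_empty p)
    | succ n ih =>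
      intro hn
      rcases ih (by omega) with hdone | ⟨Y, W', F, hYS, hYn, hF, hW', hYw, hYP⟩
      · exact Or.inl hdone
      · by_cases hex : ∃ p ∈ S, p ∉ Y ∧ P p W'
        · right
          obtain ⟨p, hpS, hpY, hpP⟩ := hex
          obtain ⟨F₁, hF₁, hF₁P⟩ := hP p hpS W' hpP
          have hcard : (F ∪ F₁).card ≤ (n + 1) * B := by
            have := Finset.card_union_le F F₁
            nlinarith
          have hlt : (F ∪ F₁).card < 2 ^ 2 ^ (h p).length := by
            have h1 := hB p hpS
            have h2 : (n + 1) * B ≤ S.card * B := Nat.mul_le_mul_right B hn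
            omega
          obtain ⟨w, hwl, hwF⟩ := exists_fresh (h p) (h p).length (F ∪ F₁) hlt
          have hnone : W' (h p) = none := by
            rw [hW' (h p) (fun p' hp' hpp => hpY
              (hinj p' (hYS hp') p hpS hpp ▸ hp'))]
            exact hW p hpS
          have hagree : ∀ x ∈ F ∪ F₁, (Function.update W' (h p) (some w) x.1 = some x.2 ↔
              W' x.1 = some x.2) := by
            intro x hx
            by_cases hx1 : x.1 = h p
            · rw [hx1, Function.update_self, hnone]
              constructor
              · intro hw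
                exfalso
                apply hwF
                have hw2 : w = x.2 := Option.some.inj hw
                have hxe : (h p, w) = x := Prod.ext hx1.symm hw2
                rw [hxe]
                exact hx
              · intro hw
                cases hw
            · rw [Function.update_of_ne hx1]
          refine ⟨insert p Y, Function.update W' (h p) (some w), F ∪ F₁, ?_, ?_, hcard, ?_, ?_, ?_⟩
          · exact Finset.insert_subset hpS hYS
          · rw [Finset.card_insert_of_notMem hpY, hYn]
          · intro x hx
            have hxp : x ≠ h p := fun hxp => hx p (Finset.mem_insert_self p Y) hxp.symm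
            rw [Function.update_of_ne hxp]
            exact hW' x (fun p' hp' => hx p' (Finset.mem_insert_of_mem hp'))
          · intro p' hp'
            rcases Finset.mem_insert.1 hp' with rfl | hp'Y
            · exact ⟨w, hwl, Function.update_self _ _ _⟩
            · obtain ⟨w', hw'l, hw'⟩ := hYw p' hp'Y
              have hne : h p' ≠ h p := fun hpp => hpY
                (hinj p' (hYS hp'Y) p hpS hpp ▸ hp'Y)
              exact ⟨w', hw'l, by rw [Function.update_of_ne hne]; exact hw'⟩
          · intro p' hp' W'' hW''
            rcases Finset.mem_insert.1 hp' with rfl | hp'Y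
            · apply hF₁P W''
              intro x hx
              have hx' : x ∈ F ∪ F₁ := Finset.mem_union_right _ hx
              exact (hW'' x hx').trans (hagree x hx')
            · apply hYP p' hp'Y W''
              intro x hx
              have hx' : x ∈ F ∪ F₁ := Finset.mem_union_left _ hx
              exact (hW'' x hx').trans (hagree x hx')
        · left
          push Not at hex
          have hno : ∀ p ∈ S, p ∉ Y → W' (h p) = none := by
            intro p hpS hpY
            rw [hW' (h p) (fun p' hp' hpp => hpY
              (hinj p' (hYS hp') p hpS hpp ▸ hp'))]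
            exact hW p hpS
          refine ⟨W', ?_, ?_, ?_⟩
          · intro x hx
            exact hW' x (fun p hp => hx p (hYS hp))
          · intro p hpS w hw
            by_cases hpY : p ∈ Y
            · obtain ⟨w', hw'l, hw'⟩ := hYw p hpY
              rw [hw'] at hw
              have hww : w' = w := Option.some.inj hw
              rw [← hww]
              exact hw'l
            · rw [hno p hpS hpY] at hw
              cases hw
          · intro p hpS
            by_cases hpY : p ∈ Y
            · constructor
              · intro _
                exact hYP p hpY W' (fun x _ => Iff.rfl)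
              · intro _
                obtain ⟨w', _, hw'⟩ := hYw p hpY
                exact ⟨w', hw'⟩
            · constructor
              · rintro ⟨w, hw⟩
                rw [hno p hpS hpY] at hw
                cases hw
              · intro hPp
                exact absurd hPp (hex p hpS hpY)
  rcases key S.card le_rfl with hdone | ⟨Y, W', F, hYS, hYn, _, hW', hYw, hYP⟩
  · exact hdone
  · have hYe : Y = S := Finset.eq_of_subset_of_card_le hYS (by omega)
    subst hYe
    refine ⟨W', hW', ?_, ?_⟩
    · intro p hp w hw
      obtain ⟨w', hw'l, hw'⟩ := hYw p hp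
      rw [hw'] at hw
      have hww : w' = w := Option.some.inj hw
      rw [← hww]
      exact hw'l
    · intro p hp
      constructor
      · intro _
        exact hYP p hp W' (fun x _ => Iff.rfl)
      · intro _
        obtain ⟨w', _, hw'⟩ := hYw p hp
        exact ⟨w', hw'⟩

end Pool.Agent.Helper21.AX
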