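import Pool.Agent.Helper21.AX.N1b

/-!
Project AX (MP_4a5e7e_lc): numerics for the blocks.
-/

namespace Pool.Agent.Helper21.AX

/-- Proof: `s + D i + E i ≤ 2 s` (`DE_le_U`), `i + 2 ≤ m (2 s)`, `V i (2 s) ≤ 4 (2 m (2 s)) ^ (i + 1)
≤ m (2 s) ^ (2 i + 4) ≤ m (2 s) ^ (2 ^ s) = m (3 s)`. -/
theorem V_le_m {i s : ℕ} (hs : U i ≤ s) : V i (s + D i + E i) ≤ m (3 * s) := by
  have h1 := DE_le_U i
  have h2 := lt_U i
  have h3 : s + D i + E i ≤ 2 * s := by omega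
  refine (V_mono i h3).trans ?_
  have h4 := add_two_le_m (2 * s)
  have h5 : m (3 * s) = m (2 * s) ^ 2 ^ s := by
    rw [← m_add]
    congr 1
    ring
  rw [h5]
  unfold V
  have h6 := two_le_m (2 * s)
  generalize m (2 * s) = μ at *
  have h7 : s < 2 ^ s := Nat.lt_two_pow_self
  calc 4 * (μ + i + 2) ^ (i + 1) ≤ 4 * (μ * μ) ^ (i + 1) := by
        have : μ + i + 2 ≤ μ * μ := by nlinarith
        gcongr
    _ ≤ (μ * μ) * (μ * μ) ^ (i + 1) := by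
        have : 4 ≤ μ * μ := by nlinarith
        gcongr
    _ = μ ^ (2 * i + 4) := by
        rw [← pow_succ', ← pow_two, ← pow_mul]
        ring_nf
    _ ≤ μ ^ 2 ^ s := Nat.pow_le_pow_right (by omega) (by omega)

theorem N3a_two_pow {σ : ℕ} (hσ : 8 ≤ σ) : 24 * σ < 2 ^ σ := by
  induction σ, hσ using Nat.le_induction with
  | base => norm_num
  | succ n hn ih =>
    have h1 : 2 ^ (n + 1) = 2 * 2 ^ n := by ring
    omega

/-- Proof: `m (24 σ) = 2 ^ 2 ^ (24 σ) < 2 ^ 2 ^ 2 ^ σ` since `24 σ < 2 ^ σ` for `σ ≥ 8`. -/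
theorem view_lt {i s σ : ℕ} (hσ : 8 ≤ σ) (hs : U i ≤ s) (hs' : s < 8 * σ) :
    V i (s + D i + E i) < 2 ^ m σ := by
  refine (V_le_m hs).trans_lt ?_
  have h1 : m (3 * s) ≤ m (24 * σ) := m_mono (by omega)
  refine h1.trans_lt ?_
  have h2 := N3a_two_pow hσ
  unfold m
  exact Nat.pow_lt_pow_right (by norm_num) (Nat.pow_lt_pow_right (by norm_num) h2)

/-- What the acceptance of a string below a clean cut depends on. Proof: with `μ = m (lev n) ≥ n`: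
`n + 2 ^ (n ^ c + c) < 2 ^ (n + n ^ c + c + 1)`, and `μ + μ ^ i + i + 1 ≤ μ ^ (2 ^ (i + 4)) =
m (lev n + D i) ≤ m σ`. -/
theorem acc_lt {i c n σ : ℕ} (hc : c ≤ i) (h : lev n + D i < σ) :
    n + 2 ^ (n ^ c + c) < 2 ^ m σ := by
  have h1 : m (lev n) ^ 2 ^ (i + 4) ≤ m σ := by
    rw [← m_add]
    unfold D at h
    exact m_mono (by omega)
  have h2 := le_m_lev n
  have h3 := two_le_m (lev n)
  generalize m (lev n) = μ at *
  have h4 : n ^ c ≤ μ ^ i := (Nat.pow_le_pow_left h2 c).trans (Nat.pow_le_pow_right (by omega) hc)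
  have h5 : μ ^ i ≤ μ ^ (i + 1) := Nat.pow_le_pow_right (by omega) (by omega)
  have h6 : μ ≤ μ ^ (i + 1) := Nat.le_self_pow (by omega) μ
  have h7 : i + 1 < μ ^ (i + 1) :=
    (Nat.lt_two_pow_self).trans_le (Nat.pow_le_pow_left h3 (i + 1))
  have h8 : 4 * μ ^ (i + 1) ≤ μ ^ (i + 3) := by
    have : μ ^ (i + 3) = μ * μ * μ ^ (i + 1) := by ring
    rw [this]
    have : 4 ≤ μ * μ := by nlinarith
    gcongr
  have h9 : i + 4 < 2 ^ (i + 4) := Nat.lt_two_pow_self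
  have h10 : μ ^ (i + 3) ≤ μ ^ 2 ^ (i + 4) := Nat.pow_le_pow_right (by omega) (by omega)
  have h11 : n + n ^ c + c + 1 ≤ m σ := by omega
  have h12 : n < 2 ^ n := Nat.lt_two_pow_self
  have h13 : 2 ^ n ≤ 2 ^ (n + n ^ c + c) := Nat.pow_le_pow_right (by norm_num) (by omega)
  have h14 : 2 ^ (n ^ c + c) ≤ 2 ^ (n + n ^ c + c) := Nat.pow_le_pow_right (by norm_num) (by omega)
  have h15 : 2 ^ (n + n ^ c + c + 1) = 2 * 2 ^ (n + n ^ c + c) := by ring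
  have h16 : 2 ^ (n + n ^ c + c + 1) ≤ 2 ^ m σ := Nat.pow_le_pow_right (by norm_num) h11
  omega

end Pool.Agent.Helper21.AX
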