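import Pool.Agent.Helper21.AX.N1b

/-!
Project AX (MP_4a5e7e_lc): numerics for the greedy step.
-/

namespace Pool.Agent.Helper21.AX

private theorem N3b_two (x : ℕ) : x < 2 ^ x := Nat.lt_two_pow_self

/-- Proof: `n ^ c + c ≤ 2 ^ (2 σ 2 ^ (2 σ)) + 2 σ` and `m (5 σ) = 2 ^ 2 ^ (5 σ)`;
`2 ^ (n ^ c + c) (n + 2 ^ (n ^ c + c)) ≤ 2 ^ (2 (n ^ c + c) + n + 1)`. -/
theorem use_le {c n σ : ℕ} (hσ : 8 ≤ σ) (hc : c ≤ 2 * σ) (hn : n ≤ m (2 * σ)) :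
    2 ^ (n ^ c + c) * (n + 2 ^ (n ^ c + c)) ≤ 2 ^ m (5 * σ) := by
  have h1 : n + 2 ^ (n ^ c + c) ≤ 2 ^ (n ^ c + c) * 2 ^ n := by
    have h2 : n + 1 ≤ 2 ^ n := N3b_two n
    have h3 : 1 ≤ 2 ^ (n ^ c + c) := Nat.one_le_two_pow
    calc n + 2 ^ (n ^ c + c) ≤ 2 ^ (n ^ c + c) * n + 2 ^ (n ^ c + c) := by nlinarith
      _ = 2 ^ (n ^ c + c) * (n + 1) := by ring
      _ ≤ _ := Nat.mul_le_mul_left _ h2
  have h4 : n ^ c ≤ 2 ^ (2 * σ * 2 ^ (2 * σ)) := by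
    have h5 : 1 ≤ m (2 * σ) := Nat.one_le_two_pow
    calc n ^ c ≤ (m (2 * σ)) ^ c := Nat.pow_le_pow_left hn c
      _ ≤ (m (2 * σ)) ^ (2 * σ) := Nat.pow_le_pow_right h5 hc
      _ = 2 ^ (2 * σ * 2 ^ (2 * σ)) := by rw [m, ← pow_mul, mul_comm]
  have h6 : 2 * σ < 2 ^ (2 * σ) := N3b_two _
  have h7 : 2 * σ * 2 ^ (2 * σ) ≤ 2 ^ (4 * σ) := by
    calc 2 * σ * 2 ^ (2 * σ) ≤ 2 ^ (2 * σ) * 2 ^ (2 * σ) := Nat.mul_le_mul_right _ h6.le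
      _ = 2 ^ (4 * σ) := by rw [← pow_add]; ring_nf
  have h8 : 2 ^ (4 * σ) + 2 ≤ 2 ^ (5 * σ) := by
    have h9 : 2 ^ (4 * σ + 1) ≤ 2 ^ (5 * σ) := Nat.pow_le_pow_right (by norm_num) (by omega)
    have h10 : 2 ≤ 2 ^ (4 * σ) := by
      calc 2 = 2 ^ 1 := rfl
        _ ≤ _ := Nat.pow_le_pow_right (by norm_num) (by omega)
    rw [pow_succ] at h9
    omega
  have h11 : 2 ^ (2 * σ * 2 ^ (2 * σ) + 2) ≤ m (5 * σ) := by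
    rw [m]
    exact Nat.pow_le_pow_right (by norm_num) (by omega)
  have h12 : n ≤ 2 ^ (2 * σ * 2 ^ (2 * σ)) := by
    refine hn.trans ?_
    rw [m]
    apply Nat.pow_le_pow_right (by norm_num)
    exact Nat.le_mul_of_pos_left _ (by omega)
  have h13 : 4 * σ ≤ 2 ^ (2 * σ * 2 ^ (2 * σ)) := by
    have h14 : 2 * σ * 2 ≤ 2 * σ * 2 ^ (2 * σ) := by
      apply Nat.mul_le_mul_left
      calc 2 = 2 ^ 1 := rfl
        _ ≤ _ := Nat.pow_le_pow_right (by norm_num) (by omega)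
    have h15 := N3b_two (2 * σ * 2 ^ (2 * σ))
    omega
  rw [pow_succ, pow_succ] at h11
  calc 2 ^ (n ^ c + c) * (n + 2 ^ (n ^ c + c))
      ≤ 2 ^ (n ^ c + c) * (2 ^ (n ^ c + c) * 2 ^ n) := Nat.mul_le_mul_left _ h1
    _ = 2 ^ (n ^ c + c + (n ^ c + c) + n) := by
        rw [pow_add 2 (n ^ c + c + (n ^ c + c)) n, pow_add 2 (n ^ c + c) (n ^ c + c), mul_assoc]
    _ ≤ _ := Nat.pow_le_pow_right (by norm_num) (by omega)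

/-- Proof: `2 σ ≤ 2 ^ (2 σ)`, `m (2 σ) + 1 + 2 σ ≤ m (5 σ)`. -/
theorem events_le {σ : ℕ} (hσ : 8 ≤ σ) : 2 * σ * 2 ^ (m (2 * σ) + 1) ≤ 2 ^ m (5 * σ) := by
  have h6 : 2 * σ < 2 ^ (2 * σ) := N3b_two _
  have h7 : 2 ^ (2 * σ) < m (2 * σ) := N3b_two _
  have h8 : m (2 * σ) * 2 ≤ m (5 * σ) := by
    rw [m, m, ← pow_succ]
    apply Nat.pow_le_pow_right (by norm_num)
    have : 2 ^ (2 * σ) < 2 ^ (5 * σ) := Nat.pow_lt_pow_right (by norm_num) (by omega)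
    omega
  calc 2 * σ * 2 ^ (m (2 * σ) + 1) ≤ 2 ^ (2 * σ) * 2 ^ (m (2 * σ) + 1) :=
        Nat.mul_le_mul_right _ h6.le
    _ = 2 ^ (2 * σ + (m (2 * σ) + 1)) := by rw [← pow_add]
    _ ≤ _ := Nat.pow_le_pow_right (by norm_num) (by omega)

/-- Proof: `2 m (5 σ) = 2 ^ (2 ^ (5 σ) + 1) < 2 ^ 2 ^ 2 ^ σ = 2 ^ m σ`. -/
theorem greedy_lt {σ lam : ℕ} (hσ : 8 ≤ σ) (hl : m σ ≤ lam) :
    2 ^ m (5 * σ) * 2 ^ m (5 * σ) < 2 ^ 2 ^ lam := by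
  have h1 : 5 * σ + 1 < 2 ^ σ := by
    obtain ⟨t, rfl⟩ := Nat.exists_eq_add_of_le hσ
    have h2 : t + 1 ≤ 2 ^ t := N3b_two t
    rw [pow_add]
    have : 5 * (8 + t) + 1 < 256 * (t + 1) := by omega
    calc 5 * (8 + t) + 1 < 256 * (t + 1) := this
      _ ≤ 256 * 2 ^ t := Nat.mul_le_mul_left _ h2
      _ = 2 ^ 8 * 2 ^ t := by norm_num
  have h3 : 2 ^ (5 * σ) + 1 < 2 ^ 2 ^ σ := by
    have h4 : 2 ^ (5 * σ + 1) ≤ 2 ^ 2 ^ σ := Nat.pow_le_pow_right (by norm_num) h1.le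
    have h5 : 2 ≤ 2 ^ (5 * σ) := by
      calc 2 = 2 ^ 1 := rfl
        _ ≤ _ := Nat.pow_le_pow_right (by norm_num) (by omega)
    rw [pow_succ] at h4
    omega
  rw [← pow_add, ← two_mul]
  apply Nat.pow_lt_pow_right (by norm_num)
  have h6 : 2 ^ m σ ≤ 2 ^ lam := Nat.pow_le_pow_right (by norm_num) hl
  refine lt_of_lt_of_le ?_ h6
  have h7 : 2 * m (5 * σ) = 2 ^ (2 ^ (5 * σ) + 1) := by
    rw [m, pow_succ, mul_comm]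
  rw [h7, show m σ = 2 ^ 2 ^ σ from rfl]
  exact Nat.pow_lt_pow_right (by norm_num) h3

end Pool.Agent.Helper21.AX
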