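import Pool.Agent.Helper21.AX.B1c
import Pool.Agent.Helper21.AX.N3a
import Pool.Agent.Helper21.AX.N3b

/-!
Project AX (MP_4a5e7e_lc): what acceptance and special strings depend on.
-/

namespace Pool.Agent.Helper21.AX

open Pool.Agent.Helper5.SX

variable {τ : ℕ → Task}

/-- Proof: `acc_use` (in `Pool.Agent.Helper5.SX.Use`) gives a set `Q` of at most `T` strings of length at
most `y.length + T`; take the union of the sets of `cfg_use`. -/
theorem acc_cfg (hτ : Small τ) {i : ℕ} {y : Str} {W : Cfg} (h : AccT τ i (OO τ W) y) :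
    ∃ F : Finset (Str × Str), F.card ≤ T τ i y.length * (y.length + T τ i y.length) ∧
      ∀ W' : Cfg, (∀ x ∈ F, (W' x.1 = some x.2 ↔ W x.1 = some x.2)) → AccT τ i (OO τ W') y := by
  classical
  obtain ⟨Q, hQ, hl, hO⟩ := acc_use h
  choose F h1 _ h3 using fun q : Str => cfg_use hτ W q
  refine ⟨Q.biUnion F, ?_, fun W' hW' => ?_⟩
  · refine Finset.card_biUnion_le.trans ?_
    calc ∑ q ∈ Q, (F q).card ≤ ∑ q ∈ Q, (y.length + T τ i y.length) := by
          refine Finset.sum_le_sum fun q hq => (h1 q).trans ?_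
          have := hl q hq
          simpa using this
      _ = Q.card * (y.length + T τ i y.length) := by rw [Finset.sum_const, smul_eq_mul]
      _ ≤ T τ i y.length * (y.length + T τ i y.length) := Nat.mul_le_mul_right _ hQ
  · refine hO _ fun q hq => h3 q W' fun p hp => hW' p ?_
    exact Finset.mem_biUnion.2 ⟨q, hq, hp⟩

/-- Proof: `acc_use` in both directions. -/
theorem acc_agree {i : ℕ} {y : Str} {O O' : Set Str}
    (h : ∀ q : Str, q.length ≤ y.length + T τ i y.length → (q ∈ O' ↔ q ∈ O)) :
    AccT τ i O' y ↔ AccT τ i O y := by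
  constructor
  · intro hy
    obtain ⟨Q, _, hl, hO⟩ := acc_use hy
    refine hO _ fun q hq => (h q ?_).symm
    have := hl q hq
    simpa using this
  · intro hy
    obtain ⟨Q, _, hl, hO⟩ := acc_use hy
    refine hO _ fun q hq => h q ?_
    have := hl q hq
    simpa using this

/-- Proof: `loc_qa` for all the test instances and reference instances of `y` (levels at most
`lev y.length + D i + E i`, `V_mono`), and `zst_congr`. -/
theorem zst_agree (hτ : Small τ) {X : ℕ → ℕ → PR} (hX : Len X) {i : ℕ} {y : Str} {O O' : Set Str}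
    (h : ∀ q : Str, q.length ≤ V i (lev y.length + D i + E i) → (q ∈ O' ↔ q ∈ O)) :
    zst τ X i O' y = zst τ X i O y ∧ hh τ X i O' y = hh τ X i O y ∧
      (Special τ X i O' y ↔ Special τ X i O y) := by
  have key : ∀ t, t ≤ lev y.length + D i + E i → ∀ v : Str, v.length = m t → ∀ j,
      qa τ i O' (zz i v) j = qa τ i O (zz i v) j := by
    intro t ht v hv j
    obtain ⟨Q, _, hl, hO⟩ := loc_qa hτ (i := i) hv O
    exact congrFun (hO O' fun q hq => h q ((hl q hq).trans (V_mono i ht))) j
  refine zst_congr ?_ ?_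
  · intro t l ht _ j
    exact key t ht.2 _ ((hX i t).1 y l) j
  · intro l _ j
    exact key _ (Nat.le_add_right _ _) _ ((hX i _).2 l) j

end Pool.Agent.Helper21.AX
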