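import Pool.Agent.Helper21.AX.B4a

/-!
Project AX (MP_4a5e7e_lc): extensions of configurations.
-/

namespace Pool.Agent.Helper21.AX

open Pool.Agent.Helper5.SX

variable {τ : ℕ → Task}

/-- The configuration `W'` extends `W` by codes beyond `σ`. -/
def Ext (σ : ℕ) (W W' : Cfg) : Prop := ∀ h, W' h = W h ∨ (W h = none ∧
  ∃ (i s e : ℕ) (w : Str), h = hs i (m (s - D i)) e ∧ U i ≤ s ∧ σ + D i ≤ s ∧
    W' h = some w ∧ w.length = 2 ^ h.length)

/-- Proof: `OO_agree`; a new code has `w.length = 2 ^ h.length`, `h.length = m (s - D i) ≥ m σ`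
(`hs_length`, `short_len`). -/
theorem ext_agree (hτ : Small τ) {σ : ℕ} {W W' : Cfg} (h : Ext σ W W') (q : Str)
    (hq : q.length < 2 ^ m σ) : q ∈ OO τ W' ↔ q ∈ OO τ W := by
  refine OO_agree hτ (V := q.length) (fun x w hw hwq => ?_) q le_rfl
  rcases h x with h1 | ⟨-, i, s, e, w', hx, hU, hs, -, -⟩
  · rw [h1]
  · exfalso
    have h2 : x.length = m (s - D i) := by
      rw [hx]
      exact hs_length _ (short_len hU)
    have h3 : m σ ≤ x.length := by
      rw [h2]
      exact m_mono (by omega)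
    have h4 : 2 ^ m σ ≤ 2 ^ x.length := Nat.pow_le_pow_right (by norm_num) h3
    omega

/-- Proof: `zst_agree`, `ext_agree`, `view_lt`. -/
theorem ext_special (hτ : Small τ) {σ : ℕ} (hσ : 8 ≤ σ) {W W' : Cfg} (h : Ext σ W W') {i : ℕ}
    {y : Str} (hy : Act i y) (hs : lev y.length < 8 * σ) :
    hh τ (xx τ) i (OO τ W') y = hh τ (xx τ) i (OO τ W) y ∧
      (Special τ (xx τ) i (OO τ W') y ↔ Special τ (xx τ) i (OO τ W) y) := by
  exact (zst_agree hτ (len_XX (OO τ)) fun q hq =>
    ext_agree hτ h q (hq.trans_lt (view_lt hσ hy hs))).2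

/-- Proof: `acc_agree`, `ext_agree`, `acc_lt`. -/
theorem ext_acc (hτ : Small τ) {σ : ℕ} {W W' : Cfg} (h : Ext σ W W') {i : ℕ} {y : Str}
    (hs : lev y.length + D i < σ) : AccT τ i (OO τ W') y ↔ AccT τ i (OO τ W) y := by
  exact acc_agree fun q hq => ext_agree hτ h q (hq.trans_lt (acc_lt (hτ i).1 hs))

/-- The short instance of a string of level less than `σ` is not a new one: by `hs_inj'` and
`m_inj` a new code at this place would have the level of the string. -/
theorem ext_old {σ : ℕ} {W W' : Cfg} (h : Ext σ W W') {i : ℕ} {y : Str} {O : Set Str}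
    (hy : Act i y) (hs : lev y.length < σ) :
    W' (hh τ (xx τ) i O y) = W (hh τ (xx τ) i O y) := by
  rcases h (hh τ (xx τ) i O y) with h1 | ⟨-, i', s, e, w', hx, hU, hs', -, -⟩
  · exact h1
  · exfalso
    unfold hh at hx
    obtain ⟨h2, h3⟩ := hs_inj' (short_len hy) (short_len hU) hx
    subst h2
    have h4 := m_inj h3
    omega

end Pool.Agent.Helper21.AX
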