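import Pool.Agent.Helper21.AX.B2c
import Pool.Agent.Helper21.AX.B3
import Pool.Agent.Helper21.AX.B4b

/-!
Project AX (MP_4a5e7e_lc): the special strings of a block.
-/

namespace Pool.Agent.Helper21.AX

open Pool.Agent.Helper5.SX

variable {τ : ℕ → Task}

/-- Everything below the clean cut `σ` is settled. -/
structure Inv (τ : ℕ → Task) (σ : ℕ) (W : Cfg) : Prop where
  shape : ∀ h w, W h = some w → w.length = 2 ^ h.length ∧
    ∃ i s e : ℕ, h = hs i (m (s - D i)) e ∧ U i ≤ s ∧ s < σ
  right : ∀ i y, Special τ (xx τ) i (OO τ W) y → lev y.length < σ →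
    ((∃ w, W (hh τ (xx τ) i (OO τ W) y) = some w) ↔ AccT τ i (OO τ W) y)
  clean : ∀ i y, Special τ (xx τ) i (OO τ W) y → σ + D i ≤ lev y.length ∨ lev y.length + D i < σ

private def B5a_f (b : Bool) (a : Str) : Str := b :: a

private theorem B5a_short (l : ℕ) : ∃ S : Finset Str, (∀ a : Str, a.length ≤ l → a ∈ S) ∧
    S.card + 1 ≤ 2 ^ (l + 1) := by
  classical
  induction l with
  | zero =>
    refine ⟨{[]}, fun a ha => ?_, by simp⟩
    rw [List.length_eq_zero_iff.1 (Nat.le_zero.1 ha)]
    exact Finset.mem_singleton_self _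
  | succ l ih =>
    obtain ⟨S, hS, hc⟩ := ih
    refine ⟨insert [] (S.image (B5a_f false) ∪ S.image (B5a_f true)), fun a ha => ?_, ?_⟩
    · rcases a with _ | ⟨b, a⟩
      · exact Finset.mem_insert_self _ _
      · have h1 : a ∈ S := hS a (by simpa using ha)
        refine Finset.mem_insert_of_mem ?_
        cases b with
        | false => exact Finset.mem_union_left _ (Finset.mem_image_of_mem (B5a_f false) h1)
        | true => exact Finset.mem_union_right _ (Finset.mem_image_of_mem (B5a_f true) h1)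
    · have h1 := Finset.card_insert_le ([] : Str) (S.image (B5a_f false) ∪ S.image (B5a_f true))
      have h2 := Finset.card_union_le (S.image (B5a_f false)) (S.image (B5a_f true))
      have h3 : (S.image (B5a_f false)).card ≤ S.card := Finset.card_image_le
      have h4 : (S.image (B5a_f true)).card ≤ S.card := Finset.card_image_le
      rw [pow_succ]
      omega

/-- The finite set of the special strings of a block. Proof: `i < 2 σ` since `i < U i ≤ lev y.length`,
and `y.length ≤ m (2 σ)` (`le_m_lev`, `m_mono`). At most `2 σ * 2 ^ (m (2 σ) + 1)` pairs, `events_le`. -/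
theorem exists_events (W : Cfg) {σ σ' : ℕ} (hσ : 8 ≤ σ) (h : σ' ≤ 2 * σ) :
    ∃ S : Finset (ℕ × Str), S.card ≤ 2 ^ m (5 * σ) ∧ ∀ p : ℕ × Str, p ∈ S ↔
      (Special τ (xx τ) p.1 (OO τ W) p.2 ∧ σ ≤ lev p.2.length ∧ lev p.2.length < σ') := by
  classical
  obtain ⟨S, hS, hc⟩ := B5a_short (m (2 * σ))
  refine ⟨(Finset.range (2 * σ) ×ˢ S).filter (fun p =>
    Special τ (xx τ) p.1 (OO τ W) p.2 ∧ σ ≤ lev p.2.length ∧ lev p.2.length < σ'), ?_, ?_⟩
  · refine (Finset.card_filter_le _ _).trans ?_
    rw [Finset.card_product, Finset.card_range]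
    exact (Nat.mul_le_mul_left _ (by omega)).trans (events_le hσ)
  · rintro ⟨i, y⟩
    rw [Finset.mem_filter, Finset.mem_product, Finset.mem_range]
    constructor
    · exact fun h => h.2
    · rintro ⟨h1, h2, h3⟩
      have h4 : U i ≤ lev y.length := h1.1
      have h5 := lt_U i
      simp only at h2 h3
      refine ⟨⟨by simp only; omega, hS y ?_⟩, h1, h2, h3⟩
      exact (le_m_lev y.length).trans (m_mono (by omega))

end Pool.Agent.Helper21.AX
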