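import Pool.Agent.Helper21.AX.B5a

/-!
Project AX (MP_4a5e7e_lc): one block.
-/

namespace Pool.Agent.Helper21.AX

open Pool.Agent.Helper5.SX

variable {τ : ℕ → Task}

/-- One block.

Proof. Let `O = OO τ W` and `Ev i` the set of the levels of the strings special for `i` and `O`.
`special_card` (choose for each level of a finite set one special string of this level:
`Finset.card_image_of_injOn`) and `exists_cut` give `σ'`. Let `S` be the set of `exists_events`. For
`(i, y) ∈ S` we have `σ + D i ≤ lev y.length` by `hI.clean`, so the short instance `h (i, y) =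
hh τ (xx τ) i O y` has length `m (lev y.length - D i) ≥ m σ` (`hh_length`), and `W (h (i, y)) = none` by
`hI.shape` (`hs_inj'`, `m_inj`: the level `s < σ` would be `lev y.length`). Apply `greedy` to `S`, `h` (injective
on `S` by `hh_inj`), `P (i, y) W' = AccT τ i (OO τ W') y`, `B = 2 ^ m (5 σ)` (`acc_cfg`, `use_le`; `c ≤ i <
2 σ`), `greedy_lt`. It gives `W'` with `Ext σ W W'`: a changed value is at some `h p`, `p ∈ S`.
`Inv τ σ' W'`: `shape` old codes have `s < σ < σ'`, new codes have `s = lev y.length < σ'`. `right`: let `y` be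
special for `i` and `OO τ W'`, `lev y.length < σ'`; by `ext_special` it is special for `O` and the short
instance is the same. If `σ ≤ lev y.length` then `(i, y) ∈ S` and the greedy lemma gives the claim. Otherwise
`ext_old`, `hI.right`, and `ext_acc` (`hI.clean`: `lev y.length + D i < σ`). `clean`: let `y` be special for
`i` and `OO τ W'`. If `lev y.length < 4 σ` then it is special for `O` (`ext_special`) and the cut lemma
applies. Otherwise `σ' + D i ≤ 2 σ + D i ≤ lev y.length` since `2 D i ≤ U i ≤ lev y.length`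
(`DE_le_U`). -/
theorem block (hτ : Small τ) {σ : ℕ} (hσ : 8 ≤ σ) {W : Cfg} (hI : Inv τ σ W) :
    ∃ (σ' : ℕ) (W' : Cfg), σ < σ' ∧ Ext σ W W' ∧ Inv τ σ' W' := by
  classical
  -- the clean cut
  obtain ⟨σ', h1, h2, hcut⟩ := exists_cut
    (fun i => {s | ∃ y, Special τ (xx τ) i (OO τ W) y ∧ lev y.length = s}) hσ
    (by
      rintro i s ⟨y, hy, rfl⟩
      exact hy.1)
    (by
      intro i a S hS
      choose! g hg using fun s (hs : s ∈ S) => (hS s hs).1
      have hcard : (S.image g).card = S.card := by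
        refine Finset.card_image_of_injOn fun s hs t ht h => ?_
        have e1 := (hg s hs).2
        have e2 := (hg t ht).2
        rw [← e1, ← e2]
        exact congrArg (fun z : Str => lev z.length) h
      rw [← hcard]
      refine special_card hτ (W := W) (a := a) _ fun y hy => ?_
      obtain ⟨s, hs, rfl⟩ := Finset.mem_image.1 hy
      have e1 := (hg s hs).2
      exact ⟨(hg s hs).1, by rw [e1]; exact (hS s hs).2.1, by rw [e1]; exact (hS s hs).2.2⟩)
  obtain ⟨S, hScard, hS⟩ := exists_events (τ := τ) W hσ h2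
  have hsp : ∀ p ∈ S, Special τ (xx τ) p.1 (OO τ W) p.2 := fun p hp => ((hS p).1 hp).1
  have hlo : ∀ p ∈ S, σ + D p.1 ≤ lev p.2.length := fun p hp => by
    have h3 := (hS p).1 hp
    rcases hI.clean p.1 p.2 h3.1 with h | h
    · exact h
    · omega
  have hhi : ∀ p ∈ S, lev p.2.length < σ' := fun p hp => ((hS p).1 hp).2.2
  have hlen : ∀ p ∈ S, m σ ≤ (hh τ (xx τ) p.1 (OO τ W) p.2).length := fun p hp => by
    rw [hh_length (xx τ) (hsp p hp).1]
    have := hlo p hp
    exact m_mono (by omega)
  have hnone : ∀ p ∈ S, W (hh τ (xx τ) p.1 (OO τ W) p.2) = none := fun p hp => by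
    by_contra hn
    obtain ⟨w, hw⟩ := Option.ne_none_iff_exists'.1 hn
    obtain ⟨-, i, s, e, he, hUs, hs⟩ := hI.shape _ _ hw
    unfold hh at he
    obtain ⟨e1, e2⟩ := hs_inj' (short_len (hsp p hp).1) (short_len hUs) he
    have e3 := m_inj e2
    have := hlo p hp
    rw [← e1] at e3
    omega
  obtain ⟨W', hW1, hW2, hW3⟩ := greedy S (fun p => hh τ (xx τ) p.1 (OO τ W) p.2)
    (by
      intro p hp p' hp' h
      obtain ⟨e1, e2⟩ := hh_inj hτ (hsp p hp) (hsp p' hp') h
      exact Prod.ext e1 e2)
    (fun p W' => AccT τ p.1 (OO τ W') p.2) (2 ^ m (5 * σ))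
    (by
      intro p hp W1 hP
      obtain ⟨F, hF, hF'⟩ := acc_cfg hτ hP
      refine ⟨F, hF.trans ?_, hF'⟩
      unfold T
      have hc := (hτ p.1).1
      have hU : U p.1 ≤ lev p.2.length := (hsp p hp).1
      have hi := lt_U p.1
      have hl := hhi p hp
      refine use_le hσ (by omega) ((le_m_lev _).trans (m_mono (by omega))))
    (by
      intro p hp
      exact (Nat.mul_le_mul_right _ hScard).trans_lt (greedy_lt hσ (hlen p hp)))
    W hnone
  have hExt : Ext σ W W' := by
    intro x
    by_cases hx : ∃ p ∈ S, hh τ (xx τ) p.1 (OO τ W) p.2 = x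
    · obtain ⟨p, hp, rfl⟩ := hx
      rcases hw : W' (hh τ (xx τ) p.1 (OO τ W) p.2) with _ | w
      · left
        rw [hnone p hp]
      · right
        exact ⟨hnone p hp, p.1, lev p.2.length, _, w, rfl, (hsp p hp).1, hlo p hp, rfl,
          hW2 p hp w hw⟩
    · left
      exact hW1 x fun p hp h => hx ⟨p, hp, h⟩
  refine ⟨σ', W', h1, hExt, ?_, ?_, ?_⟩
  · -- shape
    intro x w hw
    by_cases hx : ∃ p ∈ S, hh τ (xx τ) p.1 (OO τ W) p.2 = x
    · obtain ⟨p, hp, rfl⟩ := hx
      exact ⟨hW2 p hp w hw, p.1, lev p.2.length, _, rfl, (hsp p hp).1, hhi p hp⟩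
    · rw [hW1 x fun p hp h => hx ⟨p, hp, h⟩] at hw
      obtain ⟨e1, i, s, e, e2, e3, e4⟩ := hI.shape _ _ hw
      exact ⟨e1, i, s, e, e2, e3, by omega⟩
  · -- right
    intro i y hy hl
    obtain ⟨e1, e2⟩ := ext_special hτ hσ hExt hy.1 (by omega)
    have hy' := e2.1 hy
    rw [e1]
    by_cases hs : σ ≤ lev y.length
    · exact hW3 (i, y) ((hS (i, y)).2 ⟨hy', hs, hl⟩)
    · have hcl : lev y.length + D i < σ := by
        rcases hI.clean i y hy' with h | h
        · omega
        · exact h
      rw [ext_old hExt hy.1 (by omega), ext_acc hτ hExt hcl]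
      exact hI.right i y hy' (by omega)
  · -- clean
    intro i y hy
    by_cases hl : lev y.length < 4 * σ
    · obtain ⟨-, e2⟩ := ext_special hτ hσ hExt hy.1 (by omega)
      exact hcut i (lev y.length) ⟨y, e2.1 hy, rfl⟩ hl
    · left
      have h3 := DE_le_U i
      have h4 : U i ≤ lev y.length := hy.1
      omega

end Pool.Agent.Helper21.AX
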