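import Pool.Agent.Helper21.AX.B5a

/-!
Project AX (MP_4a5e7e_lc): the start and transitivity.
-/

namespace Pool.Agent.Helper21.AX

open Pool.Agent.Helper5.SX

variable {τ : ℕ → Task}

/-- Proof: no code is on, and no string of level less than `16` is active (`lt_U`); a special string
has level at least `30` and `D i ≤ U i / 8` (`DE_le_U`), so `8 + D i ≤ lev y.length`. -/
theorem inv_zero : Inv τ 8 (fun _ => none) := by
  refine ⟨?_, ?_, ?_⟩
  · intro h w hw
    exact absurd hw (by simp)
  · intro i y hy hl
    have h1 : U i ≤ lev y.length := hy.1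
    have h2 := lt_U i
    omega
  · intro i y hy
    have h1 : U i ≤ lev y.length := hy.1
    have h2 := lt_U i
    have h3 := DE_le_U i
    left
    omega

/-- `Ext` is transitive along increasing cuts. -/
theorem Ext.trans {σ σ' : ℕ} {W W' W'' : Cfg} (h : Ext σ W W') (h' : Ext σ' W' W'')
    (hσ : σ ≤ σ') : Ext σ W W'' := by
  intro g
  rcases h' g with h1 | ⟨h1, i, s, e, w, h2, h3, h4, h5⟩
  · rw [h1]
    exact h g
  · rcases h g with h6 | ⟨-, i', s', e', w', -, -, -, h7, -⟩
    · exact Or.inr ⟨by rw [← h6, h1], i, s, e, w, h2, h3, by omega, h5⟩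
    · rw [h1] at h7
      exact absurd h7 (by simp)

end Pool.Agent.Helper21.AX
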