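import Pool.Agent.Helper21.AX.B5b
import Pool.Agent.Helper21.AX.B6a

/-!
Project AX (MP_4a5e7e_lc): the configuration.
-/

namespace Pool.Agent.Helper21.AX

open Pool.Agent.Helper5.SX

variable {τ : ℕ → Task}

/-- The final configuration.

Proof: `block` and choice give sequences `σ n` (strictly increasing, `σ 0 = 8`) and `W n` with
`Inv τ (σ n) (W n)` and `Ext (σ n) (W n) (W (n + 1))`. By `Ext.trans`, `Ext (σ n) (W n) (W k)` for
`n ≤ k`. Let `W h` be `W n h` if `W n h ≠ none` for some `n` (all these values are equal), and `none`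
otherwise. Then `Ext (σ n) (W n) W` for all `n`. For a special `y` take `n` with `8 ≤ σ n` and
`lev y.length < σ n`; by `ext_special` it is special for `W n`, and `ext_old`, `(Inv).right`, `ext_acc`
(`(Inv).clean` excludes `σ n + D i ≤ lev y.length`) give the equivalence. The lengths of the codes come
from `shape`. -/
theorem exists_cfg (hτ : Small τ) : ∃ W : Cfg,
    (∀ h w, W h = some w → w.length = 2 ^ h.length) ∧
      ∀ i y, Special τ (xx τ) i (OO τ W) y →
        ((∃ w, W (hh τ (xx τ) i (OO τ W) y) = some w) ↔ AccT τ i (OO τ W) y) := by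
  classical
  have hstep : ∀ p : {p : ℕ × Cfg // 8 ≤ p.1 ∧ Inv τ p.1 p.2},
      ∃ q : {p : ℕ × Cfg // 8 ≤ p.1 ∧ Inv τ p.1 p.2},
        p.1.1 < q.1.1 ∧ Ext p.1.1 p.1.2 q.1.2 := by
    rintro ⟨⟨σ, W⟩, h8, hI⟩
    obtain ⟨σ', W', h1, h2, h3⟩ := block hτ h8 hI
    exact ⟨⟨(σ', W'), h8.trans h1.le, h3⟩, h1, h2⟩
  choose nx hnx using hstep
  obtain ⟨s, hs⟩ : ∃ s : ℕ → {p : ℕ × Cfg // 8 ≤ p.1 ∧ Inv τ p.1 p.2},
      ∀ n, s (n + 1) = nx (s n) :=
    ⟨fun n => Nat.rec ⟨(8, fun _ => none), le_rfl, inv_zero⟩ (fun _ p => nx p) n, fun _ => rfl⟩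
  have hσ1 : ∀ n, (s n).1.1 < (s (n + 1)).1.1 := fun n => by
    rw [hs n]
    exact (hnx (s n)).1
  have hE : ∀ n, Ext (s n).1.1 (s n).1.2 (s (n + 1)).1.2 := fun n => by
    rw [hs n]
    exact (hnx (s n)).2
  have hmono : StrictMono fun n => (s n).1.1 := strictMono_nat_of_lt_succ hσ1
  have hEE : ∀ n k, n ≤ k → Ext (s n).1.1 (s n).1.2 (s k).1.2 := by
    intro n k hk
    induction k, hk using Nat.le_induction with
    | base => exact fun h => Or.inl rfl
    | succ k hk ih => exact Ext.trans ih (hE k) (hmono.monotone hk)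
  have hval : ∀ n k h w, (s n).1.2 h = some w → n ≤ k → (s k).1.2 h = some w := by
    intro n k h w hw hk
    rcases hEE n k hk h with e | ⟨e, -⟩
    · rw [e, hw]
    · rw [hw] at e
      cases e
  -- the union
  obtain ⟨W, hW⟩ : ∃ W : Cfg, ∀ h, W h =
      if hx : ∃ n, (s n).1.2 h ≠ none then (s (Nat.find hx)).1.2 h else none :=
    ⟨_, fun h => rfl⟩
  have hW1 : ∀ n h w, (s n).1.2 h = some w → W h = some w := by
    intro n h w hw
    have hx : ∃ n, (s n).1.2 h ≠ none := ⟨n, by rw [hw]; exact Option.some_ne_none w⟩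
    rw [hW h, dif_pos hx]
    obtain ⟨w', hw'⟩ := Option.ne_none_iff_exists'.1 (Nat.find_spec hx)
    have h1 := hval _ n h w' hw' (Nat.find_min' hx (by rw [hw]; exact Option.some_ne_none w))
    rw [hw', ← h1, hw]
  have hW2 : ∀ h w, W h = some w → ∃ n, (s n).1.2 h = some w := by
    intro h w hw
    by_cases hx : ∃ n, (s n).1.2 h ≠ none
    · rw [hW h, dif_pos hx] at hw
      exact ⟨_, hw⟩
    · rw [hW h, dif_neg hx] at hw
      cases hw
  have hEW : ∀ n, Ext (s n).1.1 (s n).1.2 W := by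
    intro n h
    rcases hw : W h with _ | w
    · left
      rcases hw' : (s n).1.2 h with _ | w'
      · rfl
      · rw [hW1 n h w' hw'] at hw
        cases hw
    · obtain ⟨k, hk⟩ := hW2 h w hw
      have hk' : (s (max n k)).1.2 h = some w := hval _ _ _ _ hk (le_max_right _ _)
      rcases hEE n (max n k) (le_max_left _ _) h with e | ⟨e, i, t, e', w', e1, e2, e3, e4, e5⟩
      · left
        rw [← e, hk']
      · right
        exact ⟨e, i, t, e', w', e1, e2, e3, by rw [← e4, hk'], e5⟩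
  refine ⟨W, fun h w hw => ?_, fun i y hy => ?_⟩
  · obtain ⟨n, hn⟩ := hW2 h w hw
    exact ((s n).2.2.shape h w hn).1
  · obtain ⟨n, hn⟩ : ∃ n, lev y.length < (s n).1.1 :=
      ⟨lev y.length + 1, Nat.lt_of_lt_of_le (Nat.lt_succ_self _) (hmono.le_apply)⟩
    have h8 := (s n).2.1
    obtain ⟨e1, e2⟩ := ext_special hτ h8 (hEW n) hy.1 (by omega)
    have hy' := e2.1 hy
    have hcl : lev y.length + D i < (s n).1.1 := by
      rcases (s n).2.2.clean i y hy' with h | h
      · omega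
      · exact h
    rw [e1, ext_old (hEW n) hy.1 hn, ext_acc hτ (hEW n) hcl]
    exact (s n).2.2.right i y hy' hn

end Pool.Agent.Helper21.AX
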