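import Pool.Agent.Helper21.AX.Defs

/-!
Project AX (MP_4a5e7e_lc): injectivity and lengths of the strings of the construction.
-/

namespace Pool.Agent.Helper21.AX

open Pool.Agent.Helper5.SX

/-- Induction on `a` (for all `b`). -/
theorem rep_inj {a b : ℕ} {u v : Str}
    (h : List.replicate a true ++ false :: u = List.replicate b true ++ false :: v) :
    a = b ∧ u = v := by
  induction a generalizing b with
  | zero =>
    cases b with
    | zero => simpa using h
    | succ b => simp [List.replicate_succ] at h
  | succ a ih =>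
    cases b with
    | zero => simp [List.replicate_succ] at h
    | succ b =>
      rw [List.replicate_succ, List.replicate_succ, List.cons_append, List.cons_append] at h
      have h2 := ih (List.cons.inj h).2
      exact ⟨by rw [h2.1], h2.2⟩

theorem zz_length (i : ℕ) (v : Str) : (zz i v).length = v.length + i + 2 := by
  simp only [zz, List.length_append, List.length_replicate, List.length_cons]
  omega

theorem zz_inj {i i' : ℕ} {v v' : Str} (h : zz i v = zz i' v') : i = i' ∧ v = v' := by
  have h1 := rep_inj h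
  exact ⟨by omega, h1.2⟩

theorem zz_ne (i : ℕ) (v h : Str) : zz i v ≠ false :: h := by
  simp [zz, List.replicate_succ]

theorem bin_length (len e : ℕ) : (bin len e).length = len := by
  simp [bin]

/-- `Nat.eq_of_testBit_eq`; beyond `len` both bits are `false` (`Nat.testBit_lt_two_pow` or
similar). -/
theorem bin_inj {len e e' : ℕ} (he : e < 2 ^ len) (he' : e' < 2 ^ len)
    (h : bin len e = bin len e') : e = e' := by
  apply Nat.eq_of_testBit_eq
  intro j
  by_cases hj : j < len
  · have h1 : (bin len e)[j]? = (bin len e')[j]? := by rw [h]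
    simpa [bin, hj] using h1
  · have hp : 2 ^ len ≤ 2 ^ j := Nat.pow_le_pow_right (by norm_num) (by omega)
    rw [Nat.testBit_lt_two_pow (lt_of_lt_of_le he hp),
      Nat.testBit_lt_two_pow (lt_of_lt_of_le he' hp)]

theorem hs_length {i lam : ℕ} (e : ℕ) (h : i + 2 ≤ lam) : (hs i lam e).length = lam := by
  simp only [hs, List.length_append, List.length_replicate, List.length_cons, bin_length]
  omega

theorem C1_hs_aux {i i' lam lam' e e' : ℕ} (h : i + 2 ≤ lam) (h' : i' + 2 ≤ lam')
    (hh : hs i lam e = hs i' lam' e') :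
    i = i' ∧ lam = lam' ∧ bin (lam - i - 2) e = bin (lam' - i' - 2) e' := by
  have h1 := rep_inj (List.cons.inj hh).2
  have h2 := congrArg List.length h1.2
  rw [bin_length, bin_length] at h2
  have h3 := h1.1
  exact ⟨h3, by omega, h1.2⟩

theorem hs_inj {i i' lam lam' e e' : ℕ} (h : i + 2 ≤ lam) (h' : i' + 2 ≤ lam')
    (he : e < 2 ^ (lam - i - 2)) (he' : e' < 2 ^ (lam' - i' - 2))
    (hh : hs i lam e = hs i' lam' e') : i = i' ∧ lam = lam' ∧ e = e' := by
  obtain ⟨h1, h2, h3⟩ := C1_hs_aux h h' hh
  subst h1
  subst h2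
  exact ⟨rfl, rfl, bin_inj he he' h3⟩

/-- Without bounds for `e`, `e'`: the first two components are determined. -/
theorem hs_inj' {i i' lam lam' e e' : ℕ} (h : i + 2 ≤ lam) (h' : i' + 2 ≤ lam')
    (hh : hs i lam e = hs i' lam' e') : i = i' ∧ lam = lam' := by
  obtain ⟨h1, h2, -⟩ := C1_hs_aux h h' hh
  exact ⟨h1, h2⟩

theorem wq_inj {b b' d d' : Bool} {j j' i i' : ℕ} {y y' : Str}
    (h : wq b b' j i y = wq d d' j' i' y') : b = d ∧ b' = d' ∧ j = j' ∧ i = i' ∧ y = y' := by
  simp only [wq, base, List.cons.injEq, true_and] at h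
  obtain ⟨h1, h2, h3⟩ := h
  obtain ⟨h4, h5⟩ := rep_inj h3
  obtain ⟨h6, h7⟩ := rep_inj h5
  exact ⟨h1, h2, h4, h6, List.reverse_injective h7⟩

theorem lt_wq_length (b b' : Bool) (j i : ℕ) (y : Str) : j < (wq b b' j i y).length := by
  simp only [wq, base, List.length_append, List.length_replicate, List.length_cons]
  omega

theorem tstr_ne_wq (x u : Str) (b b' : Bool) (j i : ℕ) (y : Str) :
    tstr x u ≠ wq b b' j i y := by
  simp [tstr, wq]

end Pool.Agent.Helper21.AX
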