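import Pool.Agent.Helper21.AX.Small
import Pool.Agent.Helper5.SX.Codes

/-!
Project AX (MP_4a5e7e_lc): reductions, parameters and the construction of the oracles.
-/

namespace Pool.Agent.Helper21.AX

open Pool.Agent.Helper5.SX

/-! ## Reductions -/

open Classical in
/-- The value of the truth table `w` (a string of bits, read as `0` beyond its end) at the answers
`a 0, …, a (k - 1)`: the bit of `w` whose number has the answers as binary digits. -/
noncomputable def tab (k : ℕ) (w : Str) (a : ℕ → Prop) : Bool :=
  w.getD (∑ j ∈ Finset.range k, if a j then 2 ^ j else 0) false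

/-- `B` is `k`-truth-table reducible to `A` in polynomial time relative to `O`: a deterministic
program with the oracle `O` writes a truth table on stack `0` and `k` queries on the stacks
`1, …, k` within `n ^ r + r` steps, and the table applied to the answers of `A` decides `B`. -/
def Ktt (O : Set Str) (k : ℕ) (B A : Set Str) : Prop :=
  ∃ g : Cmd, g.Det ∧ ∃ r : ℕ, ∀ x : Str, ∃ t ≤ x.length ^ r + r, ∃ s' : Store,
    Run O g (start x []) t s' ∧ (x ∈ B ↔ tab k (s' 0) (fun j => s' (j + 1) ∈ A) = true)

/-- `A` is `k`-truth-table autoreducible: reducible to itself by a reduction as in `Ktt` that never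
asks its own input. -/
def AutoKtt (O : Set Str) (k : ℕ) (A : Set Str) : Prop :=
  ∃ g : Cmd, g.Det ∧ ∃ r : ℕ, ∀ x : Str, ∃ t ≤ x.length ^ r + r, ∃ s' : Store,
    Run O g (start x []) t s' ∧ (∀ j < k, s' (j + 1) ≠ x) ∧
      (x ∈ A ↔ tab k (s' 0) (fun j => s' (j + 1) ∈ A) = true)

/-- `A` is complete for `NEXP` relative to `O` under `k`-truth-table reductions. -/
def CompleteKtt (O : Set Str) (k : ℕ) (A : Set Str) : Prop :=
  A ∈ NEXP O ∧ ∀ B ∈ NEXP O, Ktt O k B A

/-! ## Tasks and parameters -/

/-- A task: the pair `(a, c)` accepts a set in time `2 ^ (n ^ c + c)`, the pair `(g, r)` is a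
reduction with `k` queries in time `n ^ r + r`. -/
structure Task where
  /-- the accepting program -/
  a : Cmd
  /-- exponent of its time -/
  c : ℕ
  /-- the program of the reduction -/
  g : Cmd
  /-- exponent of its time -/
  r : ℕ
  /-- the number of queries -/
  k : ℕ

/-- The lengths of the levels. -/
def m (s : ℕ) : ℕ := 2 ^ 2 ^ s

/-- The level of the length `n`: the least `s` with `n ≤ m s`. -/
def lev (n : ℕ) : ℕ := Nat.clog 2 (Nat.clog 2 n)

/-- Distance of the first test level, and of the level of the short instances. -/
def D (i : ℕ) : ℕ := i + 4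

/-- A bound for `4 D k`. -/
def K (i : ℕ) : ℕ := 4 * (i + 4) * (i + 1)

/-- The number of test levels, minus one. -/
def E (i : ℕ) : ℕ := 2 ^ (i + 6) * K i

/-- The task `i` is active from the level `U i` on. -/
def U (i : ℕ) : ℕ := 2 ^ (2 * i + 30)

/-- The length of the strings seen by the reduction `i` on the test instances of level `t`. -/
def V (i t : ℕ) : ℕ := 4 * (m t + i + 2) ^ (i + 1)

/-- The number of test instances of one string at one level. -/
def Lp (i t : ℕ) : ℕ := V i t ^ 3

/-- A bound for the number and for the lengths of the strings on which the choice of the instance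
of a string of level `s` depends. -/
def Kap (i s : ℕ) : ℕ := (E i + 2) * V i (s + D i + E i) ^ 4

/-- The counter of the walk for a string of level `s` starts to give data after `J i s`. -/
def J (i s : ℕ) : ℕ := Kap i s ^ 2 + 1

/-- The string `y` is active for the task `i`. -/
def Act (i : ℕ) (y : Str) : Prop := U i ≤ lev y.length

/-- `t` is a test level of the strings of level `s`. -/
def TestLev (i s t : ℕ) : Prop := s + D i ≤ t ∧ t ≤ s + D i + E i

/-! ## Strings -/

/-- The long instances. -/
def zz (i : ℕ) (v : Str) : Str := List.replicate (i + 1) true ++ false :: v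

/-- `len` binary digits of `e`. -/
def bin (len e : ℕ) : Str := (List.range len).map (fun j => e.testBit j)

/-- The short instances (of length `lam`). -/
def hs (i lam e : ℕ) : Str :=
  false :: (List.replicate i true ++ false :: bin (lam - i - 2) e)

/-- The base of the walk strings. -/
def base (i : ℕ) (y : Str) : Str := false :: (List.replicate i true ++ false :: y.reverse)

/-- The walk strings. -/
def wq (b b' : Bool) (j i : ℕ) (y : Str) : Str :=
  true :: b :: b' :: (List.replicate j true ++ base i y)

/-! ## Questions of a reduction -/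

variable (τ : ℕ → Task)

open Classical in
/-- The question number `j` (`j < k`) of the reduction `i` on `z`. -/
noncomputable def qa (i : ℕ) (O : Set Str) (z : Str) (j : ℕ) : Option Str :=
  (out O (τ i).g z (z.length ^ (τ i).r + (τ i).r)).bind
    (fun s' => if j < (τ i).k then some (s' (j + 1)) else none)

/-- The reduction `i` asks `y` on `z`. -/
def Asks (i : ℕ) (O : Set Str) (z y : Str) : Prop := ∃ j, qa τ i O z j = some y

/-- The time in which `y` has to be accepted. -/
def T (i n : ℕ) : ℕ := 2 ^ (n ^ (τ i).c + (τ i).c)

/-- `y` is accepted by the program of the task `i`. -/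
def AccT (i : ℕ) (O : Set Str) (y : Str) : Prop := Acc O (τ i).a y [] (T τ i y.length)

/-- At least half of the instances of level `t` lead to the question `y`. -/
def Heavy (i t : ℕ) (O : Set Str) (y : Str) : Prop :=
  2 ^ m t ≤ 2 * {v : Str | v.length = m t ∧ Asks τ i O (zz i v) y}.ncard

/-! ## The tests -/

/-- Test instances (for each string) and reference instances of one task and one level. -/
structure PR where
  /-- the test instances -/
  P : Str → ℕ → Str
  /-- the reference instances -/
  R : ℕ → Str

/-- Configurations: the pairs `(h, w)` with `W h = some w` are the codes that are on. -/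
abbrev Cfg : Type := Str → Option Str

/-- `x` is a good system of tests for the task `i` and the level `t` against all the oracles of the
family `F`. -/
structure Hits (i t : ℕ) (F : Cfg → Set Str) (x : PR) : Prop where
  P_len : ∀ y l, (x.P y l).length = m t
  R_len : ∀ l, (x.R l).length = m t
  inj : ∀ y y' l l', y.length ≤ m (t - D i) → y'.length ≤ m (t - D i) → l < Lp i t → l' < Lp i t →
    x.P y l = x.P y' l' → y = y'
  light : ∀ W y, y.length ≤ m (t - D i) → ¬ Heavy τ i t (F W) y →
    ∃ l < Lp i t, ¬ Asks τ i (F W) (zz i (x.P y l)) y
  heavy : ∀ W y, y.length ≤ m (t - D i) → Heavy τ i t (F W) y →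
    ∃ l < Lp i t, Asks τ i (F W) (zz i (x.R l)) y

open Classical in
/-- A good system of tests if there is one, and a dummy otherwise. -/
noncomputable def pr (i t : ℕ) (F : Cfg → Set Str) : PR :=
  if h : ∃ x, Hits τ i t F x then h.choose
  else ⟨fun _ _ => List.replicate (m t) false, fun _ => List.replicate (m t) false⟩

/-- All the oracles of a family cut at the length `V`. -/
def trF (F : Cfg → Set Str) (V : ℕ) : Cfg → Set Str := fun W => {q | q ∈ F W ∧ q.length ≤ V}

variable (X : ℕ → ℕ → PR)

/-- `v` is a test instance of level `t` of the active string `y` for the task `i`. -/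
def Tests (i t : ℕ) (v y : Str) : Prop :=
  Act i y ∧ TestLev i (lev y.length) t ∧ ∃ l < Lp i t, (X i t).P y l = v

open Classical in
/-- A string whose test instance of level `t` is `v`. -/
noncomputable def own (i t : ℕ) (v : Str) : Option Str :=
  if h : ∃ y, Tests X i t v y then some h.choose else none

/-- The number `e` stands for the question number `e % (k + 1)` on the reference instance number
`e / (k + 1)`; it is `y`. -/
def RefAt (i : ℕ) (O : Set Str) (y : Str) (e : ℕ) : Prop :=
  e < Lp i (lev y.length + D i) * ((τ i).k + 1) ∧
    qa τ i O (zz i ((X i (lev y.length + D i)).R (e / ((τ i).k + 1)))) (e % ((τ i).k + 1)) = some y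

open Classical in
/-- The first such number. -/
noncomputable def eidx (i : ℕ) (O : Set Str) (y : Str) : ℕ :=
  if h : ∃ e, RefAt τ X i O y e then Nat.find h else 0

/-- The short instance of `y`. -/
noncomputable def hh (i : ℕ) (O : Set Str) (y : Str) : Str :=
  hs i (m (lev y.length - D i)) (Nat.pair y.length (eidx τ X i O y))

/-- The test instance number `l` of level `t` of `y` does not ask `y`. -/
def Free (i : ℕ) (O : Set Str) (y : Str) (t l : ℕ) : Prop :=
  TestLev i (lev y.length) t ∧ l < Lp i t ∧ ¬ Asks τ i O (zz i ((X i t).P y l)) y

open Classical in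
/-- The instance of `y`: the first free test instance, or else the short instance. -/
noncomputable def zst (i : ℕ) (O : Set Str) (y : Str) : Str :=
  if h : ∃ e : ℕ, Free τ X i O y e.unpair.1 e.unpair.2 then
    zz i ((X i (Nat.find h).unpair.1).P y (Nat.find h).unpair.2)
  else hh τ X i O y

/-- `y` is special for the task `i`. -/
def Special (i : ℕ) (O : Set Str) (y : Str) : Prop :=
  Act i y ∧ ∀ t l, ¬ Free τ X i O y t l

/-! ## The oracles -/

/-- The code rule. -/
def RC (W : Cfg) (q : Str) : Prop :=
  ∃ h w : Str, q = tstr (false :: h) w ∧ w.length = 2 ^ (h.length + 1) ∧ W (false :: h) = some w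

/-- The link rule. -/
def RL (O : Set Str) (q : Str) : Prop :=
  ∃ (i t : ℕ) (v u y : Str), q = tstr (zz i v) u ∧ v.length = m t ∧ V i t < q.length ∧
    own X i t v = some y ∧ u.length = 2 ^ (zz i v).length ∧ AccU O (τ i).a y (T τ i y.length) u

/-- The walk rule: `zone`, `stop` and `bit`. -/
def RW (O : Set Str) (q : Str) : Prop :=
  ∃ (i j : ℕ) (y : Str), Act i y ∧
    ((q = wq false false j i y ∧ J i (lev y.length) ≤ j) ∨
      (q = wq false true j i y ∧ J i (lev y.length) + 1 + (zst τ X i O y).length ≤ j) ∨
      (q = wq true false j i y ∧ ∃ e, j = J i (lev y.length) + 1 + e ∧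
        (zst τ X i O y).reverse[e]? = some true))

/-- The rule. -/
def Rule (W : Cfg) (O : Set Str) (q : Str) : Prop := RC W q ∨ RL τ X O q ∨ RW τ X O q

/-- The tests chosen for the family `F`. -/
noncomputable def XX (F : Cfg → Set Str) (i t : ℕ) : PR := pr τ i t (trF F (V i t))

/-- The oracles up to the length `L` (exclusive). -/
noncomputable def fam : ℕ → Cfg → Set Str
  | 0 => fun _ => ∅
  | L + 1 => fun W => fam L W ∪ {q | q.length = L ∧ Rule τ (XX τ (fam L)) W (fam L W) q}

/-- The oracle of the configuration `W`. -/
def OO (W : Cfg) : Set Str := {q | q ∈ fam τ (q.length + 1) W}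

/-- The tests of the construction. -/
noncomputable def xx : ℕ → ℕ → PR := XX τ (OO τ)

end Pool.Agent.Helper21.AX
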