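import Mathlib

/-!
Project AX (MP_4a5e7e_lc): hitting sets.
-/

namespace Pool.Agent.Helper21.AX

/-- One step: some element of `X` lies in at least a quarter of the members of `W`. -/
private theorem H1_step {α : Type} [DecidableEq α] (X : Finset α) (W : Finset (Finset α))
    (hX : X.Nonempty) (hW : ∀ z ∈ W, z ⊆ X ∧ X.card ≤ 4 * z.card) :
    ∃ x ∈ X, W.card ≤ 4 * (W.filter (fun z => x ∈ z)).card := by
  by_contra hcon
  push Not at hcon
  have h1 : ∑ x ∈ X, 4 * (W.filter (fun z => x ∈ z)).card < ∑ _x ∈ X, W.card :=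
    Finset.sum_lt_sum_of_nonempty hX (fun x hx => hcon x hx)
  have h2 : ∑ x ∈ X, (W.filter (fun z => x ∈ z)).card = ∑ z ∈ W, z.card := by
    have h3 : ∑ x ∈ X, (W.filter (fun z => x ∈ z)).card
        = ∑ z ∈ W, (X.filter (fun x => x ∈ z)).card := by
      simp only [Finset.card_filter]
      exact Finset.sum_comm
    rw [h3]
    apply Finset.sum_congr rfl
    intro z hz
    congr 1
    ext x
    simp only [Finset.mem_filter]
    exact ⟨fun h => h.2, fun h => ⟨(hW z hz).1 h, h⟩⟩
  have h4 : W.card * X.card ≤ ∑ z ∈ W, 4 * z.card := by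
    calc W.card * X.card = ∑ _z ∈ W, X.card := by simp
      _ ≤ ∑ z ∈ W, 4 * z.card := Finset.sum_le_sum (fun z hz => (hW z hz).2)
  rw [← Finset.mul_sum, h2, Finset.mul_sum] at h1
  simp only [Finset.sum_const, smul_eq_mul] at h1
  rw [mul_comm W.card X.card] at h4
  omega

/-- The iterated step. -/
private theorem H1_iter {α : Type} [DecidableEq α] (X : Finset α) (Z : Finset (Finset α))
    (hX : X.Nonempty) (hZ : ∀ z ∈ Z, z ⊆ X ∧ X.card ≤ 4 * z.card) (n : ℕ) :
    ∃ f : ℕ → α, (∀ l, f l ∈ X) ∧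
      4 ^ n * (Z.filter (fun z => ∀ l < n, f l ∉ z)).card ≤ 3 ^ n * Z.card := by
  induction n with
  | zero =>
    obtain ⟨x, hx⟩ := hX
    refine ⟨fun _ => x, fun _ => hx, ?_⟩
    simp
  | succ n ih =>
    obtain ⟨f, hf, hu⟩ := ih
    obtain ⟨x, hx, hc⟩ := H1_step X (Z.filter (fun z => ∀ l < n, f l ∉ z)) hX
      (fun z hz => hZ z (Finset.mem_filter.mp hz).1)
    refine ⟨Function.update f n x, ?_, ?_⟩
    · intro l
      by_cases hl : l = n
      · subst hl
        simpa using hx
      · rw [Function.update_of_ne hl]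
        exact hf l
    · have hfil : (Z.filter (fun z => ∀ l < n + 1, Function.update f n x l ∉ z))
          = (Z.filter (fun z => ∀ l < n, f l ∉ z)).filter (fun z => ¬ x ∈ z) := by
        ext z
        simp only [Finset.mem_filter]
        constructor
        · rintro ⟨hz, h⟩
          refine ⟨⟨hz, fun l hl => ?_⟩, ?_⟩
          · have := h l (by omega)
            rwa [Function.update_of_ne (by omega)] at this
          · have := h n (by omega)
            rwa [Function.update_self] at this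
        · rintro ⟨⟨hz, h⟩, hx'⟩
          refine ⟨hz, fun l hl => ?_⟩
          by_cases hl' : l = n
          · subst hl'
            rwa [Function.update_self]
          · rw [Function.update_of_ne hl']
            exact h l (by omega)
      have hsplit := Finset.card_filter_add_card_filter_not
        (s := Z.filter (fun z => ∀ l < n, f l ∉ z)) (fun z => x ∈ z)
      rw [hfil]
      generalize ((Z.filter (fun z => ∀ l < n, f l ∉ z)).filter (fun z => ¬ x ∈ z)).card = a at *
      generalize ((Z.filter (fun z => ∀ l < n, f l ∉ z)).filter (fun z => x ∈ z)).card = b at *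
      generalize (Z.filter (fun z => ∀ l < n, f l ∉ z)).card = c at *
      have h5 : 4 * a ≤ 3 * c := by omega
      calc 4 ^ (n + 1) * a = 4 ^ n * (4 * a) := by ring
        _ ≤ 4 ^ n * (3 * c) := Nat.mul_le_mul_left _ h5
        _ = 3 * (4 ^ n * c) := by ring
        _ ≤ 3 * (3 ^ n * Z.card) := Nat.mul_le_mul_left _ hu
        _ = 3 ^ (n + 1) * Z.card := by ring

/-- Hitting sets. `Z` is a family of at most `2 ^ N` subsets of `X`, each with at least a quarter of the
elements. Then `3 (N + 1)` elements of `X` suffice to meet all the members of `Z`.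

Proof: by induction on `n` one finds `f 0, …, f (n - 1)` in `X` such that the number `u n` of the members of
`Z` that do not contain any of them satisfies `4 ^ n * u n ≤ 3 ^ n * Z.card`: by double counting the pairs
(member not met, element of it) some element lies in at least a quarter of the members not met. For
`n = 3 (N + 1)` we get `64 ^ (N + 1) * u ≤ 27 ^ (N + 1) * 2 ^ N`, so `u < 1` since
`27 ^ (N + 1) * 2 ^ N < 54 ^ (N + 1) < 64 ^ (N + 1)`. -/
theorem exists_hit {α : Type} [DecidableEq α] (X : Finset α) (Z : Finset (Finset α)) (N : ℕ)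
    (hX : X.Nonempty) (hZ : ∀ z ∈ Z, z ⊆ X ∧ X.card ≤ 4 * z.card) (hN : Z.card ≤ 2 ^ N) :
    ∃ f : ℕ → α, (∀ l, f l ∈ X) ∧ ∀ z ∈ Z, ∃ l < 3 * (N + 1), f l ∈ z := by
  obtain ⟨f, hf, hu⟩ := H1_iter X Z hX hZ (3 * (N + 1))
  refine ⟨f, hf, ?_⟩
  by_contra hcon
  push Not at hcon
  obtain ⟨z, hz, hl⟩ := hcon
  have hpos : 1 ≤ (Z.filter (fun z => ∀ l < 3 * (N + 1), f l ∉ z)).card :=
    Finset.card_pos.mpr ⟨z, Finset.mem_filter.mpr ⟨hz, hl⟩⟩
  have h1 : 4 ^ (3 * (N + 1)) ≤ 3 ^ (3 * (N + 1)) * 2 ^ N := by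
    calc 4 ^ (3 * (N + 1)) = 4 ^ (3 * (N + 1)) * 1 := by ring
      _ ≤ 4 ^ (3 * (N + 1)) * (Z.filter (fun z => ∀ l < 3 * (N + 1), f l ∉ z)).card :=
          Nat.mul_le_mul_left _ hpos
      _ ≤ 3 ^ (3 * (N + 1)) * Z.card := hu
      _ ≤ 3 ^ (3 * (N + 1)) * 2 ^ N := Nat.mul_le_mul_left _ hN
  have h2 : 3 ^ (3 * (N + 1)) * 2 ^ N < 4 ^ (3 * (N + 1)) := by
    calc 3 ^ (3 * (N + 1)) * 2 ^ N = 27 ^ (N + 1) * 2 ^ N := by rw [pow_mul]; norm_num
      _ < 27 ^ (N + 1) * 2 ^ (N + 1) := by
          apply Nat.mul_lt_mul_of_pos_left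
          · exact Nat.pow_lt_pow_right (by norm_num) (by omega)
          · positivity
      _ = 54 ^ (N + 1) := by rw [← mul_pow]; norm_num
      _ ≤ 64 ^ (N + 1) := Nat.pow_le_pow_left (by norm_num) _
      _ = 4 ^ (3 * (N + 1)) := by rw [pow_mul]; norm_num
  omega

end Pool.Agent.Helper21.AX
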