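import Pool.Agent.Helper21.AX.H1

/-!
Project AX (MP_4a5e7e_lc): pairwise disjoint hitting sets.
-/

namespace Pool.Agent.Helper21.AX

/-- Pairwise disjoint hitting sets for the elements `y` of a finite set `Y`.

Proof: induction on `Y` (`Finset.induction_on`). For `insert y Y` let `Z'` be the set of all the values
`P y' l`, `y' ∈ Y`, `l < L`, at most `Y.card * L` elements, so at most a quarter of `X` (from the bound for
`insert y Y`), and apply `exists_hit` to `X \ Z'` and to the family of the sets `z \ Z'`, `z ∈ Z y`:
`z` has at least half of the elements of `X`, so `z \ Z'` has at least a quarter of the elements of `X`.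
(`X \ Z'` is not empty.) The new function is `Function.update`d at `y`; `L ≥ 3 (N + 1)`. -/
theorem exists_disjoint_hit {α β : Type} [DecidableEq α] [DecidableEq β] (X : Finset α)
    (Y : Finset β) (Z : β → Finset (Finset α)) (N L : ℕ) (hX : X.Nonempty)
    (hZ : ∀ y ∈ Y, ∀ z ∈ Z y, z ⊆ X ∧ X.card ≤ 2 * z.card)
    (hN : ∀ y ∈ Y, (Z y).card ≤ 2 ^ N) (hL : 3 * (N + 1) ≤ L) (hY : 4 * (Y.card * L) ≤ X.card) :
    ∃ P : β → ℕ → α, (∀ y l, P y l ∈ X) ∧
      (∀ y ∈ Y, ∀ y' ∈ Y, ∀ l < L, ∀ l' < L, P y l = P y' l' → y = y') ∧
      ∀ y ∈ Y, ∀ z ∈ Z y, ∃ l < L, P y l ∈ z := by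
  induction Y using Finset.induction_on with
  | empty =>
    obtain ⟨x, hx⟩ := hX
    exact ⟨fun _ _ => x, fun _ _ => hx, by simp, by simp⟩
  | insert y Y hy ih =>
    rw [Finset.card_insert_of_notMem hy] at hY
    have hYL : (Y.card + 1) * L = Y.card * L + L := by ring
    rw [hYL] at hY
    obtain ⟨P, hP, hD, hH⟩ := ih (fun y' hy' => hZ y' (Finset.mem_insert_of_mem hy'))
      (fun y' hy' => hN y' (Finset.mem_insert_of_mem hy')) (by omega)
    set Z' : Finset α := (Y ×ˢ Finset.range L).image (fun p => P p.1 p.2) with hZ'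
    have hZ'card : Z'.card ≤ Y.card * L := by
      calc Z'.card ≤ (Y ×ˢ Finset.range L).card := Finset.card_image_le
        _ = Y.card * L := by rw [Finset.card_product, Finset.card_range]
    have hXpos : 0 < X.card := Finset.card_pos.mpr hX
    have hLpos : 0 < L := by omega
    have hsd : X.card ≤ (X \ Z').card + Z'.card := by
      exact Finset.card_le_card_sdiff_add_card
    have hne : (X \ Z').Nonempty := by
      apply Finset.card_pos.mp
      omega
    obtain ⟨f, hf, hhit⟩ := exists_hit (X \ Z') ((Z y).image (fun z => z \ Z')) N hne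
      (by
        intro w hw
        obtain ⟨z, hz, rfl⟩ := Finset.mem_image.mp hw
        obtain ⟨hzX, hzc⟩ := hZ y (Finset.mem_insert_self y Y) z hz
        refine ⟨Finset.sdiff_subset_sdiff hzX (le_refl _), ?_⟩
        have h1 : z.card ≤ (z \ Z').card + Z'.card := by
          exact Finset.card_le_card_sdiff_add_card
        have h2 : (X \ Z').card ≤ X.card := Finset.card_le_card Finset.sdiff_subset
        omega)
      (le_trans Finset.card_image_le (hN y (Finset.mem_insert_self y Y)))
    have hfZ' : ∀ l, ∀ y' ∈ Y, ∀ l' < L, f l ≠ P y' l' := by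
      intro l y' hy' l' hl' heq
      have h1 := (Finset.mem_sdiff.mp (hf l)).2
      apply h1
      rw [heq, hZ']
      exact Finset.mem_image.mpr ⟨(y', l'), Finset.mem_product.mpr
        ⟨hy', Finset.mem_range.mpr hl'⟩, rfl⟩
    refine ⟨Function.update P y f, ?_, ?_, ?_⟩
    · intro y' l
      by_cases h : y' = y
      · subst h
        rw [Function.update_self]
        exact (Finset.mem_sdiff.mp (hf l)).1
      · rw [Function.update_of_ne h]
        exact hP y' l
    · intro y1 hy1 y2 hy2 l hl l' hl' heq
      by_cases h1 : y1 = y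
      · by_cases h2 : y2 = y
        · rw [h1, h2]
        · exfalso
          rw [h1, Function.update_self, Function.update_of_ne h2] at heq
          exact hfZ' l y2 (Finset.mem_of_mem_insert_of_ne hy2 h2) l' hl' heq
      · by_cases h2 : y2 = y
        · exfalso
          rw [h2, Function.update_self, Function.update_of_ne h1] at heq
          exact hfZ' l' y1 (Finset.mem_of_mem_insert_of_ne hy1 h1) l hl heq.symm
        · rw [Function.update_of_ne h1, Function.update_of_ne h2] at heq
          exact hD y1 (Finset.mem_of_mem_insert_of_ne hy1 h1) y2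
            (Finset.mem_of_mem_insert_of_ne hy2 h2) l hl l' hl' heq
    · intro y' hy' z hz
      by_cases h : y' = y
      · subst h
        obtain ⟨l, hl, hlz⟩ := hhit (z \ Z') (Finset.mem_image.mpr ⟨z, hz, rfl⟩)
        refine ⟨l, by omega, ?_⟩
        rw [Function.update_self]
        exact (Finset.mem_sdiff.mp hlz).1
      · obtain ⟨l, hl, hlz⟩ := hH y' (Finset.mem_of_mem_insert_of_ne hy' h) z hz
        refine ⟨l, hl, ?_⟩
        rw [Function.update_of_ne h]
        exact hlz

end Pool.Agent.Helper21.AX
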