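import Pool.Agent.Helper21.AX.L3b

/-!
Project AX (MP_4a5e7e_lc): configurations with the same codes.
-/

namespace Pool.Agent.Helper21.AX

open Pool.Agent.Helper5.SX

variable {τ : ℕ → Task}

/-- If two configurations have the same codes of length at most `V` (and of the right length) then
their oracles agree up to the length `V`. From `cfg_use`. -/
theorem OO_agree (hτ : Small τ) {W W' : Cfg} {V : ℕ}
    (h : ∀ h w : Str, w.length = 2 ^ h.length → w.length ≤ V → (W' h = some w ↔ W h = some w))
    (q : Str) (hq : q.length ≤ V) : q ∈ OO τ W' ↔ q ∈ OO τ W := by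
  obtain ⟨F, _, hF, hW⟩ := cfg_use hτ W q
  exact hW W' fun p hp => h p.1 p.2 (hF p hp).1 ((hF p hp).2.trans hq)

end Pool.Agent.Helper21.AX
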