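import Pool.Agent.Helper21.AX.H3a
import Pool.Agent.Helper5.SX.Num2

/-!
Project AX (MP_4a5e7e_lc): the number of the oracles cut at a given length.
-/

namespace Pool.Agent.Helper21.AX

open Pool.Agent.Helper5.SX

variable {τ : ℕ → Task}

/-- There are at most `2 ^ (2 V (V + 1))` different oracles cut at the length `V`.

Proof: let `H` be the finite set of the strings `h` with `2 ^ h.length ≤ V`; it has at most `2 V`
elements (if `V = 0` none; otherwise with `l = Nat.log 2 V` the strings of length at most `l`, in number
`2 ^ (l + 1) - 1 < 2 V`; `List.finite_length_eq`, `card_len` in `Pool.Agent.Helper5.SX.Stage` or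
`exists_short` in `Num2`). Let `Y` be the finite set of `none` and all `some w` with `w.length ≤ V`, at
most `2 ^ (V + 1)` elements. For a function `f` in `Finset.pi H (fun _ => Y)` let `W_f h` be `f h` for `h ∈ H`
and `none` otherwise, and let `S` be the image of `Finset.pi H (fun _ => Y)` under
`f ↦ trF (OO τ) V W_f`; `Finset.card_pi` and `Finset.card_image_le` give the bound. For any `W` choose
`f h = W h` if `W h = some w` with `w.length = 2 ^ h.length` and `none` otherwise; `OO_agree` shows
`trF (OO τ) V W_f = trF (OO τ) V W`. -/
theorem card_trF (hτ : Small τ) (V : ℕ) : ∃ S : Finset (Set Str), S.card ≤ 2 ^ (2 * V * (V + 1)) ∧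
    ∀ W, trF (OO τ) V W ∈ S := by
  classical
  rcases Nat.eq_zero_or_pos V with hV | hV
  · subst hV
    refine ⟨{trF (OO τ) 0 (fun _ => none)}, by simp, fun W => ?_⟩
    rw [Finset.mem_singleton]
    ext q
    constructor
    · rintro ⟨h1, h2⟩
      refine ⟨(OO_agree hτ (W := W) (W' := fun _ => none) (V := 0) (fun h w hw h0 => ?_) q h2).2 h1,
        h2⟩
      exfalso
      have h3 : 0 < 2 ^ h.length := by positivity
      omega
    · rintro ⟨h1, h2⟩
      refine ⟨(OO_agree hτ (W := fun _ => none) (W' := W) (V := 0) (fun h w hw h0 => ?_) q h2).2 h1,
        h2⟩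
      exfalso
      have h3 : 0 < 2 ^ h.length := by positivity
      omega
  · obtain ⟨H, hH, hHc⟩ := exists_short (Nat.log 2 V)
    obtain ⟨Y, hY, hYc⟩ := exists_short V
    have hH2 : ∀ h : Str, h ∈ H ↔ 2 ^ h.length ≤ V := by
      intro h
      rw [hH h]
      exact Nat.le_log_iff_pow_le (by norm_num) (by omega)
    refine ⟨(Finset.pi H (fun _ => Y)).image (fun f => trF (OO τ) V
      (fun h => if hh : h ∈ H then (if f h hh = [] then none else some (f h hh)) else none)),
      ?_, fun W => ?_⟩
    · refine Finset.card_image_le.trans ?_
      rw [Finset.card_pi, Finset.prod_const]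
      have h1 : Y.card ≤ 2 ^ (V + 1) := by
        rw [pow_succ, mul_comm]
        exact hYc
      have h2 : H.card ≤ 2 * V := hHc.trans (Nat.mul_le_mul_left 2 (Nat.pow_log_le_self 2 (by omega)))
      calc Y.card ^ H.card ≤ (2 ^ (V + 1)) ^ H.card := Nat.pow_le_pow_left h1 _
        _ ≤ (2 ^ (V + 1)) ^ (2 * V) := Nat.pow_le_pow_right (by positivity) h2
        _ = 2 ^ (2 * V * (V + 1)) := by
            rw [← pow_mul]
            congr 1
            ring
    · rw [Finset.mem_image]
      refine ⟨fun h _ => if h1 : ∃ w, W h = some w ∧ w.length = 2 ^ h.length ∧ w.length ≤ V then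
        h1.choose else [], ?_, ?_⟩
      · rw [Finset.mem_pi]
        intro h hh
        rw [hY]
        split_ifs with h1
        · exact h1.choose_spec.2.2
        · simp
      · ext q
        have key : ∀ h w : Str, w.length = 2 ^ h.length → w.length ≤ V →
            ((if hh : h ∈ H then (if (if h1 : ∃ w, W h = some w ∧ w.length = 2 ^ h.length ∧
              w.length ≤ V then h1.choose else []) = [] then none else
                some (if h1 : ∃ w, W h = some w ∧ w.length = 2 ^ h.length ∧
              w.length ≤ V then h1.choose else [])) else none) = some w ↔ W h = some w) := by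
          intro h w hw hwV
          have hpos : 0 < 2 ^ h.length := by positivity
          have hh : h ∈ H := (hH2 h).2 (by omega)
          rw [dif_pos hh]
          constructor
          · intro h2
            split_ifs at h2 with h1 h3
            · have h4 := h1.choose_spec.1
              rw [Option.some.injEq] at h2
              rw [h2] at h4
              exact h4
            · simp_all
          · intro h2
            have h1 : ∃ w, W h = some w ∧ w.length = 2 ^ h.length ∧ w.length ≤ V :=
              ⟨w, h2, hw, hwV⟩
            have h4 : w = h1.choose := Option.some.inj (h2.symm.trans h1.choose_spec.1)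
            rw [dif_pos h1, ← h4, if_neg]
            intro h5
            rw [h5] at hw
            simp at hw
            omega
        constructor
        · rintro ⟨h1, h2⟩
          exact ⟨(OO_agree hτ (fun h w hw hwV => (key h w hw hwV)) q h2).1 h1, h2⟩
        · rintro ⟨h1, h2⟩
          exact ⟨(OO_agree hτ (fun h w hw hwV => (key h w hw hwV)) q h2).2 h1, h2⟩

end Pool.Agent.Helper21.AX
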