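import Pool.Agent.Helper21.AX.N1b

/-!
Project AX (MP_4a5e7e_lc): numerics for the tests.
-/

namespace Pool.Agent.Helper21.AX

private theorem N2a_two_mul_le {t : ℕ} (h : 1 ≤ t) : 2 * t ≤ 2 ^ t := by
  induction t, h using Nat.le_induction with
  | base => norm_num
  | succ n hn ih =>
    have : 2 ^ (n + 1) = 2 * 2 ^ n := by ring
    omega

private theorem N2a_four_mul_le {t : ℕ} (h : 5 ≤ t) : 4 * t + 4 ≤ 2 ^ t := by
  induction t, h using Nat.le_induction with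
  | base => norm_num
  | succ n hn ih =>
    have : 2 ^ (n + 1) = 2 * 2 ^ n := by ring
    omega

private theorem N2a_V_le {i t : ℕ} (h : i + 2 ≤ t) :
    V i t ≤ 2 ^ (2 + (i + 1) * (2 ^ t + 1)) := by
  have h1 : m t + i + 2 ≤ 2 ^ (2 ^ t + 1) := by
    have h2 := add_two_le_m t
    have h3 : 2 ^ (2 ^ t + 1) = 2 * m t := by
      unfold m
      ring
    omega
  unfold V
  calc 4 * (m t + i + 2) ^ (i + 1) ≤ 4 * (2 ^ (2 ^ t + 1)) ^ (i + 1) := by gcongr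
    _ = 2 ^ (2 + (i + 1) * (2 ^ t + 1)) := by
      rw [← pow_mul, mul_comm (i + 1), pow_add 2 2]
      norm_num

private theorem N2a_exp {i t : ℕ} (h : i + 2 ≤ t) :
    (i + 1) * (2 ^ t + 1) < 2 ^ (2 * t) := by
  have h1 : t < 2 ^ t := Nat.lt_two_pow_self
  obtain ⟨d, hd⟩ : ∃ d, 2 ^ t = i + 2 + d := ⟨2 ^ t - (i + 2), by omega⟩
  have h2 : 2 ^ (2 * t) = 2 ^ t * 2 ^ t := by
    rw [two_mul, pow_add]
  rw [h2, hd]
  nlinarith

private theorem N2a_t {i t : ℕ} (ht : U i ≤ t) : i + 2 ≤ t ∧ 30 ≤ t := by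
  have := lt_U i
  omega

/-- Proof: write `x = m t + i + 2`; `V i t = 4 x ^ (i + 1)`; `t ≥ U i ≥ 2 i + 30`, so
`x ≤ 2 m t = 2 ^ (2 ^ t + 1)` and `4 x ^ (i + 1) ≤ 2 ^ (2 + (i + 1) (2 ^ t + 1))`, and
`2 + (i + 1) (2 ^ t + 1) < 2 ^ (2 t) ≤ 2 ^ 2 ^ t = m t`. -/
theorem V_lt_two_pow {i t : ℕ} (ht : U i ≤ t) : V i t < 2 ^ (m t + i + 2) := by
  obtain ⟨h1, h2⟩ := N2a_t ht
  refine (N2a_V_le h1).trans_lt (Nat.pow_lt_pow_right (by norm_num) ?_)
  have h3 := N2a_exp h1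
  have h4 : 2 ^ (2 * t) ≤ m t := by
    unfold m
    exact Nat.pow_le_pow_right (by norm_num) (N2a_two_mul_le (by omega))
  omega

/-- Room for the pairwise disjoint tests: `V i t ≤ 2 ^ (2 ^ (2 t))` as above, `Lp i t = V i t ^ 3`, and
with `μ = m (t - D i)` we have `m t = μ ^ (2 ^ (i + 4)) ≥ μ ^ 16`, `m (t - D i) ≥ 2 ^ 2 ^ (t / 2)`. -/
theorem room {i t : ℕ} (ht : U i + D i ≤ t) :
    4 * (2 ^ (m (t - D i) + 1) * Lp i t) ≤ 2 ^ m t := by
  obtain ⟨h1, h2⟩ := N2a_t (show U i ≤ t by omega)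
  have hV := N2a_V_le h1
  have hL : Lp i t ≤ 2 ^ (3 * (2 + (i + 1) * (2 ^ t + 1))) := by
    unfold Lp
    calc V i t ^ 3 ≤ (2 ^ (2 + (i + 1) * (2 ^ t + 1))) ^ 3 := by gcongr
      _ = 2 ^ (3 * (2 + (i + 1) * (2 ^ t + 1))) := by
        rw [← pow_mul, mul_comm 3]
  have h3 := N2a_exp h1
  have hmu : m (t - D i) ≤ m (t - 1) := m_mono (by unfold D; omega)
  have hsq : m t = m (t - 1) * m (t - 1) := by
    have h5 := m_add (t - 1) 1
    rw [show t - 1 + 1 = t by omega] at h5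
    rw [h5]
    ring
  have hbig : 4 * 2 ^ (2 * t) ≤ m (t - 1) := by
    have h6 : 4 * 2 ^ (2 * t) = 2 ^ (2 * t + 2) := by ring
    rw [h6]
    unfold m
    refine Nat.pow_le_pow_right (by norm_num) ?_
    have h7 := N2a_four_mul_le (t := t - 1) (by omega)
    omega
  have h16 : 16 ≤ 2 ^ (2 * t) := by
    calc 16 = 2 ^ 4 := by norm_num
      _ ≤ 2 ^ (2 * t) := Nat.pow_le_pow_right (by norm_num) (by omega)
  have hfin : 2 + (m (t - D i) + 1) + 3 * (2 + (i + 1) * (2 ^ t + 1)) ≤ m t := by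
    have h8 : 2 * m (t - 1) ≤ m t := by
      rw [hsq]
      exact Nat.mul_le_mul_right _ (two_le_m _)
    omega
  calc 4 * (2 ^ (m (t - D i) + 1) * Lp i t)
      ≤ 4 * (2 ^ (m (t - D i) + 1) * 2 ^ (3 * (2 + (i + 1) * (2 ^ t + 1)))) := by gcongr
    _ = 2 ^ (2 + (m (t - D i) + 1) + 3 * (2 + (i + 1) * (2 ^ t + 1))) := by
      rw [pow_add, pow_add]
      ring
    _ ≤ 2 ^ m t := Nat.pow_le_pow_right (by norm_num) hfin

/-- `Lp i t = V i t ^ 3` and `V i t ≥ 4 (m t + 2) ≥ 16`. -/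
theorem Lp_ge (i t : ℕ) :
    3 * (2 * V i t * (V i t + 1) + m t + 3) ≤ Lp i t := by
  have h1 : 4 * (m t + 2) ≤ V i t := by
    unfold V
    refine Nat.mul_le_mul_left 4 ?_
    calc m t + 2 ≤ m t + i + 2 := by omega
      _ = (m t + i + 2) ^ 1 := (pow_one _).symm
      _ ≤ (m t + i + 2) ^ (i + 1) := Nat.pow_le_pow_right (by omega) (by omega)
  have h2 := two_le_m t
  have h3 : 16 ≤ V i t := by omega
  unfold Lp
  have h4 : 16 * (V i t * V i t) ≤ V i t * (V i t * V i t) := Nat.mul_le_mul_right _ h3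
  have h5 : 16 * V i t ≤ V i t * V i t := Nat.mul_le_mul_right _ h3
  have h6 : V i t ^ 3 = V i t * (V i t * V i t) := by ring
  rw [h6]
  nlinarith

end Pool.Agent.Helper21.AX
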