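import Pool.Agent.Helper21.AX.N1b

/-!
Project AX (MP_4a5e7e_lc): numerics for the short instances.
-/

namespace Pool.Agent.Helper21.AX

private theorem N2b_four {a : ℕ} (ha : 4 ≤ a) : 4 * a ≤ 2 ^ a := by
  obtain ⟨b, rfl⟩ : ∃ b, a = b + 3 := ⟨a - 3, by omega⟩
  have h : b < 2 ^ b := Nat.lt_two_pow_self
  rw [pow_add]
  omega

private theorem N2b_V {i t : ℕ} (h : i + 2 ≤ m t) : V i t ≤ 2 ^ (2 + (2 ^ t + 1) * (i + 1)) := by
  have h1 : m t + i + 2 ≤ 2 ^ (2 ^ t + 1) := by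
    have h2 : 2 ^ (2 ^ t + 1) = 2 * m t := by
      unfold m
      rw [pow_succ]
      ring
    omega
  unfold V
  calc 4 * (m t + i + 2) ^ (i + 1) ≤ 4 * (2 ^ (2 ^ t + 1)) ^ (i + 1) := by gcongr
    _ = 2 ^ (2 + (2 ^ t + 1) * (i + 1)) := by
        rw [← pow_mul, pow_add 2 2 ((2 ^ t + 1) * (i + 1))]
        norm_num

/-- Room for the names of the short instances. Proof: with `μ = m (s - D i)`, `m s = μ ^ (2 ^ (i + 4))`
and `m (s + D i) = μ ^ (2 ^ (2 i + 8))`. Everything is at most `2 ^ (2 ^ (2 s))` up to a fixed power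
while `2 ^ (m (s - D i) - i - 2)` is at least `2 ^ (2 ^ 2 ^ (s / 2) - s)`; `s ≥ U i ≥ 2 ^ 30`. Use
`Nat.pair n e ≤ (max n e + 1) ^ 2` (`Nat.pair_lt_max_add_one_sq`). -/
theorem pair_lt {i k s n e : ℕ} (hk : k ≤ i) (hs : U i ≤ s) (hn : n ≤ m s)
    (he : e < Lp i (s + D i) * (k + 1)) : Nat.pair n e < 2 ^ (m (s - D i) - i - 2) := by
  have h0 := lt_U i
  have hD : D i = i + 4 := rfl
  set a := s - D i with ha
  have hsa : s = a + (i + 4) := by omega
  have hai : i + 26 < a := by omega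
  set B := 6 + 3 * ((2 ^ (s + D i) + 1) * (i + 1)) + i with hB
  have hLp : Lp i (s + D i) ≤ 2 ^ (6 + 3 * ((2 ^ (s + D i) + 1) * (i + 1))) := by
    have h1 : i + 2 ≤ m (s + D i) := by
      have := add_two_le_m (s + D i)
      omega
    unfold Lp
    calc V i (s + D i) ^ 3 ≤ (2 ^ (2 + (2 ^ (s + D i) + 1) * (i + 1))) ^ 3 :=
          Nat.pow_le_pow_left (N2b_V h1) 3
      _ = 2 ^ (6 + 3 * ((2 ^ (s + D i) + 1) * (i + 1))) := by
          rw [← pow_mul]
          congr 1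
          ring
  have he' : e < 2 ^ B := by
    have h2 : k + 1 ≤ 2 ^ i := by
      have : i < 2 ^ i := Nat.lt_two_pow_self
      omega
    calc e < Lp i (s + D i) * (k + 1) := he
      _ ≤ 2 ^ (6 + 3 * ((2 ^ (s + D i) + 1) * (i + 1))) * 2 ^ i := Nat.mul_le_mul hLp h2
      _ = 2 ^ B := by rw [hB, pow_add _ _ i]
  have hn' : n < 2 ^ B := by
    refine lt_of_le_of_lt hn ?_
    unfold m
    apply Nat.pow_lt_pow_right (by norm_num)
    have h3 : 2 ^ s ≤ 2 ^ (s + D i) := Nat.pow_le_pow_right (by norm_num) (by omega)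
    have h4 : 2 ^ (s + D i) + 1 ≤ (2 ^ (s + D i) + 1) * (i + 1) :=
      Nat.le_mul_of_pos_right _ (by omega)
    omega
  have hpair : Nat.pair n e < 2 ^ (2 * B) := by
    have h5 := Nat.pair_lt_max_add_one_sq n e
    have h6 : max n e + 1 ≤ 2 ^ B := by
      have : max n e < 2 ^ B := max_lt hn' he'
      omega
    calc Nat.pair n e < (max n e + 1) ^ 2 := h5
      _ ≤ (2 ^ B) ^ 2 := Nat.pow_le_pow_left h6 2
      _ = 2 ^ (2 * B) := by rw [← pow_mul, mul_comm]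
  refine lt_of_lt_of_le hpair (Nat.pow_le_pow_right (by norm_num) ?_)
  have hmain : 2 * B + i + 2 ≤ m a := by
    have h7 : 2 * s ≤ 2 ^ a := by
      have := N2b_four (a := a) (by omega)
      omega
    have h8 : 2 ^ (2 * s) ≤ m a := by
      unfold m
      exact Nat.pow_le_pow_right (by norm_num) h7
    refine le_trans ?_ h8
    have h9 : i + 1 ≤ 2 ^ i := Nat.lt_two_pow_self
    have h10 : 2 ^ (s + D i) + 1 ≤ 2 ^ (s + i + 5) := by
      have e1 : 2 ^ (s + i + 5) = 2 ^ (s + D i) * 2 := by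
        rw [← pow_succ, hD]
        congr 1
      have e2 : 1 ≤ 2 ^ (s + D i) := Nat.one_le_two_pow
      omega
    have h11 : (2 ^ (s + D i) + 1) * (i + 1) ≤ 2 ^ (s + 2 * i + 5) := by
      calc (2 ^ (s + D i) + 1) * (i + 1) ≤ 2 ^ (s + i + 5) * 2 ^ i := Nat.mul_le_mul h10 h9
        _ = 2 ^ (s + 2 * i + 5) := by
            rw [← pow_add]
            congr 1
            ring
    have h12 : 8 * 2 ^ (s + 2 * i + 5) ≤ 2 ^ (2 * s) := by
      calc 8 * 2 ^ (s + 2 * i + 5) = 2 ^ (s + 2 * i + 8) := by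
            rw [show s + 2 * i + 8 = (s + 2 * i + 5) + 3 by ring, pow_add]
            ring
        _ ≤ 2 ^ (2 * s) := Nat.pow_le_pow_right (by norm_num) (by omega)
    have h13 : s + 2 * i + 5 < 2 ^ (s + 2 * i + 5) := Nat.lt_two_pow_self
    omega
  omega

/-- Proof: `i + 2 < s - D i < m (s - D i)`. -/
theorem short_len {i s : ℕ} (hs : U i ≤ s) : i + 2 ≤ m (s - D i) := by
  have h0 := lt_U i
  have hD : D i = i + 4 := rfl
  have := add_two_le_m (s - D i)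
  omega

/-- The reduction on a short instance only sees strings shorter than `n`. Proof: with
`μ = m (s - D i) ≥ 2`: `m (s - 1) = μ ^ (2 ^ (i + 3))`, `m (s - 1) < n` (`lt_lev_iff`), and
`μ + μ ^ r + r ≤ μ ^ (r + 2) ≤ μ ^ (2 ^ (i + 3))`. -/
theorem short_lt {i r s n : ℕ} (hr : r ≤ i) (hs : U i ≤ s) (hn : s = lev n) :
    m (s - D i) + (m (s - D i) ^ r + r) < n := by
  have h0 := lt_U i
  have hD : D i = i + 4 := rfl
  have h1 : m (s - 1) < n := lt_lev_iff.1 (by omega)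
  refine lt_of_le_of_lt ?_ h1
  have h2 : s - 1 = (s - D i) + (i + 3) := by omega
  rw [h2, m_add]
  set μ := m (s - D i) with hμ
  have hμ2 : 2 ≤ μ := two_le_m _
  have h3 : μ ≤ μ ^ (i + 1) := by
    calc μ = μ ^ 1 := (pow_one μ).symm
      _ ≤ μ ^ (i + 1) := Nat.pow_le_pow_right (by omega) (by omega)
  have h4 : μ ^ r ≤ μ ^ (i + 1) := Nat.pow_le_pow_right (by omega) (by omega)
  have h5 : r ≤ μ ^ (i + 1) := by
    have h6 : i + 1 < 2 ^ (i + 1) := Nat.lt_two_pow_self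
    have h7 : 2 ^ (i + 1) ≤ μ ^ (i + 1) := Nat.pow_le_pow_left hμ2 _
    omega
  have h8 : 4 * μ ^ (i + 1) ≤ μ ^ (i + 3) := by
    have h9 : 2 * 2 ≤ μ * μ := Nat.mul_le_mul hμ2 hμ2
    calc 4 * μ ^ (i + 1) ≤ (μ * μ) * μ ^ (i + 1) := Nat.mul_le_mul_right _ (by omega)
      _ = μ ^ (i + 3) := by ring
  have h10 : μ ^ (i + 3) ≤ μ ^ 2 ^ (i + 3) :=
    Nat.pow_le_pow_right (by omega) (Nat.lt_two_pow_self).le
  omega

end Pool.Agent.Helper21.AX
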