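import Pool.Agent.Helper21.AX.H2
import Pool.Agent.Helper21.AX.H3b
import Pool.Agent.Helper21.AX.N2a
import Pool.Agent.Helper21.AX.N2b

/-!
Project AX (MP_4a5e7e_lc): the tests exist.
-/

namespace Pool.Agent.Helper21.AX

open Pool.Agent.Helper5.SX

variable {τ : ℕ → Task}

open Classical in
/-- Good tests exist.

Proof: let `V = V i t`, `S` the finite set of `card_trF`, `X` the finite set of the strings of length
`m t` (`2 ^ m t` elements), `Y` the finite set of the strings of length at most `m (t - D i)` (at most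
`2 ^ (m (t - D i) + 1)` elements), `N = 2 V (V + 1)`, `L = Lp i t`. For `y ∈ Y` let `Z y` be the family of the
sets `{v ∈ X | ¬ Asks τ i O (zz i v) y}` for the `O ∈ S` with `¬ Heavy τ i t O y` (image of a filtered
`S`); each has more than half of the elements (`Heavy` says `2 ^ m t ≤ 2 * ncard` of the complement).
`exists_disjoint_hit` (`room`, `Lp_ge`) gives `P`. For `R` apply `exists_hit` to the family of the sets
`{v ∈ X | Asks τ i O (zz i v) y}` for the pairs `(O, y)` in `S ×ˢ Y` with `Heavy τ i t O y`, at most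
`2 ^ (N + m t + 1)` sets (`Y.card ≤ 2 ^ (m t + 1)`), and `Lp_ge`: `3 (N + m t + 2) ≤ Lp i t`. -/
theorem exists_hits (hτ : Small τ) {i t : ℕ} (ht : U i + D i ≤ t) :
    ∃ x, Hits τ i t (trF (OO τ) (V i t)) x := by
  obtain ⟨S, hSc, hS⟩ := card_trF hτ (V i t)
  obtain ⟨Y, hY, hYc⟩ := exists_short (m (t - D i))
  obtain ⟨X, hXc, hXm⟩ : ∃ X : Finset Str, X.card = 2 ^ m t ∧ ∀ v, v ∈ X ↔ v.length = m t :=
    ⟨(finite_len (m t)).toFinset, card_len (m t), fun v => by simp⟩
  have hXne : X.Nonempty := by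
    rw [← Finset.card_pos, hXc]
    positivity
  have hcard : ∀ O y, {v : Str | v.length = m t ∧ Asks τ i O (zz i v) y}.ncard
      = (X.filter (fun v => Asks τ i O (zz i v) y)).card := by
    intro O y
    rw [← Set.ncard_coe_finset]
    congr 1
    ext v
    simp [hXm]
  have hLp := Lp_ge i t
  have hroom := room ht
  have hmm : m (t - D i) ≤ m t := m_mono (Nat.sub_le _ _)
  have hYc' : Y.card ≤ 2 ^ (m (t - D i) + 1) := by
    rw [pow_succ, mul_comm]
    exact hYc
  -- the tests
  obtain ⟨P, hP1, hP2, hP3⟩ := exists_disjoint_hit X Y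
    (fun y => (S.filter (fun O => ¬ Heavy τ i t O y)).image
      (fun O => X.filter (fun v => ¬ Asks τ i O (zz i v) y)))
    (2 * V i t * (V i t + 1)) (Lp i t) hXne
    (by
      intro y _ z hz
      rw [Finset.mem_image] at hz
      obtain ⟨O, hO, rfl⟩ := hz
      rw [Finset.mem_filter] at hO
      refine ⟨Finset.filter_subset _ _, ?_⟩
      have h1 := hO.2
      unfold Heavy at h1
      rw [hcard] at h1
      have h2 := Finset.card_filter_add_card_filter_not (s := X)
        (fun v => Asks τ i O (zz i v) y)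
      omega)
    (by
      intro y _
      refine Finset.card_image_le.trans ((Finset.card_filter_le _ _).trans hSc))
    (by omega)
    (by
      rw [hXc]
      refine le_trans (Nat.mul_le_mul_left 4 (Nat.mul_le_mul_right _ hYc')) hroom)
  -- the references
  obtain ⟨R, hR1, hR2⟩ := exists_hit X
    (((S ×ˢ Y).filter (fun p => Heavy τ i t p.1 p.2)).image
      (fun p => X.filter (fun v => Asks τ i p.1 (zz i v) p.2)))
    (2 * V i t * (V i t + 1) + m t + 1) hXne
    (by
      intro z hz
      rw [Finset.mem_image] at hz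
      obtain ⟨p, hp, rfl⟩ := hz
      rw [Finset.mem_filter] at hp
      refine ⟨Finset.filter_subset _ _, ?_⟩
      have h1 := hp.2
      unfold Heavy at h1
      rw [hcard] at h1
      omega)
    (by
      refine Finset.card_image_le.trans ((Finset.card_filter_le _ _).trans ?_)
      rw [Finset.card_product]
      calc S.card * Y.card ≤ 2 ^ (2 * V i t * (V i t + 1)) * 2 ^ (m (t - D i) + 1) :=
            Nat.mul_le_mul hSc hYc'
        _ = 2 ^ (2 * V i t * (V i t + 1) + (m (t - D i) + 1)) := (pow_add _ _ _).symm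
        _ ≤ 2 ^ (2 * V i t * (V i t + 1) + m t + 1) :=
            Nat.pow_le_pow_right (by norm_num) (by omega))
  refine ⟨⟨P, R⟩, ?_⟩
  constructor
  · intro y l
    exact (hXm _).1 (hP1 y l)
  · intro l
    exact (hXm _).1 (hR1 l)
  · intro y y' l l' hy hy' hl hl' h
    exact hP2 y ((hY y).2 hy) y' ((hY y').2 hy') l hl l' hl' h
  · intro W y hy hh
    obtain ⟨l, hl, h⟩ := hP3 y ((hY y).2 hy)
      (X.filter (fun v => ¬ Asks τ i (trF (OO τ) (V i t) W) (zz i v) y))
      (Finset.mem_image.2 ⟨trF (OO τ) (V i t) W, Finset.mem_filter.2 ⟨hS W, hh⟩, rfl⟩)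
    exact ⟨l, hl, (Finset.mem_filter.1 h).2⟩
  · intro W y hy hh
    obtain ⟨l, hl, h⟩ := hR2
      (X.filter (fun v => Asks τ i (trF (OO τ) (V i t) W) (zz i v) y))
      (Finset.mem_image.2 ⟨(trF (OO τ) (V i t) W, y), Finset.mem_filter.2
        ⟨Finset.mk_mem_product (hS W) ((hY y).2 hy), hh⟩, rfl⟩)
    exact ⟨l, by omega, (Finset.mem_filter.1 h).2⟩

end Pool.Agent.Helper21.AX
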