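import Pool.Agent.Helper21.AX.H4a

/-!
Project AX (MP_4a5e7e_lc): properties of the tests.
-/

namespace Pool.Agent.Helper21.AX

open Pool.Agent.Helper5.SX

variable {τ : ℕ → Task}

theorem xx_hits (hτ : Small τ) {i t : ℕ} (ht : U i + D i ≤ t) :
    Hits τ i t (trF (OO τ) (V i t)) (xx τ i t) := by
  have h := exists_hits hτ ht
  unfold xx XX pr
  rw [dif_pos h]
  exact h.choose_spec

/-- Cutting the oracle at `V i t` does not change the questions at level `t`: `loc_qa`. -/
theorem qa_trF (hτ : Small τ) {i t : ℕ} (W : Cfg) {v : Str} (hv : v.length = m t) (j : ℕ) :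
    qa τ i (trF (OO τ) (V i t) W) (zz i v) j = qa τ i (OO τ W) (zz i v) j := by
  obtain ⟨Q, -, hQ, hf⟩ := loc_qa hτ hv (OO τ W)
  exact congrFun (hf (trF (OO τ) (V i t) W) fun q hq =>
    ⟨fun h => h.1, fun h => ⟨h, hQ q hq⟩⟩) j

private theorem H4b_asks (hτ : Small τ) {i t : ℕ} (W : Cfg) {v : Str} (hv : v.length = m t)
    (y : Str) :
    Asks τ i (trF (OO τ) (V i t) W) (zz i v) y ↔ Asks τ i (OO τ W) (zz i v) y := by
  unfold Asks
  exact exists_congr fun j => by rw [qa_trF hτ W hv j]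

private theorem H4b_heavy (hτ : Small τ) {i t : ℕ} (W : Cfg) (y : Str) :
    Heavy τ i t (trF (OO τ) (V i t) W) y ↔ Heavy τ i t (OO τ W) y := by
  have h : {v : Str | v.length = m t ∧ Asks τ i (trF (OO τ) (V i t) W) (zz i v) y} =
      {v : Str | v.length = m t ∧ Asks τ i (OO τ W) (zz i v) y} := by
    ext v
    exact and_congr_right fun hv => H4b_asks hτ W hv y
  unfold Heavy
  rw [h]

/-- `xx_hits` and `qa_trF` (`Asks` and `Heavy` are defined through `qa` on strings of length
`m t`). -/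
theorem light (hτ : Small τ) {i t : ℕ} (ht : U i + D i ≤ t) (W : Cfg) {y : Str}
    (hy : y.length ≤ m (t - D i)) (h : ¬ Heavy τ i t (OO τ W) y) :
    ∃ l < Lp i t, ¬ Asks τ i (OO τ W) (zz i ((xx τ i t).P y l)) y := by
  have hx := xx_hits hτ ht
  obtain ⟨l, hl, hn⟩ := hx.light W y hy fun h' => h ((H4b_heavy hτ W y).1 h')
  exact ⟨l, hl, fun h' => hn ((H4b_asks hτ W (hx.P_len y l) y).2 h')⟩

/-- As `light`. -/
theorem heavy (hτ : Small τ) {i t : ℕ} (ht : U i + D i ≤ t) (W : Cfg) {y : Str}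
    (hy : y.length ≤ m (t - D i)) (h : Heavy τ i t (OO τ W) y) :
    ∃ l < Lp i t, Asks τ i (OO τ W) (zz i ((xx τ i t).R l)) y := by
  have hx := xx_hits hτ ht
  obtain ⟨l, hl, hn⟩ := hx.heavy W y hy ((H4b_heavy hτ W y).2 h)
  exact ⟨l, hl, (H4b_asks hτ W (hx.R_len l) y).1 hn⟩

/-- The owner of a test instance: `Hits.inj`, applied to `y` and to the string chosen by `own`
(both have length at most `m (t - D i)` by `TestLev` and `lev_le_iff`). -/
theorem own_eq (hτ : Small τ) {i t : ℕ} {v y : Str} (h : Tests (xx τ) i t v y) :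
    own (xx τ) i t v = some y := by
  have hex : ∃ y, Tests (xx τ) i t v y := ⟨y, h⟩
  have hlev : ∀ {z : Str}, Tests (xx τ) i t v z → z.length ≤ m (t - D i) := by
    intro z hz
    have h1 : lev z.length + D i ≤ t := hz.2.1.1
    exact lev_le_iff.1 (by omega)
  have ht : U i + D i ≤ t := by
    have h1 : lev y.length + D i ≤ t := h.2.1.1
    have h2 : U i ≤ lev y.length := h.1
    omega
  have hc := hex.choose_spec
  obtain ⟨l, hl, hlv⟩ := h.2.2
  obtain ⟨l', hl', hlv'⟩ := hc.2.2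
  have he : hex.choose = y := by
    have := (xx_hits hτ ht).inj y hex.choose l l' (hlev h) (hlev hc) hl hl'
      (hlv.trans hlv'.symm)
    exact this.symm
  unfold own
  rw [dif_pos hex, he]

end Pool.Agent.Helper21.AX
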