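import Pool.Agent.Helper21.AX.N1

/-!
Project AX (MP_4a5e7e_lc): numerics of one level.
-/

namespace Pool.Agent.Helper21.AX

/-- The number of strings seen by a reduction. -/
theorem see_le_V {i r : ℕ} (hr : r ≤ i) (t : ℕ) :
    m t + i + 2 + 2 * ((m t + i + 2) ^ r + r) ≤ V i t := by
  unfold V
  have h0 := two_le_m t
  obtain ⟨a, ha⟩ : ∃ a, a = m t + i + 2 := ⟨_, rfl⟩
  rw [← ha]
  have h1 : 2 ≤ a := by omega
  have h2 : a ^ r ≤ a ^ i := Nat.pow_le_pow_right (by omega) hr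
  have h3 : a ^ (i + 1) = a ^ i * a := pow_succ a i
  have h4 : 2 * a ^ i ≤ a ^ (i + 1) := by
    rw [h3]
    nlinarith [Nat.zero_le (a ^ i)]
  have h5 : a ≤ a ^ (i + 1) := by
    rw [h3]
    exact Nat.le_mul_of_pos_left _ (Nat.pow_pos (by omega))
  have h6 : r ≤ a := by omega
  omega

/-- Link strings are longer than the square of what their acceptance depends on. Proof: with
`μ = m (t - D i) ≥ n` (`lev_le_iff`) and `m t = μ ^ (2 ^ (i + 4))` we have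
`n + 2 ^ (n ^ c + c + 1) ≤ 2 ^ (n ^ c + c + n + 2)` and
`2 (n ^ c + c + n + 2) ≤ 2 (μ ^ i + i + μ + 2) < μ ^ (2 ^ (i + 4))` (`μ ≥ 2`; use
`2 ^ (i + 4) ≥ i + 16`, `μ ^ (i + 16) ≥ 2 ^ 16 * μ ^ i`, ...). -/
theorem link_lt {i c n t : ℕ} (hc : c ≤ i) (ht : lev n + D i ≤ t) :
    (n + 2 * 2 ^ (n ^ c + c)) ^ 2 < 2 ^ (m t + i + 2) := by
  obtain ⟨s, rfl⟩ : ∃ s, t = s + D i := ⟨t - D i, by omega⟩
  have hn : n ≤ m s := lev_le_iff.1 (by omega)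
  have hm : m (s + D i) = m s ^ 2 ^ (i + 4) := m_add s (i + 4)
  have h2 := two_le_m s
  obtain ⟨μ, hμ⟩ : ∃ μ, μ = m s := ⟨_, rfl⟩
  rw [← hμ] at hn hm h2
  have hnc : n ^ c ≤ μ ^ i :=
    (Nat.pow_le_pow_left hn c).trans (Nat.pow_le_pow_right (by omega) hc)
  have hi : i < 2 ^ i := Nat.lt_two_pow_self
  have hi' : 2 ^ i ≤ μ ^ i := Nat.pow_le_pow_left h2 i
  have he : i + 16 ≤ 2 ^ (i + 4) := by
    have : 2 ^ (i + 4) = 16 * 2 ^ i := by ring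
    omega
  have hP : μ ^ (i + 16) ≤ m (s + D i) := by
    rw [hm]
    exact Nat.pow_le_pow_right (by omega) he
  have h16 : 2 ^ 15 * μ ≤ μ ^ 16 := by
    have h15 : 2 ^ 15 ≤ μ ^ 15 := Nat.pow_le_pow_left h2 15
    calc 2 ^ 15 * μ ≤ μ ^ 15 * μ := Nat.mul_le_mul_right _ h15
      _ = μ ^ 16 := by ring
  have hQ : μ ^ (i + 16) = μ ^ i * μ ^ 16 := pow_add μ i 16
  have hμi : 1 ≤ μ ^ i := Nat.one_le_iff_ne_zero.2 (by positivity)
  have hA : 2 ^ 15 * μ ≤ μ ^ (i + 16) := by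
    rw [hQ]
    exact h16.trans (Nat.le_mul_of_pos_left _ hμi)
  have hB : 2 ^ 15 * μ ^ i ≤ μ ^ (i + 16) := by
    rw [hQ, mul_comm]
    exact Nat.mul_le_mul_left _ ((Nat.le_mul_of_pos_right _ (by omega)).trans h16)
  have hkey : 2 * (n + n ^ c + c + 2) < m (s + D i) + i + 2 := by
    omega
  have hn2 : n < 2 ^ n := Nat.lt_two_pow_self
  have h7 : n + 2 * 2 ^ (n ^ c + c) ≤ 2 ^ (n + n ^ c + c + 2) := by
    have e1 : 2 ^ (n + n ^ c + c + 2) = 2 ^ n * (4 * 2 ^ (n ^ c + c)) := by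
      rw [show n + n ^ c + c + 2 = n + (2 + (n ^ c + c)) by ring, pow_add, pow_add]
      norm_num
    rw [e1]
    have e2 : 1 ≤ 2 ^ (n ^ c + c) := Nat.one_le_two_pow
    have e3 : 1 ≤ 2 ^ n := Nat.one_le_two_pow
    generalize 2 ^ (n ^ c + c) = w at *
    generalize 2 ^ n = v at *
    nlinarith [Nat.mul_le_mul e3 e2]
  calc (n + 2 * 2 ^ (n ^ c + c)) ^ 2 ≤ (2 ^ (n + n ^ c + c + 2)) ^ 2 := Nat.pow_le_pow_left h7 2
    _ = 2 ^ (2 * (n + n ^ c + c + 2)) := by rw [← pow_mul, mul_comm]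
    _ < 2 ^ (m (s + D i) + i + 2) := Nat.pow_lt_pow_right (by norm_num) hkey

end Pool.Agent.Helper21.AX
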