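import Pool.Agent.Helper21.AX.S4
import Pool.Agent.Helper21.AX.N1b
import Pool.Agent.Helper21.AX.C1

/-!
Project AX (MP_4a5e7e_lc): locality of the choice of the instance.
-/

namespace Pool.Agent.Helper21.AX

open Pool.Agent.Helper5.SX

variable {τ : ℕ → Task} {X : ℕ → ℕ → PR}

/-- The bounds for the numbers of the tasks. -/
def Small (τ : ℕ → Task) : Prop := ∀ i, (τ i).c ≤ i ∧ (τ i).r ≤ i ∧ (τ i).k ≤ i

/-- The test strings have the right lengths. -/
def Len (X : ℕ → ℕ → PR) : Prop :=
  ∀ i t, (∀ y l, ((X i t).P y l).length = m t) ∧ ∀ l, ((X i t).R l).length = m t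

/-- `pr` always has the right lengths: by cases in the definition. -/
theorem len_XX (F : Cfg → Set Str) : Len (XX τ F) := by
  intro i t
  unfold XX pr
  split_ifs with h
  · exact ⟨h.choose_spec.P_len, h.choose_spec.R_len⟩
  · exact ⟨fun _ _ => List.length_replicate, fun _ => List.length_replicate⟩

/-- The questions of the reduction `i` on a test instance of level `t` depend on at most `V i t`
strings of length at most `V i t`: `loc_out`, `see_le_V`, `Loc.map`, `zz_length`. Stated for the
function of `j`. -/
theorem loc_qa (hτ : Small τ) {i t : ℕ} {v : Str} (hv : v.length = m t) :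
    Loc (fun O => fun j => qa τ i O (zz i v) j) (V i t) (V i t) := by
  have h1 := see_le_V (hτ i).2.1 t
  have h2 : (zz i v).length = m t + i + 2 := by rw [zz_length, hv]
  have h3 := (loc_out (τ i).g (zz i v) ((zz i v).length ^ (τ i).r + (τ i).r)).map
    (fun o => fun j : ℕ => o.bind
      (fun s' => if j < (τ i).k then some (s' (j + 1)) else none))
  refine h3.mono ?_ ?_
  · rw [h2]
    omega
  · rw [h2]
    omega

open Classical in
private theorem L1_find (P Q : ℕ → Prop) (h : P = Q) :
    (if h : ∃ e, P e then Nat.find h else 0) = if h : ∃ e, Q e then Nat.find h else 0 := by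
  subst h
  rfl

open Classical in
private theorem L1_dite {α : Type} (P Q : ℕ → ℕ → Prop) (f : ℕ → α) (a b : α) (h : P = Q)
    (hab : a = b) :
    (if h : ∃ e : ℕ, P e.unpair.1 e.unpair.2 then f (Nat.find h) else a) =
      if h : ∃ e : ℕ, Q e.unpair.1 e.unpair.2 then f (Nat.find h) else b := by
  subst h
  subst hab
  rfl

/-- If two oracles give the same questions on all the test instances and reference instances of `y`,
then the instance of `y` is the same.

Proof: `Free τ X i O y t l ↔ Free τ X i O' y t l` for all `t`, `l` and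
`RefAt τ X i O y e ↔ RefAt τ X i O' y e` for all `e` (the number `e / (k + 1)` is less than
`Lp i (lev y.length + D i)`), so the two predicates in the definitions of `zst` and of `eidx` are
equal (`funext`, `propext`), and `zst`, `hh` are functions of these predicates (`simp only` or
`congr`/`subst` after writing the definitions as functions of the predicate). -/
theorem zst_congr {i : ℕ} {O O' : Set Str} {y : Str}
    (hP : ∀ t l, TestLev i (lev y.length) t → l < Lp i t →
      ∀ j, qa τ i O' (zz i ((X i t).P y l)) j = qa τ i O (zz i ((X i t).P y l)) j)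
    (hR : ∀ l < Lp i (lev y.length + D i),
      ∀ j, qa τ i O' (zz i ((X i (lev y.length + D i)).R l)) j =
        qa τ i O (zz i ((X i (lev y.length + D i)).R l)) j) :
    zst τ X i O' y = zst τ X i O y ∧ hh τ X i O' y = hh τ X i O y ∧
      (Special τ X i O' y ↔ Special τ X i O y) := by
  have hF : ∀ t l, Free τ X i O' y t l ↔ Free τ X i O y t l := by
    intro t l
    unfold Free Asks
    constructor
    · rintro ⟨h1, h2, h3⟩
      refine ⟨h1, h2, ?_⟩
      rintro ⟨j, hj⟩
      exact h3 ⟨j, (hP t l h1 h2 j).trans hj⟩
    · rintro ⟨h1, h2, h3⟩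
      refine ⟨h1, h2, ?_⟩
      rintro ⟨j, hj⟩
      exact h3 ⟨j, (hP t l h1 h2 j).symm.trans hj⟩
  have hA : ∀ e, RefAt τ X i O' y e ↔ RefAt τ X i O y e := by
    intro e
    unfold RefAt
    refine and_congr_right fun he => ?_
    have h1 : e / ((τ i).k + 1) < Lp i (lev y.length + D i) :=
      Nat.div_lt_of_lt_mul (by rw [mul_comm]; exact he)
    rw [hR _ h1]
  have hF' : Free τ X i O' y = Free τ X i O y := by
    funext t l
    exact propext (hF t l)
  have hA' : RefAt τ X i O' y = RefAt τ X i O y := by
    funext e
    exact propext (hA e)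
  have hE : eidx τ X i O' y = eidx τ X i O y := by
    unfold eidx
    exact L1_find _ _ hA'
  have hH : hh τ X i O' y = hh τ X i O y := by
    unfold hh
    rw [hE]
  refine ⟨?_, hH, ?_⟩
  · unfold zst
    exact L1_dite _ _ (fun e => zz i ((X i e.unpair.1).P y e.unpair.2)) _ _ hF' hH
  · unfold Special
    simp only [hF']

end Pool.Agent.Helper21.AX
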