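import Pool.Agent.Helper21.AX.L1

/-!
Project AX (MP_4a5e7e_lc): locality of the instance.
-/

namespace Pool.Agent.Helper21.AX

open Pool.Agent.Helper5.SX

variable {τ : ℕ → Task} {X : ℕ → ℕ → PR}

/-- The instance of `y` depends on at most `Kap` strings of length at most `Kap`.

Proof: put `t₁ = lev y.length + D i + E i`, `n = Lp i t₁`, `L = V i t₁`. For `a ≤ E i` let `f (a n + l)`,
`l < n`, be the questions on the test instance number `l` of level `lev y.length + D i + a` (levels
`t ≤ t₁`, `Lp i t ≤ n`, `V i t ≤ L` by monotonicity), and let `f ((E i + 1) n + l)` be the questions on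
the reference instance number `l`. `Loc.family` with `(E i + 2) n` functions, `b = L`; the number of
strings is at most `(E i + 2) n L = Kap i (lev y.length)` and the lengths are at most `L ≤ Kap`. Then
`zst_congr`. -/
theorem loc_zst (hτ : Small τ) (hX : Len X) (i : ℕ) (y : Str) :
    Loc (fun O => zst τ X i O y) (Kap i (lev y.length)) (Kap i (lev y.length)) := by
  intro O
  obtain ⟨t₁, ht₁⟩ : ∃ t₁, t₁ = lev y.length + D i + E i := ⟨_, rfl⟩
  obtain ⟨n, hn⟩ : ∃ n, n = Lp i t₁ := ⟨_, rfl⟩
  obtain ⟨L, hL⟩ : ∃ L, L = V i t₁ := ⟨_, rfl⟩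
  have hL1 : 1 ≤ L := by
    rw [hL]
    unfold V
    have : 0 < (m t₁ + i + 2) ^ (i + 1) := Nat.pow_pos (by omega)
    omega
  have hnL : n = L ^ 3 := by rw [hn, hL]; rfl
  have hn1 : 1 ≤ n := by rw [hnL]; exact Nat.one_le_pow _ _ hL1
  have hK : Kap i (lev y.length) = (E i + 2) * n * L := by
    unfold Kap
    rw [← ht₁, ← hL, hnL]
    ring
  have hLK : L ≤ Kap i (lev y.length) := by
    rw [hK]
    exact Nat.le_mul_of_pos_left _ (Nat.mul_pos (by omega) hn1)
  let f : ℕ → Set Str → (ℕ → Option Str) := fun k O j =>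
    if k / n ≤ E i then
      qa τ i O (zz i ((X i (lev y.length + D i + k / n)).P y (k % n))) j
    else qa τ i O (zz i ((X i (lev y.length + D i)).R (k % n))) j
  have hf : ∀ k < (E i + 2) * n, Loc (f k) L L := by
    intro k _
    by_cases hk : k / n ≤ E i
    · have e : f k = fun O => fun j =>
          qa τ i O (zz i ((X i (lev y.length + D i + k / n)).P y (k % n))) j := by
        funext O j
        exact if_pos hk
      rw [e]
      have hV : V i (lev y.length + D i + k / n) ≤ L := by
        rw [hL]
        exact V_mono i (by omega)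
      exact (loc_qa hτ ((hX i _).1 y (k % n))).mono hV hV
    · have e : f k = fun O => fun j =>
          qa τ i O (zz i ((X i (lev y.length + D i)).R (k % n))) j := by
        funext O j
        exact if_neg hk
      rw [e]
      have hV : V i (lev y.length + D i) ≤ L := by
        rw [hL]
        exact V_mono i (by omega)
      exact (loc_qa hτ ((hX i _).2 (k % n))).mono hV hV
  obtain ⟨Q, h1, h2, h3⟩ := Loc.family ((E i + 2) * n) f hf O
  refine ⟨Q, h1.trans hK.ge, fun q hq => (h2 q hq).trans hLK, fun O' hO' => ?_⟩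
  have h4 := h3 O' hO'
  refine (zst_congr ?_ ?_).1
  · intro t l ht hl j
    obtain ⟨a, rfl⟩ := Nat.exists_eq_add_of_le ht.1
    have ha : a ≤ E i := by
      have := ht.2
      omega
    have hln : l < n := lt_of_lt_of_le hl (by rw [hn]; exact Lp_mono i (by omega))
    have e1 : (n * a + l) / n = a := by
      rw [Nat.mul_add_div hn1, Nat.div_eq_of_lt hln, Nat.add_zero]
    have e2 : (n * a + l) % n = l := by
      rw [Nat.mul_add_mod, Nat.mod_eq_of_lt hln]
    have hlt : n * a + l < (E i + 2) * n := by
      have : n * a ≤ n * E i := Nat.mul_le_mul_left n ha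
      nlinarith
    have h5 := congrFun (h4 (n * a + l) hlt) j
    simp only [f, e1, e2, if_pos ha] at h5
    exact h5
  · intro l hl j
    have hln : l < n := lt_of_lt_of_le hl (by rw [hn]; exact Lp_mono i (by omega))
    have e1 : (n * (E i + 1) + l) / n = E i + 1 := by
      rw [Nat.mul_add_div hn1, Nat.div_eq_of_lt hln, Nat.add_zero]
    have e2 : (n * (E i + 1) + l) % n = l := by
      rw [Nat.mul_add_mod, Nat.mod_eq_of_lt hln]
    have hlt : n * (E i + 1) + l < (E i + 2) * n := by
      nlinarith
    have h5 := congrFun (h4 (n * (E i + 1) + l) hlt) j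
    simp only [f, e1, e2, if_neg (show ¬ (E i + 1 ≤ E i) by omega)] at h5
    exact h5

end Pool.Agent.Helper21.AX
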