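import Pool.Agent.Helper21.AX.L2a

/-!
Project AX (MP_4a5e7e_lc): locality of the rule.
-/

namespace Pool.Agent.Helper21.AX

open Pool.Agent.Helper5.SX

variable {τ : ℕ → Task} {X : ℕ → ℕ → PR}

/-- The walk rule depends on the instance only. -/
theorem L2b_RW {b b' : Bool} {j i : ℕ} {y q : Str} (hq : q = wq b b' j i y) {O O' : Set Str}
    (hz : zst τ X i O' y = zst τ X i O y) (h : RW τ X O q) : RW τ X O' q := by
  obtain ⟨i₁, j₁, y₁, hA, h⟩ := h
  rcases h with ⟨h1, h2⟩ | ⟨h1, h2⟩ | ⟨h1, h2⟩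
  · exact ⟨i₁, j₁, y₁, hA, Or.inl ⟨h1, h2⟩⟩
  · obtain ⟨-, -, -, e1, e2⟩ := wq_inj (hq.symm.trans h1)
    subst e1 e2
    exact ⟨i, j₁, y, hA, Or.inr (Or.inl ⟨h1, by rw [hz]; exact h2⟩)⟩
  · obtain ⟨-, -, -, e1, e2⟩ := wq_inj (hq.symm.trans h1)
    subst e1 e2
    exact ⟨i, j₁, y, hA, Or.inr (Or.inr ⟨h1, by rw [hz]; exact h2⟩)⟩

/-- The owner of a test instance is tested. -/
theorem L2b_own {i t : ℕ} {v y : Str} (h : own X i t v = some y) : Tests X i t v y := by
  unfold own at h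
  split_ifs at h with h1
  have h2 := Option.some.inj h
  rw [← h2]
  exact h1.choose_spec

/-- The rule is local.

Proof. Three cases. (1) `q = tstr (zz i v) u` with `v.length = m t`, `own X i t v = some y`,
`V i t < q.length`, `u.length = 2 ^ (zz i v).length`: the data `i v u` are determined by `q`
(`tstr_inj`, `zz_inj`), `t` by `v` (`m_inj`), `y` by `own`. `RW` is false (`tstr_ne_wq`), `RC` does not
depend on `O`, and `RL` is equivalent to `AccU O (τ i).a y (T τ i y.length) u`: `loc_accU` with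
`κ = y.length + 2 * T τ i y.length`; `link_lt` (from `own` we get `TestLev i (lev y.length) t`) gives
`κ ^ 2 < 2 ^ (zz i v).length ≤ q.length`, in particular `κ < q.length`.
(2) `q = wq b b' j i y`, `Act i y` and `J i (lev y.length) + 1 ≤ j`: `RC`, `RL` are false, `RW` depends on
`zst τ X i O y` only: `loc_zst`, `κ = Kap i (lev y.length)`, `κ ^ 2 < J i (lev y.length) < j < q.length`
(`lt_wq_length`); `κ ≤ κ ^ 2`.
(3) In all the other cases take `Q = ∅`, `κ = 0`: the rule does not depend on `O` (for `wq` with `j` not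
greater than `J` the stop and the bit clause are false). -/
theorem rule_loc (hτ : Small τ) (hX : Len X) (W : Cfg) (O : Set Str) (q : Str) :
    ∃ (Q : Finset Str) (κ : ℕ), Q.card ≤ κ ∧ (∀ p ∈ Q, p.length ≤ κ ∧ p.length < q.length) ∧
      κ ^ 2 ≤ q.length ∧ ∀ O' : Set Str, (∀ p ∈ Q, (p ∈ O' ↔ p ∈ O)) →
        (Rule τ X W O' q ↔ Rule τ X W O q) := by
  classical
  by_cases hA : ∃ (i t : ℕ) (v u y : Str), q = tstr (zz i v) u ∧ v.length = m t ∧
      V i t < q.length ∧ own X i t v = some y ∧ u.length = 2 ^ (zz i v).length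
  · obtain ⟨i, t, v, u, y, hq, hv, hV, ho, hu⟩ := hA
    have key : ∀ O₁ : Set Str, Rule τ X W O₁ q ↔
        RC W q ∨ AccU O₁ (τ i).a y (T τ i y.length) u := by
      intro O₁
      constructor
      · rintro (h | ⟨i', t', v', u', y', h1, h2, -, h4, -, h6⟩ | ⟨i', j', y', -, h⟩)
        · exact Or.inl h
        · right
          obtain ⟨e1, e2⟩ := tstr_inj (hq.symm.trans h1)
          obtain ⟨e3, e4⟩ := zz_inj e1
          subst e2 e3 e4
          have e5 : t = t' := m_inj (hv.symm.trans h2)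
          subst e5
          have e6 : y = y' := Option.some.inj (ho.symm.trans h4)
          subst e6
          exact h6
        · exfalso
          rcases h with ⟨h, -⟩ | ⟨h, -⟩ | ⟨h, -⟩
          · exact tstr_ne_wq _ _ _ _ _ _ _ (hq.symm.trans h)
          · exact tstr_ne_wq _ _ _ _ _ _ _ (hq.symm.trans h)
          · exact tstr_ne_wq _ _ _ _ _ _ _ (hq.symm.trans h)
      · rintro (h | h)
        · exact Or.inl h
        · exact Or.inr (Or.inl ⟨i, t, v, u, y, hq, hv, hV, ho, hu, h⟩)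
    obtain ⟨Q, h1, h2, h3⟩ := loc_accU (τ i).a y (T τ i y.length) u O
    have hT := (L2b_own ho).2.1.1
    have hlt := link_lt (i := i) (c := (τ i).c) (n := y.length) (t := t) (hτ i).1 hT
    have hql : 2 ^ (m t + i + 2) < q.length := by
      rw [hq, tstr_length, hu, zz_length, hv]
      omega
    have hk : (y.length + 2 * T τ i y.length) ^ 2 < q.length := hlt.trans hql
    have hk1 : y.length + 2 * T τ i y.length < q.length :=
      (Nat.le_self_pow two_ne_zero _).trans_lt hk
    refine ⟨Q, y.length + 2 * T τ i y.length, h1.trans (Nat.le_add_left _ _), fun p hp =>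
      ⟨h2 p hp, (h2 p hp).trans_lt hk1⟩, hk.le, fun O' hO' => ?_⟩
    have h4 := h3 O' hO'
    simp only at h4
    rw [key O', key O, h4]
  by_cases hB : ∃ (b b' : Bool) (j i : ℕ) (y : Str), q = wq b b' j i y ∧
      J i (lev y.length) + 1 ≤ j
  · obtain ⟨b, b', j, i, y, hq, hj⟩ := hB
    have key : ∀ O₁ : Set Str, Rule τ X W O₁ q ↔ RW τ X O₁ q := by
      intro O₁
      constructor
      · rintro (⟨h, w, h1, -⟩ | ⟨i', t', v', u', y', h1, -⟩ | h)
        · exact absurd (h1.symm.trans hq) (tstr_ne_wq _ _ _ _ _ _ _)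
        · exact absurd (h1.symm.trans hq) (tstr_ne_wq _ _ _ _ _ _ _)
        · exact h
      · exact fun h => Or.inr (Or.inr h)
    obtain ⟨Q, h1, h2, h3⟩ := loc_zst hτ hX i y O
    have hjl : j < q.length := by
      rw [hq]
      exact lt_wq_length _ _ _ _ _
    have hk : Kap i (lev y.length) ^ 2 < q.length := by
      unfold J at hj
      omega
    have hk1 : Kap i (lev y.length) < q.length :=
      (Nat.le_self_pow two_ne_zero _).trans_lt hk
    refine ⟨Q, Kap i (lev y.length), h1, fun p hp => ⟨h2 p hp, (h2 p hp).trans_lt hk1⟩, hk.le,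
      fun O' hO' => ?_⟩
    have h4 := h3 O' hO'
    simp only at h4
    rw [key O', key O]
    exact ⟨L2b_RW hq h4.symm, L2b_RW hq h4⟩
  · have key : ∀ O₁ O₂ : Set Str, Rule τ X W O₁ q → Rule τ X W O₂ q := by
      rintro O₁ O₂ (h | ⟨i, t, v, u, y, h1, h2, h3, h4, h5, -⟩ | ⟨i, j, y, hAct, h⟩)
      · exact Or.inl h
      · exact absurd ⟨i, t, v, u, y, h1, h2, h3, h4, h5⟩ hA
      · rcases h with ⟨h1, h2⟩ | ⟨h1, h2⟩ | ⟨h1, e, h2, -⟩
        · exact Or.inr (Or.inr ⟨i, j, y, hAct, Or.inl ⟨h1, h2⟩⟩)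
        · exact absurd ⟨false, true, j, i, y, h1, (Nat.le_add_right _ _).trans h2⟩ hB
        · exact absurd ⟨true, false, j, i, y, h1, h2 ▸ Nat.le_add_right _ _⟩ hB
    refine ⟨∅, 0, by simp, by simp, by simp, fun O' _ => ⟨key O' O, key O O'⟩⟩

end Pool.Agent.Helper21.AX
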