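import Pool.Agent.Helper21.AX.L1

/-!
Project AX (MP_4a5e7e_lc): the rule depends on few tests.
-/

namespace Pool.Agent.Helper21.AX

open Pool.Agent.Helper5.SX

variable {τ : ℕ → Task} {X : ℕ → ℕ → PR}

private theorem L2c_V_le_J {i s t : ℕ} (ht : TestLev i s t) : V i t ≤ J i s := by
  have h1 : V i t ≤ V i (s + D i + E i) := V_mono i ht.2
  have h2 : V i (s + D i + E i) ≤ V i (s + D i + E i) ^ 4 := Nat.le_self_pow (by norm_num) _
  have h3 : V i (s + D i + E i) ^ 4 ≤ (E i + 2) * V i (s + D i + E i) ^ 4 :=
    Nat.le_mul_of_pos_left _ (by omega)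
  have h4 : Kap i s ≤ Kap i s ^ 2 := Nat.le_self_pow (by norm_num) _
  have h5 : Kap i s = (E i + 2) * V i (s + D i + E i) ^ 4 := rfl
  have h6 : J i s = Kap i s ^ 2 + 1 := rfl
  omega

private theorem L2c_wq_length (b b' : Bool) (j i : ℕ) (y : Str) :
    j < (wq b b' j i y).length := by
  unfold wq
  simp only [List.length_cons, List.length_append, List.length_replicate]
  omega

open Classical in
private theorem L2c_find (P Q : ℕ → Prop) (h : P = Q) (hp : ∃ e, P e) (hq : ∃ e, Q e) :
    Nat.find hp = Nat.find hq := by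
  subst h
  rfl

private theorem L2c_zst {X' : ℕ → ℕ → PR} {i : ℕ} {O : Set Str} {y : Str}
    (hT : ∀ t, TestLev i (lev y.length) t → X i t = X' i t) :
    zst τ X i O y = zst τ X' i O y := by
  classical
  have hF : Free τ X i O y = Free τ X' i O y := by
    funext t l
    apply propext
    unfold Free
    constructor
    · rintro ⟨h1, h2, h3⟩
      refine ⟨h1, h2, ?_⟩
      rwa [← hT t h1]
    · rintro ⟨h1, h2, h3⟩
      refine ⟨h1, h2, ?_⟩
      rwa [hT t h1]
  have h0 : X i (lev y.length + D i) = X' i (lev y.length + D i) :=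
    hT _ ⟨le_rfl, Nat.le_add_right _ _⟩
  have hA : RefAt τ X i O y = RefAt τ X' i O y := by
    funext e
    unfold RefAt
    rw [h0]
  have hH : hh τ X i O y = hh τ X' i O y := by
    unfold hh eidx
    rw [hA]
  have hP : (fun e : ℕ => Free τ X i O y e.unpair.1 e.unpair.2) =
      fun e : ℕ => Free τ X' i O y e.unpair.1 e.unpair.2 := by
    rw [hF]
  by_cases h : ∃ e : ℕ, Free τ X i O y e.unpair.1 e.unpair.2
  · have h' : ∃ e : ℕ, Free τ X' i O y e.unpair.1 e.unpair.2 := by
      rwa [← hF]
    have e1 : zst τ X i O y =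
        zz i ((X i (Nat.find h).unpair.1).P y (Nat.find h).unpair.2) := by
      unfold zst
      rw [dif_pos h]
    have e2 : zst τ X' i O y =
        zz i ((X' i (Nat.find h').unpair.1).P y (Nat.find h').unpair.2) := by
      unfold zst
      rw [dif_pos h']
    have e3 : Nat.find h = Nat.find h' := L2c_find _ _ hP h h'
    rw [e1, e2, e3, hT _ (Nat.find_spec h').1]
  · have h' : ¬ ∃ e : ℕ, Free τ X' i O y e.unpair.1 e.unpair.2 := by
      rwa [← hF]
    have e1 : zst τ X i O y = hh τ X i O y := by
      unfold zst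
      rw [dif_neg h]
    have e2 : zst τ X' i O y = hh τ X' i O y := by
      unfold zst
      rw [dif_neg h']
    rw [e1, e2, hH]

private theorem L2c_own {X' : ℕ → ℕ → PR} {i t : ℕ} (h : X i t = X' i t) (v : Str) :
    own X i t v = own X' i t v := by
  have hP : (fun y => Tests X i t v y) = fun y => Tests X' i t v y := by
    funext y
    unfold Tests
    rw [h]
  have hT : Tests X i t v = Tests X' i t v := hP
  unfold own
  rw [hT]

private theorem L2c_one {X' : ℕ → ℕ → PR} (W : Cfg) (O : Set Str) (q : Str)
    (h : ∀ i t, V i t < q.length → X i t = X' i t)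
    (hq : Rule τ X W O q) : Rule τ X' W O q := by
  rcases hq with hq | hq | hq
  · exact Or.inl hq
  · right
    left
    obtain ⟨i, t, v, u, y, h1, h2, h3, h4, h5, h6⟩ := hq
    refine ⟨i, t, v, u, y, h1, h2, h3, ?_, h5, h6⟩
    rw [← L2c_own (h i t h3) v]
    exact h4
  · right
    right
    obtain ⟨i, j, y, hA, hc⟩ := hq
    have key : J i (lev y.length) < q.length → zst τ X i O y = zst τ X' i O y := by
      intro hJ
      refine L2c_zst fun t ht => h i t ?_
      exact lt_of_le_of_lt (L2c_V_le_J ht) hJ
    refine ⟨i, j, y, hA, ?_⟩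
    rcases hc with ⟨h1, h2⟩ | ⟨h1, h2⟩ | ⟨h1, e, h2, h3⟩
    · exact Or.inl ⟨h1, h2⟩
    · right
      left
      refine ⟨h1, ?_⟩
      rw [← key ?_]
      · exact h2
      · have := L2c_wq_length false true j i y
        rw [← h1] at this
        omega
    · right
      right
      refine ⟨h1, e, h2, ?_⟩
      rw [← key ?_]
      · exact h3
      · have := L2c_wq_length true false j i y
        rw [← h1] at this
        omega

/-- The rule depends only on the tests with `V i t < q.length`.

Proof: `RL` is clear (`own` for `i t` depends only on `X i t`). For `RW` with the zone clause nothing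
is to be shown; the other two clauses need `J i (lev y.length) < j < q.length`, and for all test levels
`V i t ≤ V i (lev y.length + D i + E i) ≤ Kap ≤ J`, so that `zst τ X i O y = zst τ X' i O y`
(`zst` is defined through `X i t`, `TestLev i (lev y.length) t`, and `X i (lev y.length + D i)`). -/
theorem rule_congr {X' : ℕ → ℕ → PR} (W : Cfg) (O : Set Str) (q : Str)
    (h : ∀ i t, V i t < q.length → X i t = X' i t) :
    Rule τ X W O q ↔ Rule τ X' W O q :=
  ⟨L2c_one W O q h, L2c_one W O q fun i t ht => (h i t ht).symm⟩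

end Pool.Agent.Helper21.AX
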