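import Pool.Agent.Helper21.AX.L2b
import Pool.Agent.Helper21.AX.L2c

/-!
Project AX (MP_4a5e7e_lc): the equation of the oracles.
-/

namespace Pool.Agent.Helper21.AX

open Pool.Agent.Helper5.SX

variable {τ : ℕ → Task}

/-- Induction on `L`. -/
theorem length_of_mem_fam {L : ℕ} {W : Cfg} {q : Str} (h : q ∈ fam τ L W) : q.length < L := by
  induction L with
  | zero => exact absurd h (Set.notMem_empty q)
  | succ L ih =>
    rcases h with h | h
    · exact Nat.lt_succ_of_lt (ih h)
    · have := h.1
      omega

/-- The family is increasing and nothing new appears at old lengths. Induction on `L`. -/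
theorem mem_fam_iff {L : ℕ} {W : Cfg} {q : Str} : q ∈ fam τ L W ↔ q ∈ OO τ W ∧ q.length < L := by
  induction L with
  | zero =>
    constructor
    · intro h
      exact absurd h (Set.notMem_empty q)
    · rintro ⟨_, h⟩
      omega
  | succ L ih =>
    rcases lt_trichotomy q.length L with hlt | heq | hgt
    · have h1 : q ∈ fam τ (L + 1) W ↔ q ∈ fam τ L W := by
        constructor
        · rintro (h | h)
          · exact h
          · have := h.1
            omega
        · intro h
          exact Or.inl h
      rw [h1, ih]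
      constructor
      · rintro ⟨h, _⟩
        exact ⟨h, by omega⟩
      · rintro ⟨h, _⟩
        exact ⟨h, hlt⟩
    · subst heq
      constructor
      · intro h
        exact ⟨h, Nat.lt_succ_self _⟩
      · rintro ⟨h, _⟩
        exact h
    · constructor
      · intro h
        have := length_of_mem_fam h
        omega
      · rintro ⟨_, h⟩
        omega

/-- The equation of the oracles.

Proof: with `L = q.length`, `q ∈ OO τ W` iff `q ∈ fam τ (L + 1) W` iff
`Rule τ (XX τ (fam τ L)) W (fam τ L W) q` (`length_of_mem_fam`). For `V i t < L` we have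
`trF (fam τ L) (V i t) = trF (OO τ) (V i t)` (`mem_fam_iff`), so `rule_congr` replaces `XX τ (fam τ L)` by
`xx τ = XX τ (OO τ)`, and `rule_loc` (for `X = xx τ`, `len_XX`) replaces `fam τ L W` by `OO τ W`, which
agree on the strings shorter than `L`. -/
theorem mem_OO (hτ : Small τ) {W : Cfg} {q : Str} : q ∈ OO τ W ↔ Rule τ (xx τ) W (OO τ W) q := by
  have h1 : q ∈ OO τ W ↔ Rule τ (XX τ (fam τ q.length)) W (fam τ q.length W) q := by
    constructor
    · rintro (h | h)
      · exact absurd (length_of_mem_fam h) (lt_irrefl _)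
      · exact h.2
    · intro h
      exact Or.inr ⟨rfl, h⟩
  have h2 : Rule τ (XX τ (fam τ q.length)) W (fam τ q.length W) q ↔
      Rule τ (xx τ) W (fam τ q.length W) q := by
    apply rule_congr
    intro i t hit
    have h3 : trF (fam τ q.length) (V i t) = trF (OO τ) (V i t) := by
      funext W'
      ext p
      constructor
      · rintro ⟨hp, hl⟩
        exact ⟨(mem_fam_iff.1 hp).1, hl⟩
      · rintro ⟨hp, hl⟩
        exact ⟨mem_fam_iff.2 ⟨hp, lt_of_le_of_lt hl hit⟩, hl⟩
    show pr τ i t (trF (fam τ q.length) (V i t)) = pr τ i t (trF (OO τ) (V i t))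
    rw [h3]
  obtain ⟨Q, κ, _, hQ, _, hloc⟩ := rule_loc (X := xx τ) hτ (len_XX _) W (OO τ W) q
  have h4 : Rule τ (xx τ) W (fam τ q.length W) q ↔ Rule τ (xx τ) W (OO τ W) q := by
    apply hloc
    intro p hp
    rw [mem_fam_iff]
    constructor
    · rintro ⟨h, _⟩
      exact h
    · intro h
      exact ⟨h, (hQ p hp).2⟩
  rw [h1, h2, h4]

end Pool.Agent.Helper21.AX
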