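import Pool.Agent.Helper21.AX.L3a

/-!
Project AX (MP_4a5e7e_lc): the dependence on the configuration.
-/

namespace Pool.Agent.Helper21.AX

open Pool.Agent.Helper5.SX

variable {τ : ℕ → Task}

/-- Each string depends on few codes.

Proof: strong induction on `q.length`. If `RC W' q` can hold for some `W'`, that is
`q = tstr (false :: h) w` with `w.length = 2 ^ (h.length + 1)`, then `RL`, `RW` are false for all oracles
(`zz_ne`, `tstr_inj`, `tstr_ne_wq`), and `F = {(false :: h, w)}`. Otherwise `RC` is false for all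
configurations; take `Q`, `κ` from `rule_loc` for `W`, `OO τ W` and `q`, and let `F` be the union of the sets
for the strings of `Q` (`Finset.biUnion`, `Finset.card_biUnion_le`); its number of elements is at most
`κ * κ ≤ q.length`. If `W'` agrees with `W` on `F` then `OO τ W'` agrees with `OO τ W` on `Q`, so
`Rule τ (xx τ) W (OO τ W') q ↔ Rule τ (xx τ) W (OO τ W) q`, and `Rule τ (xx τ) W' (OO τ W') q` is the same
as `Rule τ (xx τ) W (OO τ W') q` since `RC` is false for both. -/
theorem cfg_use (hτ : Small τ) (W : Cfg) (q : Str) : ∃ F : Finset (Str × Str),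
    F.card ≤ q.length ∧ (∀ p ∈ F, p.2.length = 2 ^ p.1.length ∧ p.2.length ≤ q.length) ∧
      ∀ W' : Cfg, (∀ p ∈ F, (W' p.1 = some p.2 ↔ W p.1 = some p.2)) →
        (q ∈ OO τ W' ↔ q ∈ OO τ W) := by
  classical
  induction hn : q.length using Nat.strong_induction_on generalizing q with
  | _ n ih =>
  subst hn
  by_cases hC : ∃ h w : Str, q = tstr (false :: h) w ∧ w.length = 2 ^ (h.length + 1)
  · obtain ⟨h, w, hq, hw⟩ := hC
    have key : ∀ W' : Cfg, q ∈ OO τ W' ↔ W' (false :: h) = some w := by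
      intro W'
      rw [mem_OO hτ]
      constructor
      · rintro (⟨h', w', h1, -, h3⟩ | ⟨i, t, v, u, y, h1, -⟩ | ⟨i, j, y, -, h1⟩)
        · obtain ⟨e1, e2⟩ := tstr_inj (hq.symm.trans h1)
          rw [e1, e2]
          exact h3
        · exfalso
          obtain ⟨e1, -⟩ := tstr_inj (hq.symm.trans h1)
          exact zz_ne _ _ _ e1.symm
        · exfalso
          rcases h1 with ⟨h1, -⟩ | ⟨h1, -⟩ | ⟨h1, -⟩
          · exact tstr_ne_wq _ _ _ _ _ _ _ (hq.symm.trans h1)
          · exact tstr_ne_wq _ _ _ _ _ _ _ (hq.symm.trans h1)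
          · exact tstr_ne_wq _ _ _ _ _ _ _ (hq.symm.trans h1)
      · intro h1
        exact Or.inl ⟨h, w, hq, hw, h1⟩
    have hl : w.length ≤ q.length := by
      rw [hq, tstr_length]
      omega
    refine ⟨{(false :: h, w)}, ?_, ?_, ?_⟩
    · rw [Finset.card_singleton]
      have : 0 < w.length := by rw [hw]; positivity
      omega
    · intro p hp
      rw [Finset.mem_singleton] at hp
      subst hp
      exact ⟨by simpa using hw, hl⟩
    · intro W' hW'
      rw [key W', key W]
      exact hW' _ (Finset.mem_singleton_self _)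
  · have hRC : ∀ W' : Cfg, ¬ RC W' q := by
      rintro W' ⟨h, w, h1, h2, -⟩
      exact hC ⟨h, w, h1, h2⟩
    obtain ⟨Q, κ, hQc, hQ, hκ, hloc⟩ := rule_loc (X := xx τ) hτ (len_XX _) W (OO τ W) q
    have hF : ∀ p : Str, ∃ F : Finset (Str × Str), p ∈ Q → F.card ≤ p.length ∧
        (∀ p' ∈ F, p'.2.length = 2 ^ p'.1.length ∧ p'.2.length ≤ p.length) ∧
        ∀ W' : Cfg, (∀ p' ∈ F, (W' p'.1 = some p'.2 ↔ W p'.1 = some p'.2)) →
          (p ∈ OO τ W' ↔ p ∈ OO τ W) := by
      intro p
      by_cases hp : p ∈ Q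
      · obtain ⟨F, h1, h2, h3⟩ := ih p.length (hQ p hp).2 p rfl
        exact ⟨F, fun _ => ⟨h1, h2, h3⟩⟩
      · exact ⟨∅, fun h => absurd h hp⟩
    choose F hF using hF
    refine ⟨Q.biUnion F, ?_, ?_, ?_⟩
    · refine Finset.card_biUnion_le.trans ?_
      calc ∑ p ∈ Q, (F p).card ≤ ∑ _p ∈ Q, κ :=
            Finset.sum_le_sum fun p hp => (hF p hp).1.trans (hQ p hp).1
        _ = Q.card * κ := by rw [Finset.sum_const, smul_eq_mul]
        _ ≤ κ * κ := Nat.mul_le_mul_right κ hQc
        _ = κ ^ 2 := (sq κ).symm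
        _ ≤ q.length := hκ
    · intro p' hp'
      rw [Finset.mem_biUnion] at hp'
      obtain ⟨p, hp, h1⟩ := hp'
      obtain ⟨h2, h3⟩ := (hF p hp).2.1 p' h1
      exact ⟨h2, h3.trans (hQ p hp).2.le⟩
    · intro W' hW'
      have h1 : ∀ p ∈ Q, (p ∈ OO τ W' ↔ p ∈ OO τ W) := fun p hp =>
        (hF p hp).2.2 W' fun p' hp' => hW' p' (Finset.mem_biUnion.2 ⟨p, hp, hp'⟩)
      have h2 := hloc (OO τ W') h1
      rw [mem_OO hτ, mem_OO hτ, ← h2]
      constructor
      · rintro (h | h)
        · exact absurd h (hRC W')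
        · exact Or.inr h
      · rintro (h | h)
        · exact absurd h (hRC W)
        · exact Or.inr h

end Pool.Agent.Helper21.AX
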