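import Pool.Agent.Helper21.AX.Defs
import Pool.Agent.Helper5.SX.Use

/-!
Project AX (MP_4a5e7e_lc): the list of the tasks.
-/

namespace Pool.Agent.Helper21.AX

open Pool.Agent.Helper5.SX

/-- Proof: `exists_enum` gives a surjection from `ℕ` onto `Cmd` (the first components). Decode `i` with
`Nat.unpair` four times as `(((a, c), (g, r)), (k, _))`, all components at most `i`
(`Nat.unpair_left_le`, `Nat.unpair_right_le`). -/
theorem exists_tasks : ∃ τ : ℕ → Task, (∀ i, (τ i).c ≤ i ∧ (τ i).r ≤ i ∧ (τ i).k ≤ i) ∧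
    ∀ x : Task, ∃ i, τ i = x := by
  obtain ⟨f, _, hf⟩ := exists_enum
  refine ⟨fun i => ⟨(f i.unpair.1.unpair.1.unpair.1).1, i.unpair.1.unpair.1.unpair.2,
    (f i.unpair.1.unpair.2.unpair.1).1, i.unpair.1.unpair.2.unpair.2, i.unpair.2.unpair.1⟩,
    fun i => ⟨?_, ?_, ?_⟩, ?_⟩
  · exact (Nat.unpair_right_le _).trans ((Nat.unpair_left_le _).trans (Nat.unpair_left_le _))
  · exact (Nat.unpair_right_le _).trans ((Nat.unpair_right_le _).trans (Nat.unpair_left_le _))
  · exact (Nat.unpair_left_le _).trans (Nat.unpair_right_le _)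
  · rintro ⟨a, c, g, r, k⟩
    obtain ⟨u, -, hu⟩ := hf a 0 0
    obtain ⟨w, -, hw⟩ := hf g 0 0
    refine ⟨Nat.pair (Nat.pair (Nat.pair u c) (Nat.pair w r)) (Nat.pair k 0), ?_⟩
    simp only [Nat.unpair_pair, hu, hw]

variable {τ : ℕ → Task}

end Pool.Agent.Helper21.AX
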