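import Pool.Agent.Helper21.AX.H4b
import Pool.Agent.Helper21.AX.TNE

/-!
Project AX (MP_4a5e7e_lc): what the oracles say about the instances.
-/

namespace Pool.Agent.Helper21.AX

open Pool.Agent.Helper5.SX

variable {τ : ℕ → Task}

private theorem M1b_walk {X : ℕ → ℕ → PR} {O : Set Str} {x u : Str}
    (h : RW τ X O (tstr x u)) : False := by
  obtain ⟨i, j, y, _, h1 | h1 | h1⟩ := h
  · exact tstr_ne_wq _ _ _ _ _ _ _ h1.1
  · exact tstr_ne_wq _ _ _ _ _ _ _ h1.1
  · exact tstr_ne_wq _ _ _ _ _ _ _ h1.1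

/-- Proof: `mem_OO`; `RL` and `RW` are impossible for `tstr (false :: h) u` (`tstr_inj`, `zz_ne`,
`tstr_ne_wq`). -/
theorem test_code (hτ : Small τ) {W : Cfg} (h : Str) :
    false :: h ∈ testSet (OO τ W) ↔ ∃ w, W (false :: h) = some w ∧
      w.length = 2 ^ (h.length + 1) := by
  constructor
  · rintro ⟨y, hy⟩
    rcases (mem_OO hτ).1 hy with h1 | h1 | h1
    · obtain ⟨h', w, e, hw, hW⟩ := h1
      obtain ⟨e1, e2⟩ := tstr_inj e
      obtain ⟨-, e3⟩ := List.cons.inj e1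
      subst e3
      exact ⟨w, hW, hw⟩
    · obtain ⟨i, t, v, u, y', e, _⟩ := h1
      exact absurd (tstr_inj e).1.symm (zz_ne _ _ _)
    · exact (M1b_walk h1).elim
  · rintro ⟨w, hW, hw⟩
    exact ⟨w, (mem_OO hτ).2 (Or.inl ⟨h, w, rfl, hw, hW⟩)⟩

/-- Proof: `mem_OO`; `RC`, `RW` are impossible for `tstr (zz i v) u`, and `RL` says
`u.length = 2 ^ (zz i v).length` and `AccU ... u` (`V i t < q.length` holds by `V_lt_two_pow`, since
`q.length ≥ u.length`); `acc_iff_accU` with `L = 2 ^ (zz i v).length` (`link_lt` gives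
`T τ i y.length ≤ 2 ^ (m t + i + 2)`). -/
theorem test_link (hτ : Small τ) {W : Cfg} {i t : ℕ} {v y : Str} (h : Tests (xx τ) i t v y) :
    zz i v ∈ testSet (OO τ W) ↔ AccT τ i (OO τ W) y := by
  have hown := own_eq hτ h
  obtain ⟨hact, hlev, l, hl, hv⟩ := h
  have hvl : v.length = m t := by
    rw [← hv]
    exact (len_XX (OO τ) i t).1 y l
  have hlt := link_lt (i := i) (hτ i).1 hlev.1
  have hle : T τ i y.length ≤ 2 ^ (zz i v).length := by
    rw [zz_length, hvl]
    refine le_of_lt (lt_of_le_of_lt ?_ hlt)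
    have h1 : T τ i y.length ≤ y.length + 2 * 2 ^ (y.length ^ (τ i).c + (τ i).c) := by
      unfold T
      omega
    exact h1.trans (Nat.le_self_pow (by norm_num) _)
  unfold AccT
  rw [acc_iff_accU hle]
  constructor
  · rintro ⟨u, hu⟩
    rcases (mem_OO hτ).1 hu with h1 | h1 | h1
    · obtain ⟨h', w, e, _⟩ := h1
      exact absurd (tstr_inj e).1 (zz_ne _ _ _)
    · obtain ⟨i', t', v', u', y', e, h2, _, h3, h4, h5⟩ := h1
      obtain ⟨e1, e2⟩ := tstr_inj e
      obtain ⟨e3, e4⟩ := zz_inj e1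
      subst e2 e3 e4
      have e5 : t = t' := m_inj (hvl.symm.trans h2)
      subst e5
      have e6 : y = y' := Option.some.inj (hown.symm.trans h3)
      subst e6
      exact ⟨u, h4, h5⟩
    · exact (M1b_walk h1).elim
  · rintro ⟨u, h4, h5⟩
    refine ⟨u, (mem_OO hτ).2 (Or.inr (Or.inl ⟨i, t, v, u, y, rfl, hvl, ?_, hown, h4, h5⟩))⟩
    have hV : V i t < 2 ^ (m t + i + 2) :=
      V_lt_two_pow ((show U i ≤ lev y.length from hact).trans
        ((Nat.le_add_right _ _).trans hlev.1))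
    rw [tstr_length, h4, zz_length, hvl]
    omega

/-- Proof: `testSet_mem_NEXP` (in `TNE`) and `mem_OO` (`RC`, `RL` have witnesses of length
`2 ^ x.length`, `RW` is impossible by `tstr_ne_wq`). -/
theorem testSet_NEXP (hτ : Small τ) (W : Cfg) : testSet (OO τ W) ∈ NEXP (OO τ W) := by
  refine testSet_mem_NEXP _ fun x y hxy => ?_
  rcases (mem_OO hτ).1 hxy with h1 | h1 | h1
  · obtain ⟨h', w, e, hw, _⟩ := h1
    obtain ⟨e1, e2⟩ := tstr_inj e
    rw [e1, e2, hw, List.length_cons]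
  · obtain ⟨i, t, v, u, y', e, _, _, _, h4, _⟩ := h1
    obtain ⟨e1, e2⟩ := tstr_inj e
    rw [e1, e2, h4]
  · exact (M1b_walk h1).elim

end Pool.Agent.Helper21.AX
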