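import Pool.Agent.Helper21.AX.H4b

/-!
Project AX (MP_4a5e7e_lc): what the oracles say about the walk.
-/

namespace Pool.Agent.Helper21.AX

open Pool.Agent.Helper5.SX

variable {τ : ℕ → Task}

/-- Membership of a walk string is the walk rule: the other two rules speak of `tstr`. -/
private theorem M1c_mem (hτ : Small τ) {W : Cfg} {b b' : Bool} {j i : ℕ} {y : Str} :
    wq b b' j i y ∈ OO τ W ↔ RW τ (xx τ) (OO τ W) (wq b b' j i y) := by
  rw [mem_OO hτ]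
  constructor
  · rintro (⟨h, w, hq, -⟩ | ⟨i', t, v, u, y', hq, -⟩ | h)
    · exact absurd hq.symm (tstr_ne_wq _ _ _ _ _ _ _)
    · exact absurd hq.symm (tstr_ne_wq _ _ _ _ _ _ _)
    · exact h
  · exact fun h => Or.inr (Or.inr h)

/-- The three questions of the walk. Proof: `mem_OO`, `wq_inj`, `tstr_ne_wq`. -/
theorem walk_zone (hτ : Small τ) {W : Cfg} {i : ℕ} {y : Str} (h : Act i y) (j : ℕ) :
    wq false false j i y ∈ OO τ W ↔ J i (lev y.length) ≤ j := by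
  rw [M1c_mem hτ]
  constructor
  · rintro ⟨i', j', y', -, (⟨hq, hj⟩ | ⟨hq, -⟩ | ⟨hq, -⟩)⟩
    · obtain ⟨-, -, rfl, rfl, rfl⟩ := wq_inj hq
      exact hj
    · exact absurd (wq_inj hq).2.1 (by decide)
    · exact absurd (wq_inj hq).1 (by decide)
  · intro hj
    exact ⟨i, j, y, h, Or.inl ⟨rfl, hj⟩⟩

theorem walk_stop (hτ : Small τ) {W : Cfg} {i : ℕ} {y : Str} (h : Act i y) (j : ℕ) :
    wq false true j i y ∈ OO τ W ↔
      J i (lev y.length) + 1 + (zst τ (xx τ) i (OO τ W) y).length ≤ j := by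
  rw [M1c_mem hτ]
  constructor
  · rintro ⟨i', j', y', -, (⟨hq, -⟩ | ⟨hq, hj⟩ | ⟨hq, -⟩)⟩
    · exact absurd (wq_inj hq).2.1 (by decide)
    · obtain ⟨-, -, rfl, rfl, rfl⟩ := wq_inj hq
      exact hj
    · exact absurd (wq_inj hq).1 (by decide)
  · intro hj
    exact ⟨i, j, y, h, Or.inr (Or.inl ⟨rfl, hj⟩)⟩

theorem walk_bit (hτ : Small τ) {W : Cfg} {i : ℕ} {y : Str} (h : Act i y) (j : ℕ) :
    wq true false j i y ∈ OO τ W ↔ ∃ e, j = J i (lev y.length) + 1 + e ∧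
      (zst τ (xx τ) i (OO τ W) y).reverse[e]? = some true := by
  rw [M1c_mem hτ]
  constructor
  · rintro ⟨i', j', y', -, (⟨hq, -⟩ | ⟨hq, -⟩ | ⟨hq, hj⟩)⟩
    · exact absurd (wq_inj hq).1 (by decide)
    · exact absurd (wq_inj hq).1 (by decide)
    · obtain ⟨-, -, rfl, rfl, rfl⟩ := wq_inj hq
      exact hj
  · intro hj
    exact ⟨i, j, y, h, Or.inr (Or.inr ⟨rfl, hj⟩)⟩

end Pool.Agent.Helper21.AX
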