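import Pool.Agent.Helper21.AX.N4a

/-!
Project AX (MP_4a5e7e_lc): the autoreduction runs in polynomial time.
-/

namespace Pool.Agent.Helper21.AX

private theorem N4b_m (j : ℕ) (i : ℕ) : PB (fun n => m (lev n + j) + i + 2) :=
  ((PB.m_lev j).add (PB.const i)).add (PB.const 2)

private theorem N4b_V (i : ℕ) : PB (fun n => V i (lev n + (D i + E i))) := by
  have h := (PB.const 4).mul ((N4b_m (D i + E i) i).pow (i + 1))
  exact h

private theorem N4b_J (i : ℕ) : PB (fun n => J i (lev n)) := by
  have h := (((PB.const (E i + 2)).mul ((N4b_V i).pow 4)).pow 2).add (PB.const 1)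
  obtain ⟨r, hr⟩ := h
  refine ⟨r, fun n hn => ?_⟩
  have h1 := hr n hn
  have h2 : lev n + D i + E i = lev n + (D i + E i) := Nat.add_assoc _ _ _
  show (Kap i (lev n)) ^ 2 + 1 ≤ _
  unfold Kap
  rw [h2]
  exact h1

/-- Proof: the left side is at most the same expression with `zl = m (lev n + (D i + E i)) + i + 2`, which
is built from `PB.m_lev`, constants, sums, products and powers (`V`, `Kap`, `J` are unfolded;
`lev n + D i + E i = lev n + (D i + E i)`). -/
theorem time_bound (i r : ℕ) : ∃ r', ∀ n, 1 ≤ lev n →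
    ∀ zl ≤ m (lev n + D i + E i) + i + 2,
      20 * J i (lev n) + 40 * zl + 10 * n + 10 * i + 60 + (zl ^ r + r) ≤ n ^ r' + r' := by
  obtain ⟨r', hr'⟩ := ((((((PB.const 20).mul (N4b_J i)).add
    ((PB.const 40).mul (N4b_m (D i + E i) i))).add ((PB.const 10).mul PB.id)).add
    (PB.const (10 * i))).add (PB.const 60)).add
    (((N4b_m (D i + E i) i).pow r).add (PB.const r))
  refine ⟨r', fun n hn zl hzl => ?_⟩
  have h1 := hr' n hn
  rw [Nat.add_assoc (lev n) (D i) (E i)] at hzl
  have h2 : zl ^ r ≤ (m (lev n + (D i + E i)) + i + 2) ^ r := Nat.pow_le_pow_left hzl r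
  simp only at h1
  omega

end Pool.Agent.Helper21.AX
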