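import Pool.Agent.Helper21.AX.P1a

/-!
Project AX (MP_4a5e7e_lc): a reduction may be changed on finitely many inputs.
-/

namespace Pool.Agent.Helper21.AX

open Pool.Agent.Helper5.SX

/-- The decision tree: read at most `N` bits; at an input `x` with less than `N` bits go on with
`f x`, otherwise put the bits back and go on with `g`. `p` is the string of the bits read so far
(in the order of the input). -/
def tree (f : Str → Cmd) (g : Cmd) : ℕ → Str → Cmd
  | 0, p => Cmd.seq (pushAll 0 p) g
  | N + 1, p => Cmd.pop 0 (f p) (tree f g N (p ++ [false])) (tree f g N (p ++ [true]))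

theorem tree_det {f : Str → Cmd} {g : Cmd} (hf : ∀ x, (f x).Det) (hg : g.Det) (N : ℕ) (p : Str) :
    (tree f g N p).Det := by
  induction N generalizing p with
  | zero => exact ⟨pushAll_det _ _, hg⟩
  | succ N ih => exact ⟨hf p, ih _, ih _⟩

theorem P1b_update_start (v w : Str) : Function.update (start v []) 0 w = start w [] := by
  funext r
  by_cases h : r = 0
  · subst h
    simp [start]
  · simp [start, h]

/-- Induction on `N` for all `p` and `w`. -/
theorem tree_long {O : Set Str} {f : Str → Cmd} {g : Cmd} {N : ℕ} {p w : Str} {s' : Store} {T : ℕ}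
    (hw : N ≤ w.length) (h : Do O g (start (p ++ w) []) s' T) :
    Do O (tree f g N p) (start w []) s' (T + p.length + 2 * N + 1) := by
  induction N generalizing p w with
  | zero =>
    have h1 := pushAll_do O 0 p (start w [])
    have h2 : start w [] 0 = w := by simp [start]
    rw [h2, P1b_update_start] at h1
    refine (Do.seq h1 h).mono ?_
    omega
  | succ N ih =>
    rcases w with _ | ⟨b, w⟩
    · simp at hw
    · have hw' : N ≤ w.length := by simpa using hw
      have h1 : Do O (tree f g N (p ++ [b])) (start w []) s' (T + (p ++ [b]).length + 2 * N + 1) :=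
        ih hw' (by rwa [List.append_assoc, List.singleton_append])
      obtain ⟨t, ht, hr⟩ := h1
      rw [List.length_append, List.length_singleton] at ht
      have h2 : start (b :: w) [] 0 = b :: w := by simp [start]
      refine ⟨t + 1, by omega, ?_⟩
      cases b with
      | false => exact Run.pop_false h2 (by rwa [P1b_update_start])
      | true => exact Run.pop_true h2 (by rwa [P1b_update_start])

/-- Induction on `N` for all `p` and `w`. -/
theorem tree_short {O : Set Str} {f : Str → Cmd} {g : Cmd} {N : ℕ} {p w : Str} {s' : Store} {T : ℕ}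
    (hw : w.length < N) (h : Do O (f (p ++ w)) (start [] []) s' T) :
    Do O (tree f g N p) (start w []) s' (T + w.length + 1) := by
  induction N generalizing p w with
  | zero => exact absurd hw (Nat.not_lt_zero _)
  | succ N ih =>
    rcases w with _ | ⟨b, w⟩
    · rw [List.append_nil] at h
      obtain ⟨t, ht, hr⟩ := h
      exact ⟨t + 1, by simp; omega, Run.pop_nil (by simp [start]) hr⟩
    · have hw' : w.length < N := by simpa using hw
      have h1 : Do O (tree f g N (p ++ [b])) (start w []) s' (T + w.length + 1) :=
        ih hw' (by rwa [List.append_assoc, List.singleton_append])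
      obtain ⟨t, ht, hr⟩ := h1
      have h2 : start (b :: w) [] 0 = b :: w := by simp [start]
      refine ⟨t + 1, by simp only [List.length_cons]; omega, ?_⟩
      cases b with
      | false => exact Run.pop_false h2 (by rwa [P1b_update_start])
      | true => exact Run.pop_true h2 (by rwa [P1b_update_start])

open Classical in
/-- A reduction that works for all long inputs can be patched. Proof: the program
`tree (fun x => constRed k (decide (x ∈ A)) x) g N []`; for long inputs `tree_long` with `p = []`, for short
ones `tree_short` and `constRed_do`; the exponent: some `r'` with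
`n ^ r + r + 2 * N + 2 ^ k + 3 * k + n + 10 ≤ n ^ r' + r'` for all `n`, for example
`r' = r + 2 * N + 2 ^ k + 3 * k + 12` (for `n ≤ 1` clear, for `n ≥ 2` use `n ^ r' ≥ 2 ^ (r' - r) * n ^ r` and
`n ^ r' ≥ n`). -/
theorem patch {O : Set Str} {k : ℕ} {A : Set Str} (N : ℕ) {g : Cmd} (hg : g.Det) (r : ℕ)
    (h : ∀ x : Str, N ≤ x.length → ∃ t ≤ x.length ^ r + r, ∃ s' : Store,
      Run O g (start x []) t s' ∧ (∀ j < k, s' (j + 1) ≠ x) ∧
        (x ∈ A ↔ tab k (s' 0) (fun j => s' (j + 1) ∈ A) = true)) :
    AutoKtt O k A := by
  refine ⟨tree (fun x => constRed k (decide (x ∈ A)) x) g N [], tree_det (fun x =>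
    constRed_det _ _ _) hg N [], r + 2 * N + 2 ^ k + 3 * k + 12, fun x => ?_⟩
  by_cases hx : N ≤ x.length
  · obtain ⟨t, ht, s', h1, h2, h3⟩ := h x hx
    obtain ⟨t', ht', hr⟩ := tree_long (f := fun x => constRed k (decide (x ∈ A)) x) (p := [])
      (T := t) hx (s' := s') ⟨t, le_rfl, h1⟩
    refine ⟨t', ht'.trans ?_, s', hr, h2, h3⟩
    rw [List.length_nil]
    obtain ⟨z, hz⟩ : ∃ z, 2 ^ k = z := ⟨_, rfl⟩
    rw [hz]
    have h4 : x.length ^ r ≤ x.length ^ (r + 2 * N + z + 3 * k + 12) + 1 := by
      rcases Nat.eq_zero_or_pos x.length with h0 | h0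
      · rw [h0]
        have h5 : 0 ^ r ≤ 1 := (Nat.pow_le_pow_left (Nat.zero_le 1) r).trans (by rw [one_pow])
        exact h5.trans (Nat.le_add_left _ _)
      · have := Nat.pow_le_pow_right h0 (show r ≤ r + 2 * N + z + 3 * k + 12 by omega)
        omega
    omega
  · obtain ⟨s', h1, h2, h3⟩ := constRed_do O k (decide (x ∈ A)) x A
    obtain ⟨t', ht', hr⟩ := tree_short (f := fun x => constRed k (decide (x ∈ A)) x) (g := g)
      (N := N) (p := []) (w := x) (by omega) h1
    refine ⟨t', ht'.trans ?_, s', hr, h2, ?_⟩
    · obtain ⟨z, hz⟩ : ∃ z, 2 ^ k = z := ⟨_, rfl⟩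
      rw [hz]
      have : 0 ≤ x.length ^ (r + 2 * N + z + 3 * k + 12) := Nat.zero_le _
      omega
    · rw [h3, decide_eq_true_eq]

end Pool.Agent.Helper21.AX
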