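import Pool.Agent.Helper21.AX.W1b

/-!
Project AX (MP_4a5e7e_lc): the walk program, second part: reading the instance.
-/

namespace Pool.Agent.Helper21.AX

open Pool.Agent.Helper5.SX

/-- Increase the counter; ask for the end; if it is not reached ask for the bit and write it. -/
def readBits : Cmd :=
  Cmd.seq (Cmd.push 2 true) (Cmd.loop 2 (Cmd.seq (Cmd.push 1 true)
    (ask false true (Cmd.pop 2 Cmd.skip Cmd.skip Cmd.skip)
      (ask true false (Cmd.push 0 true) (Cmd.push 0 false)))))

theorem readBits_det : readBits.Det :=
  ⟨trivial, trivial, ask_det ⟨trivial, trivial, trivial⟩ (ask_det trivial trivial)⟩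

private theorem W2_upd0 (a b c a' : Str) : Function.update (St3 a b c) 0 a' = St3 a' b c := by
  funext r
  by_cases h : r = 0
  · subst h; simp [St3]
  · rw [Function.update_of_ne h]; simp [St3, h]

private theorem W2_upd1 (a b c b' : Str) : Function.update (St3 a b c) 1 b' = St3 a b' c := by
  funext r
  by_cases h : r = 1
  · subst h; simp [St3]
  · rw [Function.update_of_ne h]; simp [St3, h]

private theorem W2_upd2 (a b c c' : Str) : Function.update (St3 a b c) 2 c' = St3 a b c' := by
  funext r
  by_cases h : r = 2
  · subst h; simp [St3]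
  · rw [Function.update_of_ne h]; simp [St3, h]

private theorem W2_at0 (a b c : Str) : St3 a b c 0 = a := by simp [St3]

private theorem W2_at1 (a b c : Str) : St3 a b c 1 = b := by simp [St3]

private theorem W2_at2 (a b c : Str) : St3 a b c 2 = c := by simp [St3]

private theorem W2_push0 (O : Set Str) (x : Bool) (a b c : Str) :
    Do O (Cmd.push 0 x) (St3 a b c) (St3 (x :: a) b c) 1 := by
  have h := Run.push (O := O) 0 x (St3 a b c)
  rw [W2_upd0, W2_at0] at h
  exact ⟨1, le_rfl, h⟩

private theorem W2_push1 (O : Set Str) (x : Bool) (a b c : Str) :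
    Do O (Cmd.push 1 x) (St3 a b c) (St3 a (x :: b) c) 1 := by
  have h := Run.push (O := O) 1 x (St3 a b c)
  rw [W2_upd1, W2_at1] at h
  exact ⟨1, le_rfl, h⟩

private theorem W2_push2 (O : Set Str) (x : Bool) (a b c : Str) :
    Do O (Cmd.push 2 x) (St3 a b c) (St3 a b (x :: c)) 1 := by
  have h := Run.push (O := O) 2 x (St3 a b c)
  rw [W2_upd2, W2_at2] at h
  exact ⟨1, le_rfl, h⟩

private theorem W2_pop2 (O : Set Str) (a b c : Str) :
    Do O (Cmd.pop 2 Cmd.skip Cmd.skip Cmd.skip) (St3 a b (true :: c)) (St3 a b c) 2 := by
  refine ⟨2, le_rfl, ?_⟩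
  have e : Function.update (St3 a b (true :: c)) 2 c = St3 a b c := W2_upd2 _ _ _ _
  have h := Run.skip (O := O) (Function.update (St3 a b (true :: c)) 2 c)
  have h' := Run.pop_true (O := O) (c₀ := Cmd.skip) (c₁ := Cmd.skip) (t := 1)
    (W2_at2 a b (true :: c)) h
  rw [e] at h'
  exact h'

private theorem W2_loop {O : Set Str} {i J : ℕ} {y z : Str}
    (h1 : ∀ j, wq false true j i y ∈ O ↔ J + 1 + z.length ≤ j)
    (h2 : ∀ j, wq true false j i y ∈ O ↔ ∃ e, j = J + 1 + e ∧ z.reverse[e]? = some true) :
    ∀ n e : ℕ, e + n = z.length →
    Do O (Cmd.loop 2 (Cmd.seq (Cmd.push 1 true)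
      (ask false true (Cmd.pop 2 Cmd.skip Cmd.skip Cmd.skip)
        (ask true false (Cmd.push 0 true) (Cmd.push 0 false)))))
      (St3 (z.reverse.take e).reverse (List.replicate (J + e) true ++ base i y) [true])
      (St3 z (List.replicate (J + 1 + z.length) true ++ base i y) []) (30 * n + 20) := by
  intro n
  induction n with
  | zero =>
    intro e he
    have e0 : e = z.length := by omega
    subst e0
    have ha : (z.reverse.take z.length).reverse = z := by
      rw [List.take_of_length_le (by simp), List.reverse_reverse]
    rw [ha]
    have hr : true :: (List.replicate (J + z.length) true ++ base i y) =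
        List.replicate (J + 1 + z.length) true ++ base i y := by
      rw [show J + 1 + z.length = (J + z.length) + 1 by omega, List.replicate_succ,
        List.cons_append]
    have hp := W2_push1 O true z (List.replicate (J + z.length) true ++ base i y) [true]
    rw [hr] at hp
    have hq := ask_yes (d := ask true false (Cmd.push 0 true) (Cmd.push 0 false))
      ((h1 (J + 1 + z.length)).mpr le_rfl)
      (W2_pop2 O z (List.replicate (J + 1 + z.length) true ++ base i y) [])
    obtain ⟨t, ht, hrun⟩ := hp.seq hq
    refine ⟨t + 1 + 1, by omega, Run.loop_cons ?_ hrun (Run.loop_nil ?_)⟩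
    · rw [W2_at2]; simp
    · rw [W2_at2]
  | succ n ih =>
    intro e he
    have helt : e < z.reverse.length := by rw [List.length_reverse]; omega
    have hr : true :: (List.replicate (J + e) true ++ base i y) =
        List.replicate (J + 1 + e) true ++ base i y := by
      rw [show J + 1 + e = (J + e) + 1 by omega, List.replicate_succ, List.cons_append]
    have hp := W2_push1 O true (z.reverse.take e).reverse
      (List.replicate (J + e) true ++ base i y) [true]
    rw [hr] at hp
    have hno : wq false true (J + 1 + e) i y ∉ O := by
      intro hm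
      have := (h1 (J + 1 + e)).mp hm
      omega
    have hstep : Do O (ask true false (Cmd.push 0 true) (Cmd.push 0 false))
        (St3 (z.reverse.take e).reverse (List.replicate (J + 1 + e) true ++ base i y) [true])
        (St3 (z.reverse.take (e + 1)).reverse (List.replicate (J + 1 + e) true ++ base i y) [true])
        11 := by
      have htake : (z.reverse.take (e + 1)).reverse =
          z.reverse[e] :: (z.reverse.take e).reverse := by
        rw [List.take_succ_eq_append_getElem helt, List.reverse_append]
        simp
      rw [htake]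
      by_cases hb : z.reverse[e] = true
      · have hyes : wq true false (J + 1 + e) i y ∈ O :=
          (h2 (J + 1 + e)).mpr ⟨e, rfl, by rw [List.getElem?_eq_getElem helt, hb]⟩
        have h := ask_yes (d := Cmd.push 0 false) hyes
          (W2_push0 O true (z.reverse.take e).reverse
            (List.replicate (J + 1 + e) true ++ base i y) [true])
        rw [hb]
        exact h.mono (by omega)
      · have hb' : z.reverse[e] = false := by simpa using hb
        have hn : wq true false (J + 1 + e) i y ∉ O := by
          intro hm
          obtain ⟨e', he', h'⟩ := (h2 (J + 1 + e)).mp hm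
          have : e' = e := by omega
          subst this
          rw [List.getElem?_eq_getElem helt, hb'] at h'
          simp at h'
        have h := ask_no (c := Cmd.push 0 true) hn
          (W2_push0 O false (z.reverse.take e).reverse
            (List.replicate (J + 1 + e) true ++ base i y) [true])
        rw [hb']
        exact h.mono (by omega)
    have hq := ask_no (c := Cmd.pop 2 Cmd.skip Cmd.skip Cmd.skip) hno hstep
    obtain ⟨t, ht, hrun⟩ := hp.seq hq
    obtain ⟨t', ht', hrun'⟩ := ih (e + 1) (by omega)
    rw [show J + (e + 1) = J + 1 + e by omega] at hrun'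
    refine ⟨t + t' + 1, by omega, Run.loop_cons ?_ hrun hrun'⟩
    rw [W2_at2]; simp

/-- Proof: by induction on `z.length - e` (with `e ≤ z.length`): the loop with the counter `J + e`, the
flag on and `(z.reverse.take e).reverse` on stack `0` leads to the counter `J + 1 + z.length`, the flag
off and `z` on stack `0` in time at most `30 (z.length - e) + 20`. The bit asked with the counter
`J + 1 + e` is `z.reverse[e]`. -/
theorem readBits_do {O : Set Str} {i J : ℕ} {y z : Str}
    (h1 : ∀ j, wq false true j i y ∈ O ↔ J + 1 + z.length ≤ j)
    (h2 : ∀ j, wq true false j i y ∈ O ↔ ∃ e, j = J + 1 + e ∧ z.reverse[e]? = some true) :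
    Do O readBits (St3 [] (List.replicate J true ++ base i y) [])
      (St3 z (List.replicate (J + 1 + z.length) true ++ base i y) []) (30 * z.length + 25) := by
  have h := (W2_push2 O true [] (List.replicate J true ++ base i y) []).seq
    (by simpa using W2_loop h1 h2 z.length 0 (by omega))
  exact h.mono (by omega)

/-- Empty stack `1`. -/
def clear : Cmd := Cmd.loop 1 (Cmd.pop 1 Cmd.skip Cmd.skip Cmd.skip)

theorem clear_det : clear.Det := ⟨trivial, trivial, trivial⟩

theorem clear_do (O : Set Str) (a b : Str) :
    Do O clear (St3 a b []) (St3 a [] []) (3 * b.length + 1) := by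
  induction b with
  | nil => exact ⟨1, by simp, Run.loop_nil (W2_at1 a [] [])⟩
  | cons x b ih =>
    obtain ⟨t, ht, h⟩ := ih
    refine ⟨2 + t + 1, by simp only [List.length_cons]; omega, ?_⟩
    refine Run.loop_cons (by rw [W2_at1]; simp) ?_ h
    have e : Function.update (St3 a (x :: b) []) 1 b = St3 a b [] := W2_upd1 _ _ _ _
    have hs := Run.skip (O := O) (Function.update (St3 a (x :: b) []) 1 b)
    cases x
    · have h' := Run.pop_false (O := O) (c₀ := Cmd.skip) (c₂ := Cmd.skip) (t := 1)
        (W2_at1 a (false :: b) []) hs
      rw [e] at h'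
      exact h'
    · have h' := Run.pop_true (O := O) (c₀ := Cmd.skip) (c₁ := Cmd.skip) (t := 1)
        (W2_at1 a (true :: b) []) hs
      rw [e] at h'
      exact h'

/-- The walk program. -/
def walk (i : ℕ) : Cmd := Cmd.seq (mkBase i) (Cmd.seq zone (Cmd.seq readBits clear))

theorem walk_det (i : ℕ) : (walk i).Det := ⟨mkBase_det i, zone_det, readBits_det, clear_det⟩

/-- The walk program reads the instance `z` of `y`. -/
theorem walk_do {O : Set Str} {i J : ℕ} {y z : Str} (hJ : 1 ≤ J)
    (h0 : ∀ j, wq false false j i y ∈ O ↔ J ≤ j)
    (h1 : ∀ j, wq false true j i y ∈ O ↔ J + 1 + z.length ≤ j)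
    (h2 : ∀ j, wq true false j i y ∈ O ↔ ∃ e, j = J + 1 + e ∧ z.reverse[e]? = some true) :
    Do O (walk i) (start y []) (start z [])
      (20 * J + 40 * z.length + 10 * y.length + 10 * i + 60) := by
  rw [start_eq, start_eq]
  have h := (mkBase_do O i y).seq ((zone_do hJ h0).seq ((readBits_do h1 h2).seq
    (clear_do O z (List.replicate (J + 1 + z.length) true ++ base i y))))
  refine h.mono ?_
  have hb : (base i y).length = i + 2 + y.length := by simp [base]; omega
  rw [List.length_append, List.length_replicate, hb]
  omega

end Pool.Agent.Helper21.AX
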