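import Pool.Agent.Helper21.AX.B6b
import Pool.Agent.Helper21.AX.W2
import Pool.Agent.Helper21.AX.P1b
import Pool.Agent.Helper21.AX.M1a
import Pool.Agent.Helper21.AX.M1b
import Pool.Agent.Helper21.AX.M1c
import Pool.Agent.Helper21.AX.N4b

/-!
Project AX (MP_4a5e7e_lc): the theorem.
-/

namespace Pool.Agent.Helper21.AX

open Pool.Agent.Helper5.SX

variable {τ : ℕ → Task}

theorem zst_special {X : ℕ → ℕ → PR} {i : ℕ} {O : Set Str} {y : Str} (h : Special τ X i O y) :
    zst τ X i O y = hh τ X i O y := by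
  unfold zst
  rw [dif_neg]
  rintro ⟨e, he⟩
  exact h.2 _ _ he

theorem zst_free {X : ℕ → ℕ → PR} {i : ℕ} {O : Set Str} {y : Str} (hy : Act i y)
    (h : ¬ Special τ X i O y) :
    ∃ t l, Free τ X i O y t l ∧ zst τ X i O y = zz i ((X i t).P y l) := by
  have h1 : ∃ e : ℕ, Free τ X i O y e.unpair.1 e.unpair.2 := by
    by_contra h2
    apply h
    refine ⟨hy, fun t l hf => h2 ⟨Nat.pair t l, ?_⟩⟩
    rw [Nat.unpair_pair]
    exact hf
  classical
  refine ⟨(Nat.find h1).unpair.1, (Nat.find h1).unpair.2, Nat.find_spec h1, ?_⟩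
  unfold zst
  rw [dif_pos h1]

theorem main : ∃ O : Set Str, ∀ (k : ℕ) (A : Set Str), CompleteKtt O k A → AutoKtt O k A := by
  obtain ⟨τ, hτ, hsur⟩ := exists_tasks
  obtain ⟨W, hW1, hW2⟩ := exists_cfg hτ
  refine ⟨OO τ W, fun k A hA => ?_⟩
  obtain ⟨⟨c, a, hacc⟩, hcomp⟩ := hA
  obtain ⟨g, hg, r, hgr⟩ := hcomp _ (testSet_NEXP hτ W)
  obtain ⟨i, hi⟩ := hsur ⟨a, c, g, r, k⟩
  have hia : (τ i).a = a := by rw [hi]
  have hic : (τ i).c = c := by rw [hi]
  have hig : (τ i).g = g := by rw [hi]
  have hir : (τ i).r = r := by rw [hi]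
  have hik : (τ i).k = k := by rw [hi]
  have hAcc : ∀ x, x ∈ A ↔ AccT τ i (OO τ W) x := by
    intro x
    unfold AccT T
    rw [hia, hic]
    exact hacc x
  obtain ⟨r', hr'⟩ := time_bound i r
  refine patch (m (U i) + 1) (g := Cmd.seq (walk i) g) ⟨walk_det i, hg⟩ r' fun x hx => ?_
  have hlev : U i < lev x.length := lt_lev_iff.2 (by omega)
  have hact : Act i x := hlev.le
  have hlev1 : 1 ≤ lev x.length := by omega
  set z := zst τ (xx τ) i (OO τ W) x with hz
  have hJ : 1 ≤ J i (lev x.length) := by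
    unfold J
    omega
  obtain ⟨t1, ht1, hrun1⟩ := walk_do (O := OO τ W) (i := i) (J := J i (lev x.length)) (y := x)
    (z := z) hJ (walk_zone hτ hact) (walk_stop hτ hact) (walk_bit hτ hact)
  obtain ⟨t2, ht2, s', hrun2, htab⟩ := hgr z
  have hzlen : z.length ≤ m (lev x.length + D i + E i) + i + 2 := by
    by_cases hs : Special τ (xx τ) i (OO τ W) x
    · rw [hz, zst_special hs, hh_length _ hact]
      have := m_mono (show lev x.length - D i ≤ lev x.length + D i + E i by omega)
      omega
    · obtain ⟨t, l, hf, he⟩ := zst_free hact hs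
      have hlen : ((xx τ i t).P x l).length = m t := (len_XX (τ := τ) (OO τ) i t).1 x l
      rw [hz, he, zz_length, hlen]
      have := m_mono hf.1.2
      omega
  refine ⟨t1 + t2, ?_, s', Run.seq hrun1 hrun2, ?_, ?_⟩
  · have := hr' x.length hlev1 z.length hzlen
    omega
  · intro j hj he
    by_cases hs : Special τ (xx τ) i (OO τ W) x
    · have hzl : z.length = m (lev x.length - D i) := by
        rw [hz, zst_special hs, hh_length _ hact]
      have h1 : ∀ q, (start z [] q).length ≤ z.length := by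
        intro q
        unfold start
        split_ifs <;> simp
      have h2 := (run_use hrun2 z.length h1).1 (j + 1)
      rw [he] at h2
      have h3 := short_lt (i := i) (r := r) (s := lev x.length) (n := x.length)
        (by rw [← hir]; exact (hτ i).2.1) hact rfl
      rw [hzl] at h2 ht2
      omega
    · obtain ⟨t, l, hf, he'⟩ := zst_free hact hs
      apply hf.2.2
      refine ⟨j, ?_⟩
      unfold qa
      rw [← he', ← hz, hig, hir, hik, out_of_run hg hrun2 ht2]
      simp only [Option.bind_some, if_pos hj, he]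
  · rw [← htab, hAcc]
    by_cases hs : Special τ (xx τ) i (OO τ W) x
    · rw [hz, zst_special hs, ← hW2 i x hs]
      have e : hh τ (xx τ) i (OO τ W) x = false :: (List.replicate i true ++ false ::
          bin (m (lev x.length - D i) - i - 2)
            (Nat.pair x.length (eidx τ (xx τ) i (OO τ W) x))) := rfl
      rw [e, test_code hτ]
      constructor
      · rintro ⟨w, hw⟩
        exact ⟨w, hw, by simpa using hW1 _ _ hw⟩
      · rintro ⟨w, hw, -⟩
        exact ⟨w, hw⟩
    · obtain ⟨t, l, hf, he'⟩ := zst_free hact hs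
      rw [hz, he']
      exact (test_link hτ ⟨hact, hf.1, l, hf.2.1, rfl⟩).symm

end Pool.Agent.Helper21.AX
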