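import Pool.Agent.Helper21.AX.Defs

/-!
Project AX (MP_4a5e7e_lc): the lengths and the levels.
-/

namespace Pool.Agent.Helper21.AX

theorem m_add (s j : ℕ) : m (s + j) = m s ^ 2 ^ j := by
  unfold m
  rw [← pow_mul, ← pow_add]

theorem m_mono {s s' : ℕ} (h : s ≤ s') : m s ≤ m s' := by
  unfold m
  exact Nat.pow_le_pow_right (by norm_num) (Nat.pow_le_pow_right (by norm_num) h)

theorem m_lt {s s' : ℕ} (h : s < s') : m s < m s' := by
  unfold m
  exact Nat.pow_lt_pow_right (by norm_num) (Nat.pow_lt_pow_right (by norm_num) h)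

theorem m_inj {s s' : ℕ} (h : m s = m s') : s = s' := by
  rcases Nat.lt_trichotomy s s' with h1 | h1 | h1
  · exact absurd h (m_lt h1).ne
  · exact h1
  · exact absurd h (m_lt h1).ne'

theorem add_two_le_m (s : ℕ) : s + 2 ≤ m s := by
  unfold m
  have h1 : s < 2 ^ s := Nat.lt_two_pow_self
  have h2 : 2 ^ s < 2 ^ 2 ^ s := Nat.lt_two_pow_self
  omega

theorem two_le_m (s : ℕ) : 2 ≤ m s := by
  have := add_two_le_m s
  omega

/-- `Nat.clog_le_iff_le_pow` or similar, twice. -/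
theorem lev_le_iff {n s : ℕ} : lev n ≤ s ↔ n ≤ m s := by
  unfold lev m
  rw [Nat.clog_le_iff_le_pow (by norm_num), Nat.clog_le_iff_le_pow (by norm_num)]

theorem le_m_lev (n : ℕ) : n ≤ m (lev n) := lev_le_iff.1 le_rfl

theorem lt_lev_iff {n s : ℕ} : s < lev n ↔ m s < n := by
  rw [← not_le, ← not_le, lev_le_iff]

theorem V_mono (i : ℕ) {t t' : ℕ} (h : t ≤ t') : V i t ≤ V i t' := by
  unfold V
  have := m_mono h
  gcongr

theorem Lp_mono (i : ℕ) {t t' : ℕ} (h : t ≤ t') : Lp i t ≤ Lp i t' := by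
  unfold Lp
  have := V_mono i h
  gcongr

theorem U_mono {i j : ℕ} (h : i ≤ j) : U i ≤ U j := by
  unfold U
  exact Nat.pow_le_pow_right (by norm_num) (by omega)

theorem lt_U (i : ℕ) : 2 * i + 30 < U i := by
  unfold U
  exact Nat.lt_two_pow_self

theorem N1_aux (i : ℕ) : (i + 5) * (i + 2) ≤ 2 ^ (i + 4) := by
  induction i with
  | zero => norm_num
  | succ i ih =>
    have h1 : 2 ^ (i + 1 + 4) = 2 * 2 ^ (i + 4) := by ring
    rw [h1]
    nlinarith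

theorem N1_K (i : ℕ) : K i ≤ 2 ^ (i + 5) := by
  unfold K
  rcases i with - | i
  · norm_num
  · have h1 := N1_aux i
    have h2 : 2 ^ (i + 1 + 5) = 4 * 2 ^ (i + 4) := by ring
    rw [h2]
    calc 4 * (i + 1 + 4) * (i + 1 + 1) = 4 * ((i + 5) * (i + 2)) := by ring
      _ ≤ 4 * 2 ^ (i + 4) := by omega

/-- Proof: `K i ≤ 2 ^ (i + 5)`, that is `(i + 4) (i + 1) ≤ 2 ^ (i + 3)` (induction), so
`E i ≤ 2 ^ (2 i + 11)`, and `D i = i + 4 ≤ 2 ^ (2 i + 11)`. -/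
theorem DE_le_U (i : ℕ) : 8 * (D i + E i) ≤ U i := by
  unfold D E U
  have h1 : 2 ^ (i + 6) * K i ≤ 2 ^ (i + 6) * 2 ^ (i + 5) := Nat.mul_le_mul_left _ (N1_K i)
  rw [← pow_add, show i + 6 + (i + 5) = 2 * i + 11 by ring] at h1
  have h2 : i + 4 < 2 ^ (i + 4) := Nat.lt_two_pow_self
  have h3 : 2 ^ (i + 4) ≤ 2 ^ (2 * i + 11) := Nat.pow_le_pow_right (by norm_num) (by omega)
  have h4 : 2 ^ (2 * i + 30) = 2 ^ 19 * 2 ^ (2 * i + 11) := by ring
  rw [h4]
  generalize 2 ^ (2 * i + 11) = w at *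
  omega

/-- Proof: each `K j`, `j ≤ i`, is at most `K i ≤ 2 ^ (i + 5)`, and `i + 1 ≤ 2 ^ i`. -/
theorem sumK_le_U (i : ℕ) : 8 * ∑ j ∈ Finset.range (i + 1), K j ≤ U i := by
  have h1 : ∑ j ∈ Finset.range (i + 1), K j ≤ ∑ j ∈ Finset.range (i + 1), 2 ^ (i + 5) := by
    refine Finset.sum_le_sum fun j hj => (N1_K j).trans ?_
    have := Finset.mem_range.1 hj
    exact Nat.pow_le_pow_right (by norm_num) (by omega)
  rw [Finset.sum_const, Finset.card_range, smul_eq_mul] at h1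
  have h2 : i < 2 ^ i := Nat.lt_two_pow_self
  have h3 : (i + 1) * 2 ^ (i + 5) ≤ 2 ^ i * 2 ^ (i + 5) := Nat.mul_le_mul_right _ h2
  have h4 : 2 ^ i * 2 ^ (i + 5) * 8 = 2 ^ (2 * i + 8) := by ring
  have h5 : 2 ^ (2 * i + 8) ≤ U i := by
    unfold U
    exact Nat.pow_le_pow_right (by norm_num) (by omega)
  omega

end Pool.Agent.Helper21.AX
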