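import Pool.Agent.Helper21.AX.N1b

/-!
Project AX (MP_4a5e7e_lc): polynomial bounds.
-/

namespace Pool.Agent.Helper21.AX

/-- Proof: `m (lev n - 1) < n` (`lt_lev_iff`), so `m (lev n) = m (lev n - 1) ^ 2 ≤ n ^ 2`. -/
theorem m_lev_le {n : ℕ} (h : 1 ≤ lev n) : m (lev n) ≤ n ^ 2 := by
  obtain ⟨s, hs⟩ : ∃ s, lev n = s + 1 := ⟨lev n - 1, by omega⟩
  have h1 : m s < n := lt_lev_iff.1 (by omega)
  have h2 : m (s + 1) = m s ^ 2 := by
    have := m_add s 1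
    simpa using this
  rw [hs, h2]
  exact Nat.pow_le_pow_left h1.le 2

/-- Polynomial bounds. `PB f` says that `f` is bounded by a polynomial on the lengths of level at least
`1`. -/
def PB (f : ℕ → ℕ) : Prop := ∃ r, ∀ n, 1 ≤ lev n → f n ≤ n ^ r + r

private theorem N4a_two_lt {n : ℕ} (h : 1 ≤ lev n) : 2 < n := by
  have h1 : m 0 < n := lt_lev_iff.1 (by omega)
  have h2 : m 0 = 2 := by
    unfold m
    norm_num
  omega

private theorem N4a_bound {n r : ℕ} (h : 1 ≤ lev n) : n ^ r + r ≤ n ^ (r + 1) := by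
  have h2 := N4a_two_lt h
  have h3 : r ≤ n ^ r := by
    have h4 : r < 2 ^ r := Nat.lt_two_pow_self
    have h5 : 2 ^ r ≤ n ^ r := Nat.pow_le_pow_left (by omega) r
    omega
  have h6 : n ^ (r + 1) = n ^ r * n := pow_succ n r
  have h7 : n ^ r * 2 ≤ n ^ r * n := Nat.mul_le_mul_left _ (by omega)
  omega

/-- `(n ^ r + r) + (n ^ q + q) ≤ n ^ (r + q + 1) + (r + q + 1)` for `n ≥ 2` (`1 ≤ lev n` gives
`n ≥ 3`). -/
theorem PB.add {f g : ℕ → ℕ} (hf : PB f) (hg : PB g) : PB (fun n => f n + g n) := by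
  obtain ⟨r, hr⟩ := hf
  obtain ⟨q, hq⟩ := hg
  refine ⟨r + q + 1, fun n hn => ?_⟩
  have h2 := N4a_two_lt hn
  have h3 : n ^ r ≤ n ^ (r + q) := Nat.pow_le_pow_right (by omega) (by omega)
  have h4 : n ^ q ≤ n ^ (r + q) := Nat.pow_le_pow_right (by omega) (by omega)
  have h5 : n ^ (r + q + 1) = n ^ (r + q) * n := pow_succ n (r + q)
  have h6 : n ^ (r + q) * 2 ≤ n ^ (r + q) * n := Nat.mul_le_mul_left _ (by omega)
  have h7 := hr n hn
  have h8 := hq n hn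
  show f n + g n ≤ _
  omega

/-- `(n ^ r + r) * (n ^ q + q) ≤ n ^ (2 r + 2 q)` for `n ≥ 3`, or similar (`r ≤ n ^ r`). -/
theorem PB.mul {f g : ℕ → ℕ} (hf : PB f) (hg : PB g) : PB (fun n => f n * g n) := by
  obtain ⟨r, hr⟩ := hf
  obtain ⟨q, hq⟩ := hg
  refine ⟨(r + 1) + (q + 1), fun n hn => ?_⟩
  have h1 : f n ≤ n ^ (r + 1) := (hr n hn).trans (N4a_bound hn)
  have h2 : g n ≤ n ^ (q + 1) := (hq n hn).trans (N4a_bound hn)
  show f n * g n ≤ _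
  calc f n * g n ≤ n ^ (r + 1) * n ^ (q + 1) := Nat.mul_le_mul h1 h2
    _ = n ^ ((r + 1) + (q + 1)) := (pow_add n (r + 1) (q + 1)).symm
    _ ≤ n ^ ((r + 1) + (q + 1)) + ((r + 1) + (q + 1)) := Nat.le_add_right _ _

theorem PB.const (c : ℕ) : PB (fun _ => c) := by
  exact ⟨c, fun n _ => Nat.le_add_left _ _⟩

theorem PB.id : PB (fun n => n) := by
  exact ⟨1, fun n _ => by simp⟩

/-- Induction on `e`. -/
theorem PB.pow {f : ℕ → ℕ} (hf : PB f) (e : ℕ) : PB (fun n => f n ^ e) := by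
  induction e with
  | zero => simpa using PB.const 1
  | succ e ih =>
      have h := ih.mul hf
      simpa only [pow_succ] using h

/-- `m (lev n + j) = m (lev n) ^ (2 ^ j) ≤ (n ^ 2) ^ (2 ^ j)`. -/
theorem PB.m_lev (j : ℕ) : PB (fun n => m (lev n + j)) := by
  refine ⟨2 * 2 ^ j, fun n hn => ?_⟩
  show m (lev n + j) ≤ _
  calc m (lev n + j) = m (lev n) ^ 2 ^ j := m_add _ _
    _ ≤ (n ^ 2) ^ 2 ^ j := Nat.pow_le_pow_left (m_lev_le hn) _
    _ = n ^ (2 * 2 ^ j) := (pow_mul n 2 (2 ^ j)).symm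
    _ ≤ n ^ (2 * 2 ^ j) + 2 * 2 ^ j := Nat.le_add_right _ _

end Pool.Agent.Helper21.AX
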