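import Pool.Agent.Helper21.AX.W1a

/-!
Project AX (MP_4a5e7e_lc): constant reductions.
-/

namespace Pool.Agent.Helper21.AX

open Pool.Agent.Helper5.SX

/-- Push the string `w` on stack `r`, last bit first, so that `w` is on top of the old content. -/
def pushAll (r : ℕ) : Str → Cmd
  | [] => Cmd.skip
  | b :: w => Cmd.seq (pushAll r w) (Cmd.push r b)

theorem pushAll_det (r : ℕ) (w : Str) : (pushAll r w).Det := by
  induction w with
  | nil => exact trivial
  | cons b w ih => exact ⟨ih, trivial⟩

theorem pushAll_do (O : Set Str) (r : ℕ) (w : Str) (s : Store) :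
    Do O (pushAll r w) s (Function.update s r (w ++ s r)) (w.length + 1) := by
  induction w with
  | nil =>
    refine ⟨1, by simp, ?_⟩
    rw [List.nil_append, Function.update_eq_self]
    exact Run.skip s
  | cons b w ih =>
    have h1 : Run O (Cmd.push r b) (Function.update s r (w ++ s r)) 1
        (Function.update s r (b :: w ++ s r)) := by
      have h2 := Run.push (O := O) r b (Function.update s r (w ++ s r))
      rw [Function.update_self, Function.update_idem] at h2
      exact h2
    refine (Do.seq ih ⟨1, le_rfl, h1⟩).mono ?_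
    simp

/-- A string different from `x`. -/
def other (x : Str) : Str := if x = [true] then [false] else [true]

theorem other_ne (x : Str) : other x ≠ x := by
  unfold other
  split_ifs with h
  · rw [h]
    decide
  · exact fun h' => h h'.symm

theorem P1a_other_length (x : Str) : (other x).length = 1 := by
  unfold other
  split_ifs <;> rfl

/-- Write the constant table `b` (all the bits are `b`) on stack `0`, and a query different from `x` on
the stacks `1, …, k`. -/
def constRed (k : ℕ) (b : Bool) (x : Str) : Cmd :=
  Cmd.seq (pushAll 0 (List.replicate (2 ^ k) b))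
    (Nat.rec Cmd.skip (fun j c => Cmd.seq c (pushAll (j + 1) (other x))) k)

/-- The queries. -/
def P1a_qs (x : Str) (k : ℕ) : Cmd :=
  Nat.rec Cmd.skip (fun j c => Cmd.seq c (pushAll (j + 1) (other x))) k

theorem P1a_qs_do (O : Set Str) (x : Str) (s : Store) (hs : ∀ r, 0 < r → s r = []) (k : ℕ) :
    ∃ s' : Store, Do O (P1a_qs x k) s s' (2 * k + 1) ∧ (∀ j < k, s' (j + 1) = other x) ∧
      ∀ r, r = 0 ∨ k < r → s' r = s r := by
  induction k with
  | zero => exact ⟨s, ⟨1, by simp, Run.skip s⟩, fun j hj => absurd hj (Nat.not_lt_zero j),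
      fun r _ => rfl⟩
  | succ k ih =>
    obtain ⟨s', h1, h2, h3⟩ := ih
    refine ⟨Function.update s' (k + 1) (other x ++ s' (k + 1)), ?_, ?_, ?_⟩
    · refine (Do.seq h1 (pushAll_do O (k + 1) (other x) s')).mono ?_
      rw [P1a_other_length]
      omega
    · intro j hj
      by_cases hjk : j = k
      · subst hjk
        rw [Function.update_self, h3 _ (Or.inr (by omega)), hs _ (by omega), List.append_nil]
      · rw [Function.update_of_ne (by omega)]
        exact h2 j (by omega)
    · intro r hr
      rw [Function.update_of_ne (by omega)]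
      exact h3 r (by omega)

theorem P1a_sum_lt (k : ℕ) (p : ℕ → Prop) [∀ j, Decidable (p j)] :
    ∑ j ∈ Finset.range k, (if p j then 2 ^ j else 0) < 2 ^ k := by
  induction k with
  | zero => simp
  | succ k ih =>
    rw [Finset.sum_range_succ, pow_succ]
    split_ifs <;> omega

/-- For a constant number of steps, whatever `x`. Proof: induction on `k` for the second part; the sum
in `tab` is less than `2 ^ k` (`Finset.sum_le_sum` and `∑ j ∈ range k, 2 ^ j = 2 ^ k - 1`). -/
theorem constRed_do (O : Set Str) (k : ℕ) (b : Bool) (x : Str) (A : Set Str) :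
    ∃ s' : Store, Do O (constRed k b x) (start [] []) s' (2 ^ k + 3 * k + 5) ∧
      (∀ j < k, s' (j + 1) ≠ x) ∧ tab k (s' 0) (fun j => s' (j + 1) ∈ A) = b := by
  obtain ⟨s₁, hs₁⟩ : ∃ s₁, Function.update (start [] []) 0
      (List.replicate (2 ^ k) b ++ start [] [] 0) = s₁ := ⟨_, rfl⟩
  have h1 := pushAll_do O 0 (List.replicate (2 ^ k) b) (start [] [])
  rw [hs₁] at h1
  have h0 : s₁ 0 = List.replicate (2 ^ k) b := by simp [← hs₁, start]
  obtain ⟨s', h2, h3, h4⟩ := P1a_qs_do O x s₁ (fun r hr => by
    have : r ≠ 0 := by omega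
    simp [← hs₁, start, this]) k
  refine ⟨s', (Do.seq h1 h2).mono ?_, fun j hj => ?_, ?_⟩
  · rw [List.length_replicate]
    omega
  · rw [h3 j hj]
    exact other_ne x
  · rw [h4 0 (Or.inl rfl), h0]
    unfold tab
    classical
    exact List.getD_replicate _ (P1a_sum_lt k _)

theorem constRed_det (k : ℕ) (b : Bool) (x : Str) : (constRed k b x).Det := by
  refine ⟨pushAll_det _ _, ?_⟩
  induction k with
  | zero => exact trivial
  | succ k ih => exact ⟨ih, pushAll_det _ _⟩

end Pool.Agent.Helper21.AX
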