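import Pool.Agent.Helper21.AX.Small

/-!
Project AX (MP_4a5e7e_lc): runs are simulated by the small steps.
-/

namespace Pool.Agent.Helper21.AX

open Pool.Agent.Helper5.SX

theorem iter_zero (O : Set Str) (x : Cf) : iter O 0 x = x := rfl

theorem iter_succ (O : Set Str) (N : ℕ) (x : Cf) : iter O (N + 1) x = iter O N (step O x) := by
  unfold iter
  rw [Function.iterate_succ_apply]

theorem iter_succ' (O : Set Str) (N : ℕ) (x : Cf) : iter O (N + 1) x = step O (iter O N x) := by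
  unfold iter
  rw [Function.iterate_succ_apply']

theorem iter_add (O : Set Str) (M N : ℕ) (x : Cf) : iter O (M + N) x = iter O M (iter O N x) := by
  unfold iter
  rw [Function.iterate_add_apply]

/-- A halted machine stays as it is. -/
theorem iter_halt (O : Set Str) (N : ℕ) (x : Cf) (h : x.k = []) : iter O N x = x := by
  induction N with
  | zero => rfl
  | succ N ih =>
    rw [iter_succ', ih]
    unfold step
    rw [h]

/-- Each run of time `t` is simulated in at most `2 t - 1` small steps, with a list `l` of at most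
`t` choices (none if the program is deterministic).

Proof: induction on `Run` (`induction h`). `skip`, `push`: `N = 1`. `seq`: `l = l₁ ++ l₂`,
`N = N₂ + (N₁ + 1)`, use `iter_add` and `iter_succ`, `List.append_assoc`. `pop`, `loop`, `query`: one
step more. `choose_left`: `l = false :: l₁`; `choose_right`: `l = true :: l₁` (not deterministic).
`Cmd.Det` of a composite program gives `Det` of the parts. -/
theorem iter_of_run {O : Set Str} {c : Cmd} {s s' : Store} {t : ℕ} (h : Run O c s t s') :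
    1 ≤ t ∧ ∃ l : Str, l.length ≤ t ∧ (c.Det → l = []) ∧ ∃ N, N + 1 ≤ 2 * t ∧
      ∀ (K : List Cmd) (l' : Str) (u : ℕ),
        iter O N ⟨c :: K, s, l ++ l', u⟩ = ⟨K, s', l', u + t⟩ := by
  induction h with
  | skip s =>
    refine ⟨le_refl _, [], by simp, fun _ => rfl, 1, le_refl _, fun K l' u => ?_⟩
    rw [iter_succ, iter_zero]
    simp [step]
  | push r b s =>
    refine ⟨le_refl _, [], by simp, fun _ => rfl, 1, le_refl _, fun K l' u => ?_⟩
    rw [iter_succ, iter_zero]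
    simp [step]
  | @seq c d s s' s'' t t' _ _ ih₁ ih₂ =>
    obtain ⟨h₁, l₁, hl₁, hd₁, N₁, hN₁, e₁⟩ := ih₁
    obtain ⟨h₂, l₂, hl₂, hd₂, N₂, hN₂, e₂⟩ := ih₂
    refine ⟨by omega, l₁ ++ l₂, ?_, ?_, N₂ + (N₁ + 1), by omega, fun K l' u => ?_⟩
    · rw [List.length_append]
      omega
    · rintro ⟨hc, hd⟩
      rw [hd₁ hc, hd₂ hd, List.append_nil]
    · rw [iter_add, iter_succ]
      have hs : step O ⟨Cmd.seq c d :: K, s, l₁ ++ l₂ ++ l', u⟩ =
          ⟨c :: d :: K, s, l₁ ++ (l₂ ++ l'), u⟩ := by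
        simp [step]
      rw [hs, e₁, e₂, add_assoc]
  | @pop_nil r c₀ c₁ c₂ s s' t hr _ ih =>
    obtain ⟨h₁, l₁, hl₁, hd₁, N₁, hN₁, e₁⟩ := ih
    refine ⟨by omega, l₁, by omega, fun hd => hd₁ hd.1, N₁ + 1, by omega, fun K l' u => ?_⟩
    rw [iter_succ]
    have hs : step O ⟨Cmd.pop r c₀ c₁ c₂ :: K, s, l₁ ++ l', u⟩ =
        ⟨c₀ :: K, s, l₁ ++ l', u + 1⟩ := by
      simp [step, hr]
    rw [hs, e₁, add_assoc, add_comm 1 t]
  | @pop_false r c₀ c₁ c₂ s s' t w hr _ ih =>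
    obtain ⟨h₁, l₁, hl₁, hd₁, N₁, hN₁, e₁⟩ := ih
    refine ⟨by omega, l₁, by omega, fun hd => hd₁ hd.2.1, N₁ + 1, by omega, fun K l' u => ?_⟩
    rw [iter_succ]
    have hs : step O ⟨Cmd.pop r c₀ c₁ c₂ :: K, s, l₁ ++ l', u⟩ =
        ⟨c₁ :: K, Function.update s r w, l₁ ++ l', u + 1⟩ := by
      simp [step, hr]
    rw [hs, e₁, add_assoc, add_comm 1 t]
  | @pop_true r c₀ c₁ c₂ s s' t w hr _ ih =>
    obtain ⟨h₁, l₁, hl₁, hd₁, N₁, hN₁, e₁⟩ := ih
    refine ⟨by omega, l₁, by omega, fun hd => hd₁ hd.2.2, N₁ + 1, by omega, fun K l' u => ?_⟩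
    rw [iter_succ]
    have hs : step O ⟨Cmd.pop r c₀ c₁ c₂ :: K, s, l₁ ++ l', u⟩ =
        ⟨c₂ :: K, Function.update s r w, l₁ ++ l', u + 1⟩ := by
      simp [step, hr]
    rw [hs, e₁, add_assoc, add_comm 1 t]
  | @loop_nil r c s hr =>
    refine ⟨le_refl _, [], by simp, fun _ => rfl, 1, le_refl _, fun K l' u => ?_⟩
    rw [iter_succ, iter_zero]
    simp [step, hr]
  | @loop_cons r c s s' s'' t t' hr _ _ ih₁ ih₂ =>
    obtain ⟨h₁, l₁, hl₁, hd₁, N₁, hN₁, e₁⟩ := ih₁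
    obtain ⟨h₂, l₂, hl₂, hd₂, N₂, hN₂, e₂⟩ := ih₂
    refine ⟨by omega, l₁ ++ l₂, ?_, ?_, N₂ + (N₁ + 1), by omega, fun K l' u => ?_⟩
    · rw [List.length_append]
      omega
    · intro hc
      rw [hd₁ hc, hd₂ hc, List.append_nil]
    · rw [iter_add, iter_succ]
      have hs : step O ⟨Cmd.loop r c :: K, s, l₁ ++ l₂ ++ l', u⟩ =
          ⟨c :: Cmd.loop r c :: K, s, l₁ ++ (l₂ ++ l'), u + 1⟩ := by
        simp [step, hr]
      rw [hs, e₁, e₂]
      congr 1
      omega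
  | @query_yes r c d s s' t hr _ ih =>
    obtain ⟨h₁, l₁, hl₁, hd₁, N₁, hN₁, e₁⟩ := ih
    refine ⟨by omega, l₁, by omega, fun hd => hd₁ hd.1, N₁ + 1, by omega, fun K l' u => ?_⟩
    rw [iter_succ]
    have hs : step O ⟨Cmd.query r c d :: K, s, l₁ ++ l', u⟩ =
        ⟨c :: K, s, l₁ ++ l', u + 1⟩ := by
      simp [step, hr]
    rw [hs, e₁, add_assoc, add_comm 1 t]
  | @query_no r c d s s' t hr _ ih =>
    obtain ⟨h₁, l₁, hl₁, hd₁, N₁, hN₁, e₁⟩ := ih
    refine ⟨by omega, l₁, by omega, fun hd => hd₁ hd.2, N₁ + 1, by omega, fun K l' u => ?_⟩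
    rw [iter_succ]
    have hs : step O ⟨Cmd.query r c d :: K, s, l₁ ++ l', u⟩ =
        ⟨d :: K, s, l₁ ++ l', u + 1⟩ := by
      simp [step, hr]
    rw [hs, e₁, add_assoc, add_comm 1 t]
  | @choose_left c d s s' t _ ih =>
    obtain ⟨h₁, l₁, hl₁, hd₁, N₁, hN₁, e₁⟩ := ih
    refine ⟨by omega, false :: l₁, ?_, fun hd => hd.elim, N₁ + 1, by omega, fun K l' u => ?_⟩
    · rw [List.length_cons]
      omega
    rw [iter_succ]
    have hs : step O ⟨Cmd.choose c d :: K, s, false :: l₁ ++ l', u⟩ =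
        ⟨c :: K, s, l₁ ++ l', u + 1⟩ := by
      simp [step]
    rw [hs, e₁, add_assoc, add_comm 1 t]
  | @choose_right c d s s' t _ ih =>
    obtain ⟨h₁, l₁, hl₁, hd₁, N₁, hN₁, e₁⟩ := ih
    refine ⟨by omega, true :: l₁, ?_, fun hd => hd.elim, N₁ + 1, by omega, fun K l' u => ?_⟩
    · rw [List.length_cons]
      omega
    rw [iter_succ]
    have hs : step O ⟨Cmd.choose c d :: K, s, true :: l₁ ++ l', u⟩ =
        ⟨d :: K, s, l₁ ++ l', u + 1⟩ := by
      simp [step]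
    rw [hs, e₁, add_assoc, add_comm 1 t]

end Pool.Agent.Helper21.AX
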