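import Pool.Agent.Helper21.AX.S1

/-!
Project AX (MP_4a5e7e_lc): halting computations of the small steps come from runs.
-/

namespace Pool.Agent.Helper21.AX

open Pool.Agent.Helper5.SX

private theorem S2_two {O : Set Str} {n : ℕ} (ih : ∀ m < n + 1, ∀ (c : Cmd) (K : List Cmd)
    (s : Store) (l : Str) (u : ℕ), (iter O m ⟨c :: K, s, l, u⟩).k = [] →
      ∃ N₁ ≤ m, ∃ (s₁ : Store) (l₁ : Str) (t₁ : ℕ), Run O c s t₁ s₁ ∧
        iter O N₁ ⟨c :: K, s, l, u⟩ = ⟨K, s₁, l₁, u + t₁⟩)
    (c d : Cmd) (K : List Cmd) (s : Store) (l : Str) (u : ℕ)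
    (h : (iter O n ⟨c :: d :: K, s, l, u⟩).k = []) :
    ∃ N₁ ≤ n, ∃ (s' s₁ : Store) (l₁ : Str) (t t' : ℕ), Run O c s t s' ∧ Run O d s' t' s₁ ∧
      iter O N₁ ⟨c :: d :: K, s, l, u⟩ = ⟨K, s₁, l₁, u + (t + t')⟩ := by
  obtain ⟨N₁, hN₁, s', l', t, hrun, hit⟩ := ih n (Nat.lt_succ_self n) c (d :: K) s l u h
  have e : n = (n - N₁) + N₁ := by omega
  rw [e, iter_add, hit] at h
  obtain ⟨N₂, hN₂, s₁, l₁, t', hrun', hit'⟩ := ih (n - N₁) (by omega) d K s' l' (u + t) h
  refine ⟨N₂ + N₁, by omega, s', s₁, l₁, t, t', hrun, hrun', ?_⟩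
  rw [iter_add, hit, hit', Nat.add_assoc]

private theorem S2_one {O : Set Str} {n : ℕ} (ih : ∀ m < n + 1, ∀ (c : Cmd) (K : List Cmd)
    (s : Store) (l : Str) (u : ℕ), (iter O m ⟨c :: K, s, l, u⟩).k = [] →
      ∃ N₁ ≤ m, ∃ (s₁ : Store) (l₁ : Str) (t₁ : ℕ), Run O c s t₁ s₁ ∧
        iter O N₁ ⟨c :: K, s, l, u⟩ = ⟨K, s₁, l₁, u + t₁⟩)
    {c c' : Cmd} {K : List Cmd} {s s' : Store} {l l' : Str} {u : ℕ}
    (hrun : ∀ t s₁, Run O c' s' t s₁ → Run O c s (t + 1) s₁)
    (hst : step O ⟨c :: K, s, l, u⟩ = ⟨c' :: K, s', l', u + 1⟩)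
    (h : (iter O (n + 1) ⟨c :: K, s, l, u⟩).k = []) :
    ∃ N₁ ≤ n + 1, ∃ (s₁ : Store) (l₁ : Str) (t₁ : ℕ), Run O c s t₁ s₁ ∧
        iter O N₁ ⟨c :: K, s, l, u⟩ = ⟨K, s₁, l₁, u + t₁⟩ := by
  rw [iter_succ, hst] at h
  obtain ⟨N₁, hN₁, s₁, l₁, t, hr, hit⟩ := ih n (Nat.lt_succ_self n) c' K s' l' (u + 1) h
  refine ⟨N₁ + 1, by omega, s₁, l₁, t + 1, hrun t s₁ hr, ?_⟩
  rw [iter_succ, hst, hit]
  congr 1
  omega

/-- If the machine started with `c :: K` halts within `N` steps, then at some moment `N₁ ≤ N` it has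
finished `c` (and `K` remains), and this comes from a run of `c`.

Proof: strong induction on `N`, for all `c K s l u`. `N = 0` is impossible (`c :: K ≠ []`). For
`N = n + 1` look at `c`. `skip`, `push`: `N₁ = 1`. `seq c d`: after one step the continuation is
`c :: d :: K`; apply the induction hypothesis to `c` with the continuation `d :: K` (`n` steps), which
gives `N₁ ≤ n`; the rest of the computation has `n - N₁ < N` steps and starts with `d :: K`; apply the
induction hypothesis again. `pop`, `query`, `choose`: one step, then the induction hypothesis with the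
same `K`. `loop r c`: if the stack is empty `N₁ = 1`; otherwise the continuation after one step is
`c :: loop r c :: K`: as for `seq` (`Run.loop_cons`; the time is `t + t' + 1`). Use `iter_add` to split
the computation: `iter O N x = iter O (N - N₁) (iter O N₁ x)`. -/
theorem run_of_iter {O : Set Str} (N : ℕ) : ∀ (c : Cmd) (K : List Cmd) (s : Store) (l : Str)
    (u : ℕ), (iter O N ⟨c :: K, s, l, u⟩).k = [] →
      ∃ N₁ ≤ N, ∃ (s₁ : Store) (l₁ : Str) (t₁ : ℕ), Run O c s t₁ s₁ ∧
        iter O N₁ ⟨c :: K, s, l, u⟩ = ⟨K, s₁, l₁, u + t₁⟩ := by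
  induction N using Nat.strong_induction_on with
  | _ N ih =>
    intro c K s l u h
    cases N with
    | zero => exact absurd h (by rw [iter_zero]; exact List.cons_ne_nil _ _)
    | succ n =>
      cases c with
      | skip => exact ⟨1, by omega, s, l, 1, Run.skip s, rfl⟩
      | push r b =>
        exact ⟨1, by omega, Function.update s r (b :: s r), l, 1, Run.push r b s, rfl⟩
      | seq c d =>
        have hst : step O ⟨Cmd.seq c d :: K, s, l, u⟩ = ⟨c :: d :: K, s, l, u⟩ := rfl
        rw [iter_succ, hst] at h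
        obtain ⟨N₁, hN₁, s', s₁, l₁, t, t', h1, h2, h3⟩ := S2_two ih c d K s l u h
        refine ⟨N₁ + 1, by omega, s₁, l₁, t + t', Run.seq h1 h2, ?_⟩
        rw [iter_succ, hst, h3]
      | pop r c₀ c₁ c₂ =>
        cases hs : s r with
        | nil =>
          refine S2_one ih (c' := c₀) (s' := s) (l' := l) (fun t s₁ hr => Run.pop_nil hs hr) ?_ h
          simp only [step, hs]
        | cons b w =>
          cases b with
          | false =>
            refine S2_one ih (c' := c₁) (s' := Function.update s r w) (l' := l)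
              (fun t s₁ hr => Run.pop_false hs hr) ?_ h
            simp only [step, hs]
          | true =>
            refine S2_one ih (c' := c₂) (s' := Function.update s r w) (l' := l)
              (fun t s₁ hr => Run.pop_true hs hr) ?_ h
            simp only [step, hs]
      | loop r c =>
        by_cases hs : s r = []
        · refine ⟨1, by omega, s, l, 1, Run.loop_nil hs, ?_⟩
          rw [iter_succ, iter_zero]
          simp only [step, hs, if_true]
        · have hst : step O ⟨Cmd.loop r c :: K, s, l, u⟩ =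
              ⟨c :: Cmd.loop r c :: K, s, l, u + 1⟩ := by
            simp only [step, hs, if_false]
          rw [iter_succ, hst] at h
          obtain ⟨N₁, hN₁, s', s₁, l₁, t, t', h1, h2, h3⟩ :=
            S2_two ih c (Cmd.loop r c) K s l (u + 1) h
          refine ⟨N₁ + 1, by omega, s₁, l₁, t + t' + 1, Run.loop_cons hs h1 h2, ?_⟩
          rw [iter_succ, hst, h3]
          congr 1
          omega
      | query r c d =>
        by_cases hs : s r ∈ O
        · refine S2_one ih (c' := c) (s' := s) (l' := l) (fun t s₁ hr => Run.query_yes hs hr) ?_ h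
          simp only [step, hs, if_true]
        · refine S2_one ih (c' := d) (s' := s) (l' := l) (fun t s₁ hr => Run.query_no hs hr) ?_ h
          simp only [step, hs, if_false]
      | choose c d =>
        cases l with
        | nil =>
          refine S2_one ih (c' := c) (s' := s) (l' := []) (fun t s₁ hr => Run.choose_left hr) ?_ h
          rfl
        | cons b l =>
          cases b with
          | false =>
            refine S2_one ih (c' := c) (s' := s) (l' := l) (fun t s₁ hr => Run.choose_left hr) ?_ h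
            rfl
          | true =>
            refine S2_one ih (c' := d) (s' := s) (l' := l) (fun t s₁ hr => Run.choose_right hr) ?_ h
            rfl

end Pool.Agent.Helper21.AX
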