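import Pool.Agent.Helper21.AX.S1

/-!
Project AX (MP_4a5e7e_lc): locality.
-/

namespace Pool.Agent.Helper21.AX

open Pool.Agent.Helper5.SX

theorem Loc.mono {α : Type*} {f : Set Str → α} {b L b' L' : ℕ} (h : Loc f b L) (hb : b ≤ b')
    (hL : L ≤ L') : Loc f b' L' := by
  intro O
  obtain ⟨Q, h1, h2, h3⟩ := h O
  exact ⟨Q, h1.trans hb, fun q hq => (h2 q hq).trans hL, h3⟩

theorem Loc.map {α β : Type*} {f : Set Str → α} {b L : ℕ} (h : Loc f b L) (g : α → β) :
    Loc (fun O => g (f O)) b L := by
  intro O
  obtain ⟨Q, h1, h2, h3⟩ := h O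
  exact ⟨Q, h1, h2, fun O' hO' => congrArg g (h3 O' hO')⟩

theorem Loc.const {α : Type*} (a : α) : Loc (fun _ => a) 0 0 := by
  intro O
  exact ⟨∅, by simp, by simp, fun _ _ => rfl⟩

/-- Finitely many local functions together. Induction on `n` (union of the finite sets). -/
theorem Loc.family {α : Type*} {b L : ℕ} (n : ℕ) (f : ℕ → Set Str → α)
    (h : ∀ j < n, Loc (f j) b L) (O : Set Str) : ∃ Q : Finset Str, Q.card ≤ n * b ∧
      (∀ q ∈ Q, q.length ≤ L) ∧ ∀ O' : Set Str, (∀ q ∈ Q, (q ∈ O' ↔ q ∈ O)) →
        ∀ j < n, f j O' = f j O := by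
  classical
  choose Q h1 h2 h3 using fun (j : ℕ) (hj : j < n) => h j hj O
  refine ⟨(Finset.range n).attach.biUnion (fun j => Q j (Finset.mem_range.1 j.2)), ?_, ?_, ?_⟩
  · refine Finset.card_biUnion_le.trans ?_
    calc ∑ j ∈ (Finset.range n).attach, (Q j (Finset.mem_range.1 j.2)).card
        ≤ ∑ j ∈ (Finset.range n).attach, b := Finset.sum_le_sum fun j _ => h1 _ _
      _ = n * b := by simp
  · intro q hq
    rw [Finset.mem_biUnion] at hq
    obtain ⟨j, _, hj⟩ := hq
    exact h2 _ _ q hj
  · intro O' hO' j hj
    exact h3 j hj O' (fun q hq => hO' q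
      (Finset.mem_biUnion.2 ⟨⟨j, Finset.mem_range.2 hj⟩, Finset.mem_attach _ _, hq⟩))

private theorem S3_upd {s : Store} {L : ℕ} (h : ∀ r, (s r).length ≤ L) (q : ℕ) {w : Str}
    (hw : w.length ≤ L + 1) (r : ℕ) : (Function.update s q w r).length ≤ L + 1 := by
  by_cases hr : r = q
  · subst hr
    rw [Function.update_self]
    exact hw
  · rw [Function.update_of_ne hr]
    exact (h r).trans (Nat.le_succ L)

/-- After one step the stacks are longer by at most one. -/
theorem step_length (O : Set Str) (x : Cf) (L : ℕ) (h : ∀ r, (x.s r).length ≤ L) (r : ℕ) :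
    ((step O x).s r).length ≤ L + 1 := by
  have h0 := (h r).trans (Nat.le_succ L)
  obtain ⟨k, s, l, t⟩ := x
  rcases k with _ | ⟨c, K⟩
  · exact h0
  cases c with
  | skip => exact h0
  | push q b => exact S3_upd h q (w := b :: s q) (Nat.succ_le_succ (h q)) r
  | seq c d => exact h0
  | pop q c₀ c₁ c₂ =>
    have h1 := h q
    simp only [step]
    simp only at h1
    rcases hq : s q with _ | ⟨_ | _, w⟩
    · exact h0
    · rw [hq, List.length_cons] at h1
      exact S3_upd h q (by omega) r
    · rw [hq, List.length_cons] at h1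
      exact S3_upd h q (by omega) r
  | loop q c =>
    simp only [step]
    split_ifs
    · exact h0
    · exact h0
  | query q c d =>
    simp only [step]
    split_ifs
    · exact h0
    · exact h0
  | choose c d =>
    rcases l with _ | ⟨_ | _, l⟩
    · exact h0
    · exact h0
    · exact h0

/-- One step depends on at most one string, the content of a stack. -/
theorem step_loc (x : Cf) (L : ℕ) (h : ∀ r, (x.s r).length ≤ L) :
    Loc (fun O => step O x) 1 L := by
  obtain ⟨k, s, l, t⟩ := x
  rcases k with _ | ⟨c, K⟩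
  · exact (Loc.const _).mono (Nat.zero_le _) (Nat.zero_le _)
  cases c with
  | query q c d =>
    intro O
    refine ⟨{s q}, by simp, ?_, ?_⟩
    · intro q' hq'
      rw [Finset.mem_singleton] at hq'
      subst hq'
      exact h q
    · intro O' hO'
      have h1 := hO' (s q) (Finset.mem_singleton_self _)
      simp only [step]
      by_cases h2 : s q ∈ O
      · rw [if_pos h2, if_pos (h1.2 h2)]
      · rw [if_neg h2, if_neg (fun h3 => h2 (h1.1 h3))]
  | _ => exact (Loc.const _).mono (Nat.zero_le _) (Nat.zero_le _)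

/-- `N` steps depend on at most `N` strings of length at most `L + N`.

Proof: induction on `N` with `iter_succ'`. Given `O`, let `Q₁` be the set for `iter O N x` and `Q₂` the
set of `step_loc` for the configuration `iter O N x` (for the same `O`), whose stacks have length at
most `L + N` (`step_length`, induction). If `O'` agrees with `O` on `Q₁ ∪ Q₂` then
`iter O' N x = iter O N x` and `step O' (iter O N x) = step O (iter O N x)`. -/
theorem loc_iter (N : ℕ) (x : Cf) (L : ℕ) (h : ∀ r, (x.s r).length ≤ L) :
    Loc (fun O => iter O N x) N (L + N) := by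
  classical
  have hlen : ∀ (O : Set Str) (N r : ℕ), ((iter O N x).s r).length ≤ L + N := by
    intro O N
    induction N with
    | zero => exact h
    | succ N ih =>
      intro r
      rw [iter_succ']
      exact step_length O _ _ ih r
  induction N with
  | zero =>
    intro O
    exact ⟨∅, by simp, by simp, fun _ _ => rfl⟩
  | succ N ih =>
    intro O
    obtain ⟨Q₁, a1, a2, a3⟩ := ih O
    obtain ⟨Q₂, b1, b2, b3⟩ := step_loc (iter O N x) (L + N) (hlen O N) O
    refine ⟨Q₁ ∪ Q₂, (Finset.card_union_le _ _).trans (by omega), ?_, ?_⟩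
    · intro q hq
      rcases Finset.mem_union.1 hq with hq | hq
      · exact (a2 q hq).trans (by omega)
      · exact (b2 q hq).trans (by omega)
    · intro O' hO'
      have e1 := a3 O' (fun q hq => hO' q (Finset.mem_union_left _ hq))
      have e2 := b3 O' (fun q hq => hO' q (Finset.mem_union_right _ hq))
      simp only at e1 e2 ⊢
      rw [iter_succ', iter_succ', e1, e2]

end Pool.Agent.Helper21.AX
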