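import Pool.Agent.Helper21.AX.S2
import Pool.Agent.Helper21.AX.S3

/-!
Project AX (MP_4a5e7e_lc): acceptance and output through the small steps.
-/

namespace Pool.Agent.Helper21.AX

open Pool.Agent.Helper5.SX

/-- The machine started with one program and halted after `2 * T` steps comes from a run. -/
private theorem S4_run {O : Set Str} {c : Cmd} {x u : Str} {T : ℕ}
    (h : (iter O (2 * T) ⟨[c], start x [], u, 0⟩).k = []) :
    ∃ t, Run O c (start x []) t (iter O (2 * T) ⟨[c], start x [], u, 0⟩).s ∧
      (iter O (2 * T) ⟨[c], start x [], u, 0⟩).t = t := by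
  obtain ⟨N₁, hN₁, s₁, l₁, t₁, hr, hit⟩ := run_of_iter (2 * T) c [] (start x []) u 0 h
  have e : 2 * T = (2 * T - N₁) + N₁ := by omega
  have h2 : iter O (2 * T) ⟨[c], start x [], u, 0⟩ = ⟨[], s₁, l₁, 0 + t₁⟩ := by
    rw [e, iter_add, hit]
    exact iter_halt O _ _ rfl
  rw [h2]
  exact ⟨t₁, hr, Nat.zero_add t₁⟩

/-- The machine follows a run with the right choices. -/
private theorem S4_iter {O : Set Str} {c : Cmd} {x : Str} {T t : ℕ} {s' : Store}
    (h : Run O c (start x []) t s') (ht : t ≤ T) :
    ∃ l : Str, l.length ≤ t ∧ (c.Det → l = []) ∧ ∀ l' : Str,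
      iter O (2 * T) ⟨[c], start x [], l ++ l', 0⟩ = ⟨[], s', l', t⟩ := by
  obtain ⟨_, l, hl, hd, N, hN, e⟩ := iter_of_run h
  refine ⟨l, hl, hd, fun l' => ?_⟩
  have e1 : 2 * T = (2 * T - N) + N := by omega
  rw [e1, iter_add, e [] l' 0, Nat.zero_add]
  exact iter_halt O _ _ rfl

private theorem S4_len (x : Str) (r : ℕ) : (start x [] r).length ≤ x.length := by
  unfold start
  split_ifs
  · exact le_refl _
  · exact Nat.zero_le _
  · exact Nat.zero_le _

/-- Acceptance within time `T` is acceptance with some string of choices of length `L ≥ T`.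

Proof. From left to right: `iter_of_run` with `K = []`, `u = 0` gives a list `l` of length at most
`T ≤ L`; take `u = l ++ l'` with `l'` of the right length (for example `List.replicate _ false`), and
`iter_halt`, `iter_add` to pass from `N ≤ 2 t` to `2 T` steps. From right to left: `run_of_iter` with
`K = []`; the configuration after `N₁` steps is halted, so `iter_halt` identifies it with the
configuration after `2 T` steps. -/
theorem acc_iff_accU {O : Set Str} {c : Cmd} {x : Str} {T L : ℕ} (hT : T ≤ L) :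
    Acc O c x [] T ↔ ∃ u : Str, u.length = L ∧ AccU O c x T u := by
  constructor
  · rintro ⟨t, ht, s', hr, hs'⟩
    obtain ⟨l, hl, _, e⟩ := S4_iter hr ht
    refine ⟨l ++ List.replicate (L - l.length) false, ?_, ?_⟩
    · rw [List.length_append, List.length_replicate]
      omega
    · unfold AccU
      rw [e]
      exact ⟨rfl, ht, hs'⟩
  · rintro ⟨u, _, h1, h2, h3⟩
    obtain ⟨t, hr, ht⟩ := S4_run h1
    exact ⟨t, ht ▸ h2, _, hr, h3⟩

/-- Proof: `iter_of_run`; the list of choices is empty since `g` is deterministic. -/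
theorem out_of_run {O : Set Str} {g : Cmd} {x : Str} {T t : ℕ} {s' : Store} (hg : g.Det)
    (h : Run O g (start x []) t s') (ht : t ≤ T) : out O g x T = some s' := by
  obtain ⟨l, _, hd, e⟩ := S4_iter h ht
  have e1 := e []
  rw [hd hg] at e1
  unfold out
  rw [show (⟨[g], start x [], [], 0⟩ : Cf) = ⟨[g], start x [], [] ++ [], 0⟩ from rfl, e1]
  rw [if_pos ⟨rfl, ht⟩]

/-- Proof: `run_of_iter` with `K = []`, as in `acc_iff_accU`. -/
theorem run_of_out {O : Set Str} {g : Cmd} {x : Str} {T : ℕ} {s' : Store}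
    (h : out O g x T = some s') : ∃ t ≤ T, Run O g (start x []) t s' := by
  unfold out at h
  split_ifs at h with h1
  obtain ⟨t, hr, ht⟩ := S4_run h1.1
  have h2 := Option.some.inj h
  rw [h2] at hr
  exact ⟨t, ht ▸ h1.2, hr⟩

/-- `loc_iter` and `Loc.map`. The stacks of `start x []` have length at most `x.length`. -/
theorem loc_accU (c : Cmd) (x : Str) (T : ℕ) (u : Str) :
    Loc (fun O => AccU O c x T u) (2 * T) (x.length + 2 * T) :=
  (loc_iter (2 * T) ⟨[c], start x [], u, 0⟩ x.length (S4_len x)).map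
    (fun y => y.k = [] ∧ y.t ≤ T ∧ y.s 2 ≠ [])

/-- `loc_iter` and `Loc.map`. -/
theorem loc_out (g : Cmd) (x : Str) (T : ℕ) :
    Loc (fun O => out O g x T) (2 * T) (x.length + 2 * T) := by
  classical
  have h := (loc_iter (2 * T) ⟨[g], start x [], [], 0⟩ x.length (S4_len x)).map
    (fun y => if y.k = [] ∧ y.t ≤ T then some y.s else none)
  intro O
  obtain ⟨Q, h1, h2, h3⟩ := h O
  refine ⟨Q, h1, h2, fun O' hO' => ?_⟩
  have h4 := h3 O' hO'
  unfold out
  convert h4

end Pool.Agent.Helper21.AX
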