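import Pool.Agent.Helper5.SX.Use

/-!
Project AX (MP_4a5e7e_lc): a machine with small steps, equivalent to `Run`, and locality.

`Cf` is a configuration: continuation, stacks, remaining choices, time used.  The step of `seq`
costs nothing, all the other steps cost `1`, exactly as in `Run`.
-/

namespace Pool.Agent.Helper21.AX

open Pool.Agent.Helper5.SX

/-- A configuration of the machine. -/
structure Cf where
  /-- what remains to be done -/
  k : List Cmd
  /-- the stacks -/
  s : Store
  /-- the choices that were not used yet -/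
  l : Str
  /-- the time used so far -/
  t : ℕ

open Classical in
/-- One step of the machine (a halted machine, `k = []`, does not move). -/
noncomputable def step (O : Set Str) (x : Cf) : Cf :=
  match x.k with
  | [] => x
  | Cmd.skip :: K => ⟨K, x.s, x.l, x.t + 1⟩
  | Cmd.push r b :: K => ⟨K, Function.update x.s r (b :: x.s r), x.l, x.t + 1⟩
  | Cmd.seq c d :: K => ⟨c :: d :: K, x.s, x.l, x.t⟩
  | Cmd.pop r c₀ c₁ c₂ :: K =>
    match x.s r with
    | [] => ⟨c₀ :: K, x.s, x.l, x.t + 1⟩
    | false :: w => ⟨c₁ :: K, Function.update x.s r w, x.l, x.t + 1⟩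
    | true :: w => ⟨c₂ :: K, Function.update x.s r w, x.l, x.t + 1⟩
  | Cmd.loop r c :: K =>
    if x.s r = [] then ⟨K, x.s, x.l, x.t + 1⟩ else ⟨c :: Cmd.loop r c :: K, x.s, x.l, x.t + 1⟩
  | Cmd.query r c d :: K =>
    if x.s r ∈ O then ⟨c :: K, x.s, x.l, x.t + 1⟩ else ⟨d :: K, x.s, x.l, x.t + 1⟩
  | Cmd.choose c d :: K =>
    match x.l with
    | [] => ⟨c :: K, x.s, [], x.t + 1⟩
    | false :: l => ⟨c :: K, x.s, l, x.t + 1⟩
    | true :: l => ⟨d :: K, x.s, l, x.t + 1⟩

/-- The configuration after `N` steps. -/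
noncomputable def iter (O : Set Str) (N : ℕ) (x : Cf) : Cf := (step O)^[N] x

/-- Accepting runs coded by a string `u` of choices: the run of `c` on `x` with the choices `u`
halts in time at most `T` and leaves stack `2` not empty. -/
def AccU (O : Set Str) (c : Cmd) (x : Str) (T : ℕ) (u : Str) : Prop :=
  (iter O (2 * T) ⟨[c], start x [], u, 0⟩).k = [] ∧
    (iter O (2 * T) ⟨[c], start x [], u, 0⟩).t ≤ T ∧
    (iter O (2 * T) ⟨[c], start x [], u, 0⟩).s 2 ≠ []

open Classical in
/-- The final stacks of the (deterministic) program `g` on `x`, if it halts in time at most `T`. -/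
noncomputable def out (O : Set Str) (g : Cmd) (x : Str) (T : ℕ) : Option Store :=
  if (iter O (2 * T) ⟨[g], start x [], [], 0⟩).k = [] ∧
      (iter O (2 * T) ⟨[g], start x [], [], 0⟩).t ≤ T then
    some (iter O (2 * T) ⟨[g], start x [], [], 0⟩).s
  else none

/-- The value `f O` depends on at most `b` strings of length at most `L`. -/
def Loc {α : Type*} (f : Set Str → α) (b L : ℕ) : Prop :=
  ∀ O, ∃ Q : Finset Str, Q.card ≤ b ∧ (∀ q ∈ Q, q.length ≤ L) ∧
    ∀ O' : Set Str, (∀ q ∈ Q, (q ∈ O' ↔ q ∈ O)) → f O' = f O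

end Pool.Agent.Helper21.AX
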