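import Pool.Agent.Helper21.AX.C1

/-!
Project AX (MP_4a5e7e_lc): the walk program, the base and the questions.
-/

namespace Pool.Agent.Helper21.AX

open Pool.Agent.Helper5.SX

/-- The store with `a`, `b`, `c` on the stacks `0`, `1`, `2` and nothing else. -/
def St3 (a b c : Str) : Store := fun r => if r = 0 then a else if r = 1 then b else
  if r = 2 then c else []

/-- `c` leads from `s` to `s'` in time at most `T`. -/
def Do (O : Set Str) (c : Cmd) (s s' : Store) (T : ℕ) : Prop := ∃ t ≤ T, Run O c s t s'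

theorem Do.seq {O : Set Str} {c d : Cmd} {s s' s'' : Store} {T T' : ℕ} (h : Do O c s s' T)
    (h' : Do O d s' s'' T') : Do O (Cmd.seq c d) s s'' (T + T') := by
  obtain ⟨t, ht, h⟩ := h
  obtain ⟨t', ht', h'⟩ := h'
  exact ⟨t + t', by omega, Run.seq h h'⟩

theorem Do.mono {O : Set Str} {c : Cmd} {s s' : Store} {T T' : ℕ} (h : Do O c s s' T)
    (hT : T ≤ T') : Do O c s s' T' := by
  obtain ⟨t, ht, h⟩ := h
  exact ⟨t, by omega, h⟩

theorem start_eq (x : Str) : start x [] = St3 x [] [] := by
  funext r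
  simp [start, St3]

/-- Move stack `0` to stack `1` (reversed), then push `false`, `i` times `true`, and `false`. -/
def mkBase (i : ℕ) : Cmd :=
  Cmd.seq (Cmd.loop 0 (Cmd.pop 0 Cmd.skip (Cmd.push 1 false) (Cmd.push 1 true)))
    (Cmd.seq (Cmd.push 1 false)
      (Nat.rec (Cmd.push 1 false) (fun _ c => Cmd.seq (Cmd.push 1 true) c) i))

private theorem W1a_rec_det (i : ℕ) :
    (Nat.rec (Cmd.push 1 false) (fun _ c => Cmd.seq (Cmd.push 1 true) c) i : Cmd).Det := by
  induction i with
  | zero => exact trivial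
  | succ i ih => exact ⟨trivial, ih⟩

theorem mkBase_det (i : ℕ) : (mkBase i).Det :=
  ⟨⟨trivial, trivial, trivial⟩, trivial, W1a_rec_det i⟩

private theorem W1a_upd0 (a b c a' : Str) : Function.update (St3 a b c) 0 a' = St3 a' b c := by
  funext r
  by_cases h : r = 0
  · subst h; simp [St3]
  · rw [Function.update_of_ne h]; simp [St3, h]

private theorem W1a_upd1 (a b c b' : Str) : Function.update (St3 a b c) 1 b' = St3 a b' c := by
  funext r
  by_cases h : r = 1
  · subst h; simp [St3]
  · rw [Function.update_of_ne h]; simp [St3, h]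

private theorem W1a_at0 (a b c : Str) : St3 a b c 0 = a := by simp [St3]

private theorem W1a_at1 (a b c : Str) : St3 a b c 1 = b := by simp [St3]

private theorem W1a_push (O : Set Str) (x : Bool) (a b c : Str) :
    Do O (Cmd.push 1 x) (St3 a b c) (St3 a (x :: b) c) 1 := by
  have h := Run.push (O := O) 1 x (St3 a b c)
  rw [W1a_upd1, W1a_at1] at h
  exact ⟨1, le_rfl, h⟩

private theorem W1a_pop (O : Set Str) (x : Bool) (a b c : Str) :
    Do O (Cmd.pop 1 Cmd.skip Cmd.skip Cmd.skip) (St3 a (x :: b) c) (St3 a b c) 2 := by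
  refine ⟨2, le_rfl, ?_⟩
  have h := Run.skip (O := O) (St3 a b c)
  have e : Function.update (St3 a (x :: b) c) 1 b = St3 a b c := W1a_upd1 _ _ _ _
  rw [← e] at h
  rw [← e]
  cases x
  · exact Run.pop_false (t := 1) (W1a_at1 a (false :: b) c) h
  · exact Run.pop_true (t := 1) (W1a_at1 a (true :: b) c) h

private theorem W1a_loop (O : Set Str) (y : Str) : ∀ b c : Str,
    Do O (Cmd.loop 0 (Cmd.pop 0 Cmd.skip (Cmd.push 1 false) (Cmd.push 1 true)))
      (St3 y b c) (St3 [] (y.reverse ++ b) c) (3 * y.length + 1) := by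
  induction y with
  | nil => intro b c; exact ⟨1, by simp, Run.loop_nil (W1a_at0 [] b c)⟩
  | cons x y ih =>
    intro b c
    obtain ⟨t, ht, h⟩ := ih (x :: b) c
    have e : y.reverse ++ (x :: b) = (x :: y).reverse ++ b := by simp
    rw [e] at h
    refine ⟨2 + t + 1, by simp only [List.length_cons]; omega, ?_⟩
    refine Run.loop_cons (by rw [W1a_at0]; simp) ?_ h
    have e2 : Function.update (St3 (x :: y) b c) 0 y = St3 y b c := W1a_upd0 _ _ _ _
    have h1 : ∀ z : Bool, Run O (Cmd.push 1 z) (Function.update (St3 (x :: y) b c) 0 y) 1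
        (St3 y (z :: b) c) := by
      intro z
      have h := Run.push (O := O) 1 z (St3 y b c)
      rw [W1a_upd1, W1a_at1] at h
      rw [e2]
      exact h
    cases x
    · exact Run.pop_false (t := 1) (W1a_at0 (false :: y) b c) (h1 false)
    · exact Run.pop_true (t := 1) (W1a_at0 (true :: y) b c) (h1 true)

private theorem W1a_rec (O : Set Str) (i : ℕ) : ∀ a b c : Str,
    Do O (Nat.rec (Cmd.push 1 false) (fun _ c => Cmd.seq (Cmd.push 1 true) c) i : Cmd)
      (St3 a b c) (St3 a (false :: (List.replicate i true ++ b)) c) (i + 1) := by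
  induction i with
  | zero => intro a b c; exact W1a_push O false a b c
  | succ i ih =>
    intro a b c
    have h := (W1a_push O true a b c).seq (ih a (true :: b) c)
    have e : List.replicate i true ++ true :: b = List.replicate (i + 1) true ++ b := by
      rw [List.replicate_succ']; simp
    rw [e] at h
    exact h.mono (by omega)

theorem mkBase_do (O : Set Str) (i : ℕ) (y : Str) :
    Do O (mkBase i) (St3 y [] []) (St3 [] (base i y) []) (3 * y.length + i + 3) := by
  have h := (W1a_loop O y [] []).seq ((W1a_push O false [] (y.reverse ++ []) []).seq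
    (W1a_rec O i [] (false :: (y.reverse ++ [])) []))
  rw [List.append_nil] at h
  exact h.mono (by omega)

/-- Ask for the zone: push `b'`, `b`, `true` on stack `1`, query, remove the three bits again in both
branches and go on with `c` (yes) or `d` (no). -/
def ask (b b' : Bool) (c d : Cmd) : Cmd :=
  Cmd.seq (Cmd.push 1 b') (Cmd.seq (Cmd.push 1 b) (Cmd.seq (Cmd.push 1 true)
    (Cmd.query 1
      (Cmd.seq (Cmd.pop 1 Cmd.skip Cmd.skip Cmd.skip) (Cmd.seq (Cmd.pop 1 Cmd.skip Cmd.skip Cmd.skip)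
        (Cmd.seq (Cmd.pop 1 Cmd.skip Cmd.skip Cmd.skip) c)))
      (Cmd.seq (Cmd.pop 1 Cmd.skip Cmd.skip Cmd.skip) (Cmd.seq (Cmd.pop 1 Cmd.skip Cmd.skip Cmd.skip)
        (Cmd.seq (Cmd.pop 1 Cmd.skip Cmd.skip Cmd.skip) d))))))

theorem ask_det {b b' : Bool} {c d : Cmd} (hc : c.Det) (hd : d.Det) : (ask b b' c d).Det :=
  ⟨trivial, trivial, trivial, ⟨⟨trivial, trivial, trivial⟩, ⟨trivial, trivial, trivial⟩,
    ⟨trivial, trivial, trivial⟩, hc⟩, ⟨trivial, trivial, trivial⟩, ⟨trivial, trivial, trivial⟩,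
    ⟨trivial, trivial, trivial⟩, hd⟩

private theorem W1a_pops (O : Set Str) {b b' : Bool} {c : Cmd} {a w f : Str} {s' : Store} {T : ℕ}
    (hc : Do O c (St3 a w f) s' T) :
    Do O (Cmd.seq (Cmd.pop 1 Cmd.skip Cmd.skip Cmd.skip) (Cmd.seq (Cmd.pop 1 Cmd.skip Cmd.skip Cmd.skip)
        (Cmd.seq (Cmd.pop 1 Cmd.skip Cmd.skip Cmd.skip) c))) (St3 a (true :: b :: b' :: w) f) s'
      (T + 6) :=
  ((W1a_pop O true a (b :: b' :: w) f).seq ((W1a_pop O b a (b' :: w) f).seq
    ((W1a_pop O b' a w f).seq hc))).mono (by omega)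

private theorem W1a_pushes (O : Set Str) {b b' : Bool} {c : Cmd} {a w f : Str} {s' : Store} {T : ℕ}
    (hc : Do O c (St3 a (true :: b :: b' :: w) f) s' T) :
    Do O (Cmd.seq (Cmd.push 1 b') (Cmd.seq (Cmd.push 1 b) (Cmd.seq (Cmd.push 1 true) c)))
      (St3 a w f) s' (T + 3) :=
  ((W1a_push O b' a w f).seq ((W1a_push O b a (b' :: w) f).seq
    ((W1a_push O true a (b :: b' :: w) f).seq hc))).mono (by omega)

/-- The question with the counter `j` asks the string `wq b b' j i y`. -/
theorem ask_yes {O : Set Str} {b b' : Bool} {c d : Cmd} {a f : Str} {j i : ℕ} {y : Str}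
    {s' : Store} {T : ℕ} (h : wq b b' j i y ∈ O)
    (hc : Do O c (St3 a (List.replicate j true ++ base i y) f) s' T) :
    Do O (ask b b' c d) (St3 a (List.replicate j true ++ base i y) f) s' (T + 10) := by
  refine (W1a_pushes O (T := T + 7) ?_).mono (by omega)
  obtain ⟨t, ht, h1⟩ := W1a_pops O (b := b) (b' := b') hc
  refine ⟨t + 1, by omega, Run.query_yes ?_ h1⟩
  rw [W1a_at1]
  exact h

theorem ask_no {O : Set Str} {b b' : Bool} {c d : Cmd} {a f : Str} {j i : ℕ} {y : Str}
    {s' : Store} {T : ℕ} (h : wq b b' j i y ∉ O)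
    (hd : Do O d (St3 a (List.replicate j true ++ base i y) f) s' T) :
    Do O (ask b b' c d) (St3 a (List.replicate j true ++ base i y) f) s' (T + 10) := by
  refine (W1a_pushes O (T := T + 7) ?_).mono (by omega)
  obtain ⟨t, ht, h1⟩ := W1a_pops O (b := b) (b' := b') hd
  refine ⟨t + 1, by omega, Run.query_no ?_ h1⟩
  rw [W1a_at1]
  exact h

end Pool.Agent.Helper21.AX
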