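import Pool.Agent.Helper21.AX.W1a

/-!
Project AX (MP_4a5e7e_lc): the walk program, the zone.
-/

namespace Pool.Agent.Helper21.AX

open Pool.Agent.Helper5.SX

/-- Increase the counter until the zone is reached. -/
def zone : Cmd :=
  Cmd.seq (Cmd.push 2 true) (Cmd.loop 2 (Cmd.seq (Cmd.push 1 true)
    (ask false false (Cmd.pop 2 Cmd.skip Cmd.skip Cmd.skip) Cmd.skip)))

theorem zone_det : zone.Det :=
  ⟨trivial, trivial, ask_det ⟨trivial, trivial, trivial⟩ trivial⟩

private theorem W1b_upd1 (a b c b' : Str) : Function.update (St3 a b c) 1 b' = St3 a b' c := by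
  funext r
  by_cases h : r = 1
  · subst h; simp [St3]
  · rw [Function.update_of_ne h]; simp [St3, h]

private theorem W1b_upd2 (a b c c' : Str) : Function.update (St3 a b c) 2 c' = St3 a b c' := by
  funext r
  by_cases h : r = 2
  · subst h; simp [St3]
  · rw [Function.update_of_ne h]; simp [St3, h]

private theorem W1b_at1 (a b c : Str) : St3 a b c 1 = b := by simp [St3]

private theorem W1b_at2 (a b c : Str) : St3 a b c 2 = c := by simp [St3]

private theorem W1b_push1 (O : Set Str) (x : Bool) (a b c : Str) :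
    Do O (Cmd.push 1 x) (St3 a b c) (St3 a (x :: b) c) 1 := by
  have h := Run.push (O := O) 1 x (St3 a b c)
  rw [W1b_upd1, W1b_at1] at h
  exact ⟨1, le_rfl, h⟩

private theorem W1b_push2 (O : Set Str) (x : Bool) (a b c : Str) :
    Do O (Cmd.push 2 x) (St3 a b c) (St3 a b (x :: c)) 1 := by
  have h := Run.push (O := O) 2 x (St3 a b c)
  rw [W1b_upd2, W1b_at2] at h
  exact ⟨1, le_rfl, h⟩

private theorem W1b_pop2 (O : Set Str) (a b c : Str) :
    Do O (Cmd.pop 2 Cmd.skip Cmd.skip Cmd.skip) (St3 a b (true :: c)) (St3 a b c) 2 := by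
  refine ⟨2, le_rfl, ?_⟩
  have h := Run.skip (O := O) (St3 a b c)
  have e : Function.update (St3 a b (true :: c)) 2 c = St3 a b c := W1b_upd2 _ _ _ _
  rw [← e] at h
  rw [← e]
  exact Run.pop_true (t := 1) (W1b_at2 a b (true :: c)) h

private theorem W1b_loop {O : Set Str} {i J : ℕ} {y : Str}
    (h : ∀ j, wq false false j i y ∈ O ↔ J ≤ j) : ∀ d j : ℕ, j + d + 1 = J →
    Do O (Cmd.loop 2 (Cmd.seq (Cmd.push 1 true)
      (ask false false (Cmd.pop 2 Cmd.skip Cmd.skip Cmd.skip) Cmd.skip)))
      (St3 [] (List.replicate j true ++ base i y) [true])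
      (St3 [] (List.replicate J true ++ base i y) []) (16 * (d + 1) + 1) := by
  intro d
  induction d with
  | zero =>
    intro j hj
    have hJ : j + 1 = J := by omega
    have h1 : Do O (ask false false (Cmd.pop 2 Cmd.skip Cmd.skip Cmd.skip) Cmd.skip)
        (St3 [] (List.replicate (j + 1) true ++ base i y) [true])
        (St3 [] (List.replicate (j + 1) true ++ base i y) []) (2 + 10) :=
      ask_yes ((h (j + 1)).2 hJ.ge) (W1b_pop2 O _ _ _)
    have h2 := (W1b_push1 O true [] (List.replicate j true ++ base i y) [true]).seq h1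
    obtain ⟨t, ht, h3⟩ := h2
    rw [hJ] at h3
    exact ⟨t + 1 + 1, by omega, Run.loop_cons (by rw [W1b_at2]; simp) h3
      (Run.loop_nil (W1b_at2 _ _ _))⟩
  | succ d ih =>
    intro j hj
    have hJ : ¬ J ≤ j + 1 := by omega
    have h1 : Do O (ask false false (Cmd.pop 2 Cmd.skip Cmd.skip Cmd.skip) Cmd.skip)
        (St3 [] (List.replicate (j + 1) true ++ base i y) [true])
        (St3 [] (List.replicate (j + 1) true ++ base i y) [true]) (1 + 10) :=
      ask_no (fun hh => hJ ((h (j + 1)).1 hh)) ⟨1, le_rfl, Run.skip _⟩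
    have h2 := (W1b_push1 O true [] (List.replicate j true ++ base i y) [true]).seq h1
    obtain ⟨t, ht, h3⟩ := h2
    obtain ⟨t', ht', h4⟩ := ih (j + 1) (by omega)
    exact ⟨t + t' + 1, by omega, Run.loop_cons (by rw [W1b_at2]; simp) h3 h4⟩

/-- The counter stops at `J` (`J ≥ 1`). Proof: for `j < J` the loop with the counter `j` and the flag on
leads to the counter `J` and the flag off in time at most `16 (J - j) + 1`; induction on `J - j`. -/
theorem zone_do {O : Set Str} {i J : ℕ} {y : Str} (hJ : 1 ≤ J)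
    (h : ∀ j, wq false false j i y ∈ O ↔ J ≤ j) :
    Do O zone (St3 [] (base i y) []) (St3 [] (List.replicate J true ++ base i y) [])
      (16 * J + 2) := by
  have h1 := W1b_loop h (J - 1) 0 (by omega)
  have h2 := (W1b_push2 O true [] (base i y) []).seq h1
  exact h2.mono (by omega)

end Pool.Agent.Helper21.AX
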